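import Mathlib
import Pool.Agent.N852.Coset
import Pool.Agent.H548.BL.Cnt

/-!
Systems of `k` bilinear forms in `n + m` variables.  Definitions and boxes.
-/

namespace Pool.Agent.N852.DD

open Matrix Module
open Pool.Agent.N852 (ic ic_add ic_sub ic_neg)
open Pool.Agent.H548.BL (lat orth mem_lat mem_orth finrank_orth rc sep_card)

variable {k n m : ℕ}

/-- The coefficient vectors (in the second variable). -/
def rv {R : Type*} [CommRing R] (M : Fin k → Matrix (Fin n) (Fin m) ℤ) (x : Fin n → R)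
    (i : Fin k) : Fin m → R := x ᵥ* (M i).map (Int.cast : ℤ → R)

/-- The coefficient vectors (in the first variable). -/
def cv {R : Type*} [CommRing R] (M : Fin k → Matrix (Fin n) (Fin m) ℤ) (y : Fin m → R)
    (i : Fin k) : Fin n → R := (M i).map (Int.cast : ℤ → R) *ᵥ y

/-- The `k` bilinear equations. -/
def Inc {R : Type*} [CommRing R] (M : Fin k → Matrix (Fin n) (Fin m) ℤ)
    (x : Fin n → R) (y : Fin m → R) : Prop := ∀ i, x ⬝ᵥ cv M y i = 0

/-- `X` is a smooth complete intersection (Jacobian criterion). -/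
def Smooth (M : Fin k → Matrix (Fin n) (Fin m) ℤ) : Prop :=
  ∀ (x : Fin n → ℂ) (y : Fin m → ℂ), x ≠ 0 → y ≠ 0 → Inc M x y →
    LinearIndependent ℂ fun i => ((cv M y i, rv M x i) : (Fin n → ℂ) × (Fin m → ℂ))

/-- The transposed system. -/
def tr (M : Fin k → Matrix (Fin n) (Fin m) ℤ) : Fin k → Matrix (Fin m) (Fin n) ℤ :=
  fun i => (M i)ᵀ

variable {R : Type*} [CommRing R] {M : Fin k → Matrix (Fin n) (Fin m) ℤ}

theorem inc_iff_rv {x : Fin n → R} {y : Fin m → R} :
    Inc M x y ↔ ∀ i, rv M x i ⬝ᵥ y = 0 := by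
  unfold Inc rv cv
  simp only [dotProduct_mulVec]

theorem rv_tr (y : Fin m → R) : rv (tr M) y = cv M y := by
  funext i
  unfold rv cv tr
  rw [transpose_map, vecMul_transpose]

theorem cv_tr (x : Fin n → R) : cv (tr M) x = rv M x := by
  funext i
  unfold rv cv tr
  rw [transpose_map, mulVec_transpose]

theorem inc_tr {x : Fin n → R} {y : Fin m → R} : Inc (tr M) y x ↔ Inc M x y := by
  rw [inc_iff_rv, rv_tr]
  unfold Inc
  simp only [dotProduct_comm]

theorem tr_tr : tr (tr M) = M := by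
  funext i
  unfold tr
  rw [transpose_transpose]

theorem smooth_tr (h : Smooth M) : Smooth (tr M) := by
  intro x y hx hy hxy
  have h1 := h y x hy hx (inc_tr.1 hxy)
  rw [cv_tr, rv_tr]
  have h2 := h1.map' (LinearEquiv.prodComm ℂ (Fin n → ℂ) (Fin m → ℂ)).toLinearMap
    (LinearEquiv.ker _)
  exact h2

/-! ### Boxes -/

theorem norm_ic_le {x : Fin n → ℤ} {B : ℝ} (hB : 0 ≤ B) : ‖ic x‖ ≤ B ↔ ∀ i, |(x i : ℝ)| ≤ B := by
  rw [pi_norm_le_iff_of_nonneg hB]
  rfl

/-- The integer vectors of norm at most `B`. -/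
noncomputable def Bl (n : ℕ) (B : ℝ) : Finset (Fin n → ℤ) :=
  Fintype.piFinset fun _ => Finset.Icc ⌈-B⌉ ⌊B⌋

theorem mem_Bl {x : Fin n → ℤ} {B : ℝ} (hB : 0 ≤ B) : x ∈ Bl n B ↔ ‖ic x‖ ≤ B := by
  rw [norm_ic_le hB]
  unfold Bl
  rw [Fintype.mem_piFinset]
  refine forall_congr' fun i => ?_
  rw [Finset.mem_Icc, Int.ceil_le, Int.le_floor, abs_le]

theorem Bl_mono {B C : ℝ} (hB : 0 ≤ B) (h : B ≤ C) : Bl n B ⊆ Bl n C := by
  intro x hx
  rw [mem_Bl hB] at hx
  rw [mem_Bl (hB.trans h)]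
  exact hx.trans h

theorem zero_mem_Bl {B : ℝ} (hB : 0 ≤ B) : (0 : Fin n → ℤ) ∈ Bl n B := by
  rw [mem_Bl hB, norm_ic_le hB]
  intro i
  simpa using hB

theorem card_Bl {B : ℝ} (hB : 1 ≤ B) : ((Bl n B).card : ℝ) ≤ (3 * B) ^ n := by
  unfold Bl
  rw [Fintype.card_piFinset]
  simp only [Finset.prod_const, Finset.card_univ, Fintype.card_fin, Int.card_Icc]
  push_cast
  have h1 : ((⌊B⌋ + 1 - ⌈-B⌉).toNat : ℝ) ≤ 3 * B := by
    rw [Int.ceil_neg]
    have h2 : (0 : ℤ) ≤ ⌊B⌋ := Int.floor_nonneg.2 (by linarith)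
    have h3 : (((⌊B⌋ + 1 - -⌊B⌋).toNat : ℕ) : ℤ) = ⌊B⌋ + 1 - -⌊B⌋ := Int.toNat_of_nonneg (by linarith)
    have h4 : (((⌊B⌋ + 1 - -⌊B⌋).toNat : ℕ) : ℝ) = 2 * (⌊B⌋ : ℝ) + 1 := by
      have : (((⌊B⌋ + 1 - -⌊B⌋).toNat : ℤ) : ℝ) = ((⌊B⌋ + 1 - -⌊B⌋ : ℤ) : ℝ) := by exact_mod_cast h3
      push_cast at this
      rw [this]
      ring
    rw [h4]
    have := Int.floor_le B
    linarith
  gcongr

theorem norm_ic_ge {x : Fin n → ℤ} (hx : x ≠ 0) : 1 ≤ ‖ic x‖ := by
  obtain ⟨i, hi⟩ : ∃ i, x i ≠ 0 := by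
    by_contra h
    push Not at h
    exact hx (funext h)
  have h1 := norm_le_pi_norm (ic x) i
  have h2 : (1 : ℝ) ≤ ‖ic x i‖ := by
    change (1 : ℝ) ≤ |((x i : ℤ) : ℝ)|
    exact_mod_cast Int.one_le_abs hi
  linarith

theorem ic_inj {x y : Fin n → ℤ} (h : ic x = ic y) : x = y := by
  funext i
  have := congrFun h i
  unfold ic at this
  exact_mod_cast this

open Classical in
/-- The comparison of the numbers of lattice points in two boxes. -/
theorem dbl {b : ℕ} (Λ : AddSubgroup (Fin n → ℤ)) (V : Submodule ℝ (Fin n → ℝ))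
    (hV : finrank ℝ V ≤ b) (hΛ : ∀ v ∈ Λ, ic v ∈ V) {B ρ : ℝ} (hρ : 0 < ρ) (hB : ρ ≤ B) :
    (((Bl n B).filter (· ∈ Λ)).card : ℝ) ≤
      (3 * B / ρ) ^ b * (((Bl n ρ).filter (· ∈ Λ)).card : ℝ) := by
  have hB0 : 0 < B := hρ.trans_le hB
  set G := (Bl n B).filter (· ∈ Λ) with hG
  set Sm := (Bl n ρ).filter (· ∈ Λ) with hSm
  set Q : Finset (Finset (Fin n → ℤ)) := G.powerset.filter
    fun P => ∀ c ∈ P, ∀ d ∈ P, c ≠ d → ρ ≤ ‖ic (c - d)‖ with hQ
  have hQne : Q.Nonempty := ⟨∅, by rw [hQ, Finset.mem_filter]; simp⟩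
  obtain ⟨P, hP, hmax⟩ := Finset.exists_max_image Q Finset.card hQne
  rw [hQ, Finset.mem_filter, Finset.mem_powerset] at hP
  obtain ⟨hPG, hPs⟩ := hP
  have hnn : ∀ c d : Fin n → ℤ, ‖ic (c - d)‖ = ‖ic (d - c)‖ := by
    intro c d
    rw [← neg_sub d c, ic_neg, norm_neg]
  have hcov : G ⊆ P.biUnion fun p => Sm.image fun u => p + u := by
    intro v hv
    rw [Finset.mem_biUnion]
    by_contra hcon
    push Not at hcon
    have hfar : ∀ p ∈ P, ρ ≤ ‖ic (v - p)‖ := by
      intro p hp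
      by_contra hlt
      apply hcon p hp
      rw [Finset.mem_image]
      refine ⟨v - p, ?_, by abel⟩
      rw [hSm, Finset.mem_filter, mem_Bl hρ.le]
      refine ⟨by linarith, ?_⟩
      have h1 := hPG hp
      rw [hG, Finset.mem_filter] at h1 hv
      exact Λ.sub_mem hv.2 h1.2
    have hvP : v ∉ P := by
      intro h
      have h1 := hfar v h
      rw [sub_self] at h1
      have h2 : ‖ic (0 : Fin n → ℤ)‖ ≤ 0 := by
        rw [norm_ic_le le_rfl]
        intro i
        simp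
      linarith
    have h1 : insert v P ∈ Q := by
      rw [hQ, Finset.mem_filter, Finset.mem_powerset]
      refine ⟨Finset.insert_subset hv hPG, ?_⟩
      intro c hc d hd hcd
      rw [Finset.mem_insert] at hc hd
      rcases hc with rfl | hc <;> rcases hd with rfl | hd
      · exact absurd rfl hcd
      · exact hfar d hd
      · rw [hnn]
        exact hfar c hc
      · exact hPs c hc d hd hcd
    have h2 := hmax _ h1
    rw [Finset.card_insert_of_notMem hvP] at h2
    omega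
  have hPc : (P.card : ℝ) ≤ (3 * B / ρ) ^ b := by
    have hmem : ∀ p ∈ P, ic p ∈ V := by
      intro p hp
      have h1 := hPG hp
      rw [hG, Finset.mem_filter] at h1
      exact hΛ p h1.2
    set s : Finset V := P.attach.image fun p => ⟨ic p.1, hmem p.1 p.2⟩ with hs
    have hsc : s.card = P.card := by
      rw [hs, Finset.card_image_of_injective, Finset.card_attach]
      intro p q hpq
      simp only [Subtype.mk.injEq] at hpq
      exact Subtype.ext (ic_inj hpq)
    have h1 := sep_card s B ρ hρ hB0.le (by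
      intro c hc
      rw [hs, Finset.mem_image] at hc
      obtain ⟨p, -, rfl⟩ := hc
      rw [Submodule.coe_norm]
      show ‖ic p.1‖ ≤ _
      have h2 := hPG p.2
      rw [hG, Finset.mem_filter, mem_Bl hB0.le] at h2
      exact h2.1) (by
      intro c hc d hd hcd
      rw [hs, Finset.mem_image] at hc hd
      obtain ⟨p, -, rfl⟩ := hc
      obtain ⟨q, -, rfl⟩ := hd
      rw [Submodule.coe_norm]
      show ρ ≤ ‖ic p.1 - ic q.1‖
      rw [← ic_sub]
      have h3 : p.1 ≠ q.1 := by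
        intro h
        apply hcd
        simp [h]
      exact hPs p.1 p.2 q.1 q.2 h3)
    rw [hsc] at h1
    have hq : (1 : ℝ) ≤ B / ρ := by
      rw [le_div_iff₀ hρ, one_mul]
      exact hB
    calc (P.card : ℝ) ≤ (2 * B / ρ + 1) ^ finrank ℝ V := h1
      _ ≤ (3 * B / ρ) ^ finrank ℝ V := by
          gcongr
          have : (3 * B / ρ : ℝ) = 2 * B / ρ + B / ρ := by ring
          rw [this]
          linarith
      _ ≤ (3 * B / ρ) ^ b := by
          apply pow_le_pow_right₀ _ hV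
          have : (3 * B / ρ : ℝ) = 3 * (B / ρ) := by ring
          rw [this]
          linarith
  calc (G.card : ℝ) ≤ ((P.biUnion fun p => Sm.image fun u => p + u).card : ℝ) := by
        exact_mod_cast Finset.card_le_card hcov
    _ ≤ ((∑ p ∈ P, (Sm.image fun u => p + u).card : ℕ) : ℝ) := by
        exact_mod_cast Finset.card_biUnion_le
    _ ≤ ((∑ p ∈ P, Sm.card : ℕ) : ℝ) := by
        exact_mod_cast Finset.sum_le_sum fun p _ => Finset.card_image_le
    _ = (P.card : ℝ) * Sm.card := by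
        rw [Finset.sum_const, smul_eq_mul]
        push_cast
        ring
    _ ≤ (3 * B / ρ) ^ b * (Sm.card : ℝ) := by
        gcongr

end Pool.Agent.N852.DD
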