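import Mathlib
import Pool.Agent.N852.DD.Def

/-!
Separated sets in the zero set of a submersion.
-/

namespace Pool.Agent.N852.DD

open Matrix Module Filter Topology
open Pool.Agent.H548.BL (sep_card)

variable {E F : Type*} [NormedAddCommGroup E] [NormedSpace ℝ E] [FiniteDimensional ℝ E]
  [NormedAddCommGroup F] [NormedSpace ℝ F] [FiniteDimensional ℝ F]

/-- The packing bound on a set. -/
def PB (f : E → F) (s : Set E) : Prop := ∃ C : ℝ, 0 ≤ C ∧ ∀ (δ : ℝ) (S : Finset E), 0 < δ → δ ≤ 1 →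
  (∀ x ∈ S, x ∈ s ∧ f x = 0) → (∀ x ∈ S, ∀ y ∈ S, x ≠ y → δ ≤ ‖x - y‖) →
  (S.card : ℝ) * δ ^ finrank ℝ E ≤ C * δ ^ finrank ℝ F

theorem pack_local {f : E → F} {f' : E →L[ℝ] F} {p : E} (hf : HasStrictFDerivAt f f' p)
    (hs : Function.Surjective f') : ∃ U ∈ 𝓝 p, PB f U := by
  obtain ⟨N, hN⟩ : ∃ N : Submodule ℝ E, N = LinearMap.ker (f' : E →ₗ[ℝ] F) := ⟨_, rfl⟩
  obtain ⟨π, hπ⟩ := Submodule.ClosedComplemented.of_finiteDimensional N
  set G : E →L[ℝ] F × N := f'.prod π with hG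
  have hker : LinearMap.ker (G : E →ₗ[ℝ] F × N) = ⊥ := by
    rw [LinearMap.ker_eq_bot']
    intro v hv
    have h1 : (f' v, π v) = 0 := hv
    rw [Prod.mk_eq_zero] at h1
    have h2 : v ∈ N := by
      rw [hN]
      exact h1.1
    have h3 := hπ ⟨v, h2⟩
    have h4 : π v = ⟨v, h2⟩ := h3
    rw [h1.2] at h4
    have h5 := congrArg Subtype.val h4
    exact h5.symm
  obtain ⟨K, hK, hanti⟩ := LinearMap.exists_antilipschitzWith _ hker
  have hK0 : (0 : ℝ) < K := hK
  have hanti' : ∀ v : E, ‖v‖ ≤ K * max ‖f' v‖ ‖π v‖ := by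
    intro v
    have h1 := hanti.le_mul_dist v 0
    rw [dist_zero_right, map_zero, dist_zero_right] at h1
    exact h1
  have hc : (0 : NNReal) < (2 * K)⁻¹ := by positivity
  obtain ⟨s, hs1, hs2⟩ := hf.approximates_deriv_on_nhds (c := (2 * K)⁻¹) (Or.inr hc)
  refine ⟨s ∩ Metric.ball p 1, Filter.inter_mem hs1 (Metric.ball_mem_nhds p one_pos), ?_⟩
  have hdim : finrank ℝ F + finrank ℝ N = finrank ℝ E := by
    have h1 := LinearMap.finrank_range_add_finrank_ker (f' : E →ₗ[ℝ] F)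
    rw [LinearMap.range_eq_top.2 hs, finrank_top, ← hN] at h1
    exact h1
  refine ⟨(2 * ‖π‖ * K + 1) ^ finrank ℝ N, by positivity, ?_⟩
  intro δ S hδ hδ1 hS hsep
  have hkey : ∀ x ∈ S, ∀ y ∈ S, x ≠ y → δ / K ≤ ‖π (x - p) - π (y - p)‖ := by
    intro x hx y hy hxy
    have h1 := hs2 x (hS x hx).1.1 y (hS y hy).1.1
    rw [(hS x hx).2, (hS y hy).2, sub_zero, zero_sub, norm_neg] at h1
    have h2 := hanti' (x - y)
    have h3 : π (x - p) - π (y - p) = π (x - y) := by
      rw [← map_sub]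
      congr 1
      abel
    rw [h3, div_le_iff₀ hK0]
    have h4 := hsep x hx y hy hxy
    have h5 : 0 < ‖x - y‖ := by linarith
    push_cast at h1
    rcases le_total ‖f' (x - y)‖ ‖π (x - y)‖ with h6 | h6
    · rw [max_eq_right h6] at h2
      linarith
    · rw [max_eq_left h6] at h2
      have h7 : (K : ℝ) * ((2 * (K : ℝ))⁻¹ * ‖x - y‖) = ‖x - y‖ / 2 := by
        field_simp
      have h8 : (K : ℝ) * ‖f' (x - y)‖ ≤ K * ((2 * (K : ℝ))⁻¹ * ‖x - y‖) := by
        gcongr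
      linarith
  have hbd : ∀ x ∈ S, ‖π (x - p)‖ ≤ ‖π‖ := by
    intro x hx
    have h1 := (hS x hx).1.2
    rw [Metric.mem_ball, dist_eq_norm] at h1
    calc ‖π (x - p)‖ ≤ ‖π‖ * ‖x - p‖ := π.le_opNorm _
      _ ≤ ‖π‖ * 1 := by gcongr
      _ = ‖π‖ := mul_one _
  classical
  set S' : Finset N := S.image fun x => π (x - p) with hS'
  have hcard : S'.card = S.card := by
    apply Finset.card_image_of_injOn
    intro x hx y hy hxy
    by_contra hne
    have h1 := hkey x hx y hy hne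
    simp only at hxy
    rw [hxy, sub_self, norm_zero] at h1
    have : 0 < δ / K := by positivity
    linarith
  have h1 := sep_card S' ‖π‖ (δ / K) (by positivity) (by positivity) (by
    intro c hc
    rw [hS', Finset.mem_image] at hc
    obtain ⟨x, hx, rfl⟩ := hc
    exact hbd x hx) (by
    intro c hc d hd hcd
    rw [hS', Finset.mem_image] at hc hd
    obtain ⟨x, hx, rfl⟩ := hc
    obtain ⟨y, hy, rfl⟩ := hd
    apply hkey x hx y hy
    rintro rfl
    exact hcd rfl)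
  rw [hcard] at h1
  have h2 : 2 * ‖π‖ / (δ / K) + 1 ≤ (2 * ‖π‖ * K + 1) / δ := by
    rw [le_div_iff₀ hδ]
    have : (2 * ‖π‖ / (δ / K) + 1) * δ = 2 * ‖π‖ * K + δ := by
      field_simp
    rw [this]
    linarith
  calc (S.card : ℝ) * δ ^ finrank ℝ E
      ≤ ((2 * ‖π‖ * K + 1) / δ) ^ finrank ℝ N * δ ^ finrank ℝ E := by
        gcongr
        refine h1.trans ?_
        gcongr
    _ = (2 * ‖π‖ * K + 1) ^ finrank ℝ N * δ ^ finrank ℝ F := by
        rw [← hdim, pow_add, div_pow]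
        field_simp

omit [FiniteDimensional ℝ E] [FiniteDimensional ℝ F] in
theorem PB_union {f : E → F} {s t : Set E} (hs : PB f s) (ht : PB f t) : PB f (s ∪ t) := by
  classical
  obtain ⟨C, hC, h1⟩ := hs
  obtain ⟨D, hD, h2⟩ := ht
  refine ⟨C + D, by positivity, ?_⟩
  intro δ S hδ hδ1 hS hsep
  have h3 := h1 δ (S.filter (· ∈ s)) hδ hδ1 (fun x hx => by
    rw [Finset.mem_filter] at hx
    exact ⟨hx.2, (hS x hx.1).2⟩) (fun x hx y hy hxy =>
      hsep x (Finset.mem_filter.1 hx).1 y (Finset.mem_filter.1 hy).1 hxy)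
  have h4 := h2 δ (S.filter (· ∈ t)) hδ hδ1 (fun x hx => by
    rw [Finset.mem_filter] at hx
    exact ⟨hx.2, (hS x hx.1).2⟩) (fun x hx y hy hxy =>
      hsep x (Finset.mem_filter.1 hx).1 y (Finset.mem_filter.1 hy).1 hxy)
  have h5 : (S.card : ℝ) ≤ (S.filter (· ∈ s)).card + (S.filter (· ∈ t)).card := by
    have h6 : S = S.filter (· ∈ s) ∪ S.filter (· ∈ t) := by
      ext x
      rw [Finset.mem_union, Finset.mem_filter, Finset.mem_filter]
      constructor
      · intro hx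
        rcases (hS x hx).1 with h | h
        · exact Or.inl ⟨hx, h⟩
        · exact Or.inr ⟨hx, h⟩
      · rintro (h | h) <;> exact h.1
    have h7 := Finset.card_union_le (S.filter (· ∈ s)) (S.filter (· ∈ t))
    rw [← h6] at h7
    exact_mod_cast h7
  calc (S.card : ℝ) * δ ^ finrank ℝ E
      ≤ ((S.filter (· ∈ s)).card + (S.filter (· ∈ t)).card) * δ ^ finrank ℝ E := by gcongr
    _ = (S.filter (· ∈ s)).card * δ ^ finrank ℝ E + (S.filter (· ∈ t)).card * δ ^ finrank ℝ E := by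
        ring
    _ ≤ C * δ ^ finrank ℝ F + D * δ ^ finrank ℝ F := add_le_add h3 h4
    _ = (C + D) * δ ^ finrank ℝ F := by ring

/-- **Packing in the zero set of a submersion.** -/
theorem pack_compact {f : E → F} (hc : Continuous f) {s : Set E} (hs : IsCompact s)
    (h : ∀ p ∈ s, f p = 0 → ∃ f' : E →L[ℝ] F, HasStrictFDerivAt f f' p ∧ Function.Surjective f') :
    PB f s := by
  refine hs.induction_on ?_ ?_ ?_ ?_
  · refine ⟨0, le_rfl, ?_⟩
    intro δ S hδ hδ1 hS hsep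
    have : S = ∅ := by
      rw [Finset.eq_empty_iff_forall_notMem]
      intro x hx
      exact (hS x hx).1
    rw [this]
    simp
  · rintro s t hst ⟨C, hC, h1⟩
    exact ⟨C, hC, fun δ S hδ hδ1 hS hsep => h1 δ S hδ hδ1 (fun x hx => ⟨hst (hS x hx).1, (hS x hx).2⟩)
      hsep⟩
  · intro s t hs ht
    exact PB_union hs ht
  · intro p hp
    by_cases h0 : f p = 0
    · obtain ⟨f', h1, h2⟩ := h p hp h0
      obtain ⟨U, hU, h3⟩ := pack_local h1 h2
      exact ⟨U, mem_nhdsWithin_of_mem_nhds hU, h3⟩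
    · refine ⟨{x | f x ≠ 0}, mem_nhdsWithin_of_mem_nhds
        ((isOpen_ne_fun hc continuous_const).mem_nhds h0), 0, le_rfl, ?_⟩
      intro δ S hδ hδ1 hS hsep
      have : S = ∅ := by
        rw [Finset.eq_empty_iff_forall_notMem]
        intro x hx
        exact (hS x hx).1 (hS x hx).2
      rw [this]
      simp

end Pool.Agent.N852.DD
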