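import Mathlib
import Pool.Agent.N852.DD.Cov

/-!
Separated sets in subspaces.
-/

namespace Pool.Agent.N852.DD

open Matrix Module Filter Topology

/-- A separated set in a subspace of positive dimension. -/
theorem net {k : ℕ} (R : Submodule ℝ (EuclideanSpace ℝ (Fin k))) (hR : 1 ≤ finrank ℝ R) {μ : ℝ}
    (hμ : 1 ≤ μ) : ∃ G : Finset (EuclideanSpace ℝ (Fin k)), (∀ s ∈ G, s ∈ R ∧ 1 ≤ ‖s‖ ∧ ‖s‖ ≤ 3 * k) ∧
      (∀ s ∈ G, ∀ t ∈ G, s ≠ t → 1 / μ ≤ ‖s - t‖) ∧ μ ^ finrank ℝ R ≤ (G.card : ℝ) := by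
  classical
  have hμ0 : 0 < μ := by linarith
  obtain ⟨j, hj⟩ : ∃ j, j = finrank ℝ R := ⟨_, rfl⟩
  set b := stdOrthonormalBasis ℝ R with hb
  set c : (Fin (finrank ℝ R) → Fin ⌈μ⌉₊) → (Fin (finrank ℝ R)) → ℝ := fun u l => 1 + (u l : ℕ) / μ with hc
  set f : (Fin (finrank ℝ R) → Fin ⌈μ⌉₊) → R := fun u => ∑ l, c u l • b l with hf
  have hrep : ∀ u l, b.repr (f u) l = c u l := by
    intro u l
    simp only [hf]
    rw [b.repr_apply_apply, b.orthonormal.inner_right_fintype]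
  have hlow : ∀ v : R, ∀ l, |b.repr v l| ≤ ‖(v : EuclideanSpace ℝ (Fin k))‖ := by
    intro v l
    have h1 := PiLp.norm_apply_le (b.repr v) l
    rw [b.repr.norm_map] at h1
    exact h1
  have hc1 : ∀ u l, 1 ≤ c u l := by
    intro u l
    simp only [hc]
    have : (0 : ℝ) ≤ (u l : ℕ) / μ := by positivity
    linarith
  have hc2 : ∀ u l, c u l ≤ 3 := by
    intro u l
    simp only [hc]
    have h1 : (((u l : Fin ⌈μ⌉₊) : ℕ) : ℝ) ≤ ⌈μ⌉₊ := by exact_mod_cast (u l).2.le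
    have h2 := Nat.ceil_lt_add_one hμ0.le
    have h3 : (((u l : Fin ⌈μ⌉₊) : ℕ) : ℝ) / μ ≤ 2 := by
      rw [div_le_iff₀ hμ0]
      linarith
    linarith
  have hsep : ∀ u v, u ≠ v → 1 / μ ≤ ‖((f u : EuclideanSpace ℝ (Fin k)) - (f v : EuclideanSpace ℝ (Fin k)))‖ := by
    intro u v huv
    obtain ⟨l, hl⟩ := Function.ne_iff.1 huv
    have h1 := hlow (f u - f v) l
    rw [map_sub] at h1
    rw [PiLp.sub_apply, hrep, hrep] at h1
    refine le_trans ?_ h1
    simp only [hc]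
    have h2 : (1 : ℝ) + ((u l : ℕ) : ℝ) / μ - (1 + ((v l : ℕ) : ℝ) / μ) =
      (((u l : ℕ) : ℝ) - ((v l : ℕ) : ℝ)) / μ := by ring
    rw [h2, abs_div, abs_of_pos hμ0]
    gcongr
    have h3 : ((u l : ℕ) : ℤ) - ((v l : ℕ) : ℤ) ≠ 0 := by
      intro h0
      apply hl
      apply Fin.ext
      omega
    have h4 := Int.one_le_abs h3
    have h5 : ((1 : ℤ) : ℝ) ≤ ((|((u l : ℕ) : ℤ) - ((v l : ℕ) : ℤ)| : ℤ) : ℝ) := by exact_mod_cast h4
    push_cast at h5
    exact h5
  refine ⟨Finset.univ.image fun u => (f u : EuclideanSpace ℝ (Fin k)), ?_, ?_, ?_⟩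
  · intro s hs
    rw [Finset.mem_image] at hs
    obtain ⟨u, -, rfl⟩ := hs
    refine ⟨(f u).2, ?_, ?_⟩
    · have h1 := hlow (f u) ⟨0, hR⟩
      rw [hrep] at h1
      exact (hc1 u _).trans ((le_abs_self _).trans h1)
    · have h1 : ‖f u‖ ≤ ∑ l, ‖c u l • b l‖ := norm_sum_le _ _
      have h2 : ∀ l, ‖c u l • b l‖ ≤ 3 := by
        intro l
        rw [norm_smul, b.orthonormal.1 l, mul_one, Real.norm_of_nonneg (by linarith [hc1 u l])]
        exact hc2 u l
      have h3 : ‖f u‖ ≤ finrank ℝ R * 3 := by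
        refine h1.trans ((Finset.sum_le_sum fun l _ => h2 l).trans ?_)
        rw [Finset.sum_const, Finset.card_univ, Fintype.card_fin, nsmul_eq_mul]
      have h4 : finrank ℝ R ≤ k := by
        have := Submodule.finrank_le R
        rwa [finrank_euclideanSpace_fin] at this
      have h5 : (finrank ℝ R : ℝ) ≤ k := by exact_mod_cast h4
      rw [Submodule.coe_norm] at h3
      linarith
  · intro s hs t ht hst
    rw [Finset.mem_image] at hs ht
    obtain ⟨u, -, rfl⟩ := hs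
    obtain ⟨v, -, rfl⟩ := ht
    apply hsep
    rintro rfl
    exact hst rfl
  · rw [Finset.card_image_of_injective]
    · rw [Finset.card_univ, Fintype.card_fun, Fintype.card_fin, Fintype.card_fin]
      push_cast
      gcongr
      exact Nat.le_ceil μ
    · intro u v huv
      by_contra hne
      have h1 := hsep u v hne
      simp only at huv
      rw [huv, sub_self, norm_zero] at h1
      have : 0 < 1 / μ := by positivity
      linarith

end Pool.Agent.N852.DD
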