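import Mathlib
import Pool.Agent.N852.DD.Net

/-!
The degenerate vectors.
-/

namespace Pool.Agent.N852.DD

open Matrix Module Filter Topology
open Pool.Agent.N852 (ic ic_add ic_sub ic_neg)
open Pool.Agent.H548.BL (lat orth mem_lat mem_orth finrank_orth rc sep_card)

variable {k n m : ℕ} {M : Fin k → Matrix (Fin n) (Fin m) ℤ}

/-- The linear relations. -/
noncomputable def rel (w : Fin k → Fin m → ℝ) : Submodule ℝ (EuclideanSpace ℝ (Fin k)) :=
  LinearMap.ker (∑ i, ((EuclideanSpace.proj i : EuclideanSpace ℝ (Fin k) →L[ℝ] ℝ) :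
    EuclideanSpace ℝ (Fin k) →ₗ[ℝ] ℝ).smulRight (w i))

theorem mem_rel {w : Fin k → Fin m → ℝ} {s : EuclideanSpace ℝ (Fin k)} :
    s ∈ rel w ↔ ∑ i, s i • w i = 0 := by
  unfold rel
  rw [LinearMap.mem_ker, LinearMap.sum_apply]
  rfl

/-- The degeneracy. -/
noncomputable def jj (M : Fin k → Matrix (Fin n) (Fin m) ℤ) (x : Fin n → ℤ) : ℕ :=
  finrank ℝ (rel (rv M (ic x)))

/-- The form. -/
noncomputable def FF (M : Fin k → Matrix (Fin n) (Fin m) ℤ)
    (p : EuclideanSpace ℝ (Fin k) × (Fin n → ℝ)) : Fin m → ℝ := ∑ i, p.1 i • rv M p.2 i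

/-- The linear map `x ↦ rv M x i`. -/
noncomputable def rvL (M : Fin k → Matrix (Fin n) (Fin m) ℤ) (i : Fin k) :
    (Fin n → ℝ) →L[ℝ] (Fin m → ℝ) :=
  LinearMap.toContinuousLinearMap (Matrix.vecMulLinear ((M i).map (Int.cast : ℤ → ℝ)))

theorem rvL_apply (i : Fin k) (x : Fin n → ℝ) : rvL M i x = rv M x i := rfl

/-- The derivative. -/
noncomputable def FD (M : Fin k → Matrix (Fin n) (Fin m) ℤ)
    (p : EuclideanSpace ℝ (Fin k) × (Fin n → ℝ)) :
    EuclideanSpace ℝ (Fin k) × (Fin n → ℝ) →L[ℝ] (Fin m → ℝ) :=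
  ∑ i, (p.1 i • ((rvL M i).comp (ContinuousLinearMap.snd ℝ _ _)) +
    ((EuclideanSpace.proj i).comp (ContinuousLinearMap.fst ℝ _ _)).smulRight (rv M p.2 i))

theorem FD_apply (p v : EuclideanSpace ℝ (Fin k) × (Fin n → ℝ)) :
    FD M p v = ∑ i, (p.1 i • rv M v.2 i + v.1 i • rv M p.2 i) := by
  unfold FD
  rw [_root_.sum_apply]
  rfl

theorem FF_deriv (p : EuclideanSpace ℝ (Fin k) × (Fin n → ℝ)) :
    HasStrictFDerivAt (FF M) (FD M p) p := by
  unfold FF FD
  apply HasStrictFDerivAt.fun_sum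
  intro i _
  have h1 : HasStrictFDerivAt (fun q : EuclideanSpace ℝ (Fin k) × (Fin n → ℝ) => q.1 i)
      ((EuclideanSpace.proj i).comp (ContinuousLinearMap.fst ℝ _ _)) p :=
    ContinuousLinearMap.hasStrictFDerivAt ((EuclideanSpace.proj i :
      EuclideanSpace ℝ (Fin k) →L[ℝ] ℝ).comp
      (ContinuousLinearMap.fst ℝ (EuclideanSpace ℝ (Fin k)) (Fin n → ℝ)))
  have h2 : HasStrictFDerivAt (fun q : EuclideanSpace ℝ (Fin k) × (Fin n → ℝ) => rv M q.2 i)
      ((rvL M i).comp (ContinuousLinearMap.snd ℝ _ _)) p :=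
    ContinuousLinearMap.hasStrictFDerivAt ((rvL M i).comp
      (ContinuousLinearMap.snd ℝ (EuclideanSpace ℝ (Fin k)) (Fin n → ℝ)))
  exact h1.fun_smul h2

theorem FF_cont : Continuous (FF M) :=
  continuous_iff_continuousAt.2 fun p => (FF_deriv p).continuousAt

/-! ### Extension of scalars -/

theorem rv_cast (x : Fin n → ℝ) (i : Fin k) :
    rv M (fun l => (x l : ℂ)) i = fun l => ((rv M x i l : ℝ) : ℂ) := by
  funext l
  unfold rv vecMul dotProduct
  push_cast
  refine Finset.sum_congr rfl fun l _ => ?_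
  simp

theorem cv_cast (y : Fin m → ℝ) (i : Fin k) :
    cv M (fun l => (y l : ℂ)) i = fun l => ((cv M y i l : ℝ) : ℂ) := by
  have := rv_cast (M := tr M) y i
  rw [rv_tr, rv_tr] at this
  exact this

theorem rv_dot (x : Fin n → ℝ) (y : Fin m → ℝ) (i : Fin k) :
    rv M x i ⬝ᵥ y = x ⬝ᵥ cv M y i := by
  unfold rv cv
  rw [dotProduct_mulVec]

theorem cast_ne {x : Fin n → ℝ} (h : x ≠ 0) : (fun l => (x l : ℂ)) ≠ 0 := by
  intro h0
  apply h
  funext l
  have := congrFun h0 l
  simpa using this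

theorem FD_surj (hM : Smooth M) {p : EuclideanSpace ℝ (Fin k) × (Fin n → ℝ)} (hs : p.1 ≠ 0)
    (hx : p.2 ≠ 0) (h0 : FF M p = 0) : Function.Surjective (FD M p) := by
  by_contra hcon
  have h1 : LinearMap.range (FD M p : EuclideanSpace ℝ (Fin k) × (Fin n → ℝ) →ₗ[ℝ] (Fin m → ℝ)) < ⊤ := by
    rw [lt_top_iff_ne_top]
    intro h
    exact hcon (LinearMap.range_eq_top.1 h)
  obtain ⟨f, hf0, hf⟩ := Submodule.exists_le_ker_of_lt_top _ h1
  set w : Fin m → ℝ := fun l => f (Pi.single l 1) with hw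
  have hfw : ∀ y : Fin m → ℝ, f y = y ⬝ᵥ w := by
    intro y
    conv_lhs => rw [LinearMap.pi_apply_eq_sum_univ f y]
    unfold dotProduct
    refine Finset.sum_congr rfl fun l _ => ?_
    rw [smul_eq_mul]
    congr 2
    funext l'
    by_cases h : l = l'
    · subst h
      simp
    · rw [Pi.single_eq_of_ne (Ne.symm h)]
      simp [h]
  have hw0 : w ≠ 0 := by
    intro h
    apply hf0
    refine LinearMap.ext fun y => ?_
    rw [hfw, h, dotProduct_zero]
    rfl
  have hker : ∀ v, FD M p v ⬝ᵥ w = 0 := by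
    intro v
    rw [← hfw]
    have h2 : FD M p v ∈ LinearMap.ker f := hf ⟨v, rfl⟩
    exact h2
  -- the equations
  have hinc : ∀ i, rv M p.2 i ⬝ᵥ w = 0 := by
    intro i
    have h2 := hker (EuclideanSpace.single i 1, 0)
    rw [FD_apply] at h2
    have h3 : ∑ j, (p.1 j • rv M (0 : Fin n → ℝ) j +
        (EuclideanSpace.single i (1 : ℝ)) j • rv M p.2 j) = rv M p.2 i := by
      rw [Finset.sum_eq_single i]
      · unfold rv
        rw [zero_vecMul, smul_zero, zero_add]
        simp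
      · intro j _ hj
        unfold rv
        rw [zero_vecMul, smul_zero, zero_add]
        simp [hj]
      · intro h
        exact absurd (Finset.mem_univ i) h
    rw [h3] at h2
    exact h2
  have hcv : ∑ i, p.1 i • cv M w i = 0 := by
    have h2 : ∀ x : Fin n → ℝ, x ⬝ᵥ ∑ i, p.1 i • cv M w i = 0 := by
      intro x
      have h3 := hker (0, x)
      rw [FD_apply] at h3
      simp only [PiLp.zero_apply, zero_smul, add_zero] at h3
      rw [dotProduct_sum]
      rw [sum_dotProduct] at h3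
      rw [← h3]
      refine Finset.sum_congr rfl fun i _ => ?_
      rw [dotProduct_smul, smul_dotProduct, rv_dot]
    funext l
    have h3 := h2 (Pi.single l 1)
    rw [single_dotProduct, one_mul] at h3
    exact h3
  have hM1 := hM (fun l => (p.2 l : ℂ)) (fun l => (w l : ℂ)) (cast_ne hx) (cast_ne hw0) (by
    rw [inc_iff_rv]
    intro i
    rw [rv_cast]
    have h2 := congrArg (Complex.ofReal) (hinc i)
    unfold dotProduct at h2 ⊢
    push_cast at h2
    exact h2)
  rw [Fintype.linearIndependent_iff] at hM1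
  apply hs
  have h2 := hM1 (fun i => (p.1 i : ℂ)) (by
    have h3 : ∑ i, p.1 i • rv M p.2 i = 0 := h0
    apply Prod.ext
    · rw [Prod.fst_sum]
      funext l
      have h4 := congrArg Complex.ofReal (congrFun hcv l)
      rw [Finset.sum_apply] at h4 ⊢
      simp only [Pi.smul_apply, smul_eq_mul, Pi.zero_apply] at h4
      push_cast at h4
      rw [Prod.fst_zero, Pi.zero_apply, ← h4]
      refine Finset.sum_congr rfl fun i _ => ?_
      rw [Prod.smul_fst, Pi.smul_apply, smul_eq_mul, cv_cast]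
    · rw [Prod.snd_sum]
      funext l
      have h4 := congrArg Complex.ofReal (congrFun h3 l)
      rw [Finset.sum_apply] at h4 ⊢
      simp only [Pi.smul_apply, smul_eq_mul, Pi.zero_apply] at h4
      push_cast at h4
      rw [Prod.snd_zero, Pi.zero_apply, ← h4]
      refine Finset.sum_congr rfl fun i _ => ?_
      rw [Prod.smul_snd, Pi.smul_apply, smul_eq_mul, rv_cast])
  ext i
  have h3 := h2 i
  simp only [Complex.ofReal_eq_zero] at h3
  exact h3

end Pool.Agent.N852.DD
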