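import Mathlib
import Pool.Agent.N852.DD.Deg

/-!
Counting the degenerate vectors.
-/

namespace Pool.Agent.N852.DD

open Matrix Module Filter Topology
open Pool.Agent.N852 (ic ic_add ic_sub ic_neg)
open Pool.Agent.H548.BL (lat orth mem_lat mem_orth finrank_orth rc sep_card)

variable {k n m : ℕ} {M : Fin k → Matrix (Fin n) (Fin m) ℤ}

theorem rv_smul {R : Type*} [CommRing R] (c : R) (x : Fin n → R) (i : Fin k) :
    rv M (c • x) i = c • rv M x i := by
  unfold rv
  rw [smul_vecMul]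

theorem ic_smul (t : ℤ) (x : Fin n → ℤ) : ic (t • x) = (t : ℝ) • ic x := by
  funext i
  simp [ic]

/-- **Shells.** -/
theorem deg_shell (hM : Smooth M) : ∃ C : ℝ, 0 ≤ C ∧ ∀ (μ : ℝ) (S : Finset (Fin n → ℤ)), 1 ≤ μ →
    (∀ x ∈ S, μ / 2 ≤ ‖ic x‖ ∧ ‖ic x‖ ≤ μ ∧ 1 ≤ jj M x) →
    ∑ x ∈ S, μ ^ (jj M x + m) ≤ C * μ ^ (k + n) := by
  classical
  set s : Set (EuclideanSpace ℝ (Fin k) × (Fin n → ℝ)) :=
    {p | 1 ≤ ‖p.1‖ ∧ ‖p.1‖ ≤ 3 * k ∧ 1 / 2 ≤ ‖p.2‖ ∧ ‖p.2‖ ≤ 1} with hs
  have hcomp : IsCompact s := by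
    apply Metric.isCompact_of_isClosed_isBounded
    · exact (isClosed_le continuous_const continuous_fst.norm).inter
        ((isClosed_le continuous_fst.norm continuous_const).inter
        ((isClosed_le continuous_const continuous_snd.norm).inter
        (isClosed_le continuous_snd.norm continuous_const)))
    · apply (Metric.isBounded_closedBall (x := (0 : EuclideanSpace ℝ (Fin k) × (Fin n → ℝ)))
        (r := 3 * k + 1)).subset
      rintro ⟨a, b⟩ ⟨h1, h2, h3, h4⟩
      rw [Metric.mem_closedBall, dist_zero_right, Prod.norm_def]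
      simp only at h1 h2 h3 h4 ⊢
      have : (0 : ℝ) ≤ k := Nat.cast_nonneg _
      exact max_le (by linarith) (by linarith)
  obtain ⟨C, hC, hpack⟩ := pack_compact (FF_cont (M := M)) hcomp (by
    rintro p ⟨h1, h2, h3, h4⟩ h0
    refine ⟨FD M p, FF_deriv p, FD_surj hM ?_ ?_ h0⟩
    · intro h
      rw [h, norm_zero] at h1
      linarith
    · intro h
      rw [h, norm_zero] at h3
      linarith)
  refine ⟨C, hC, ?_⟩
  intro μ S hμ hS
  have hμ0 : 0 < μ := by linarith
  have hnet : ∀ x : Fin n → ℤ, ∃ G : Finset (EuclideanSpace ℝ (Fin k)), 1 ≤ jj M x →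
      (∀ s ∈ G, s ∈ rel (rv M (ic x)) ∧ 1 ≤ ‖s‖ ∧ ‖s‖ ≤ 3 * k) ∧
      (∀ s ∈ G, ∀ t ∈ G, s ≠ t → 1 / μ ≤ ‖s - t‖) ∧ μ ^ jj M x ≤ (G.card : ℝ) := by
    intro x
    by_cases hx : 1 ≤ jj M x
    · obtain ⟨G, hG⟩ := net (rel (rv M (ic x))) hx hμ
      exact ⟨G, fun _ => hG⟩
    · exact ⟨∅, fun h => absurd h hx⟩
  choose G hG using hnet
  set f : (Σ _ : Fin n → ℤ, EuclideanSpace ℝ (Fin k)) → EuclideanSpace ℝ (Fin k) × (Fin n → ℝ) :=
    fun p => (p.2, μ⁻¹ • ic p.1) with hf
  set T := (S.sigma G).image f with hT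
  have hinj : Function.Injective f := by
    rintro ⟨x, s⟩ ⟨x', s'⟩ h
    simp only [hf, Prod.mk.injEq] at h
    obtain ⟨rfl, h⟩ := h
    have h1 := smul_right_injective _ (inv_pos.2 hμ0).ne' h
    rw [ic_inj h1]
  have hTc : (T.card : ℝ) = ∑ x ∈ S, ((G x).card : ℝ) := by
    rw [hT, Finset.card_image_of_injective _ hinj, Finset.card_sigma]
    push_cast
    rfl
  have hsep : ∀ p ∈ T, ∀ q ∈ T, p ≠ q → 1 / μ ≤ ‖p - q‖ := by
    intro p hp q hq hpq
    rw [hT, Finset.mem_image] at hp hq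
    obtain ⟨⟨x, s⟩, hxs, rfl⟩ := hp
    obtain ⟨⟨x', s'⟩, hxs', rfl⟩ := hq
    rw [Finset.mem_sigma] at hxs hxs'
    simp only at hxs hxs'
    rw [Prod.norm_def]
    by_cases hxx : x = x'
    · subst hxx
      have hss : s ≠ s' := by
        rintro rfl
        exact hpq rfl
      exact ((hG x (hS x hxs.1).2.2).2.1 s hxs.2 s' hxs'.2 hss).trans (le_max_left _ _)
    · refine le_trans ?_ (le_max_right _ _)
      simp only [hf, Prod.mk_sub_mk]
      rw [← smul_sub, ← ic_sub, norm_smul, norm_inv, Real.norm_of_nonneg hμ0.le, one_div]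
      have := norm_ic_ge (sub_ne_zero.2 hxx)
      exact le_mul_of_one_le_right (by positivity) this
  have hmem : ∀ p ∈ T, p ∈ s ∧ FF M p = 0 := by
    intro p hp
    rw [hT, Finset.mem_image] at hp
    obtain ⟨⟨x, t⟩, hxt, rfl⟩ := hp
    rw [Finset.mem_sigma] at hxt
    simp only at hxt
    obtain ⟨h1, h2, h3⟩ := hS x hxt.1
    obtain ⟨h4, h5, h6⟩ := (hG x h3).1 t hxt.2
    refine ⟨⟨h5, h6, ?_, ?_⟩, ?_⟩
    · simp only [hf]
      rw [norm_smul, norm_inv, Real.norm_of_nonneg hμ0.le, ← div_eq_inv_mul, le_div_iff₀ hμ0]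
      linarith
    · simp only [hf]
      rw [norm_smul, norm_inv, Real.norm_of_nonneg hμ0.le, ← div_eq_inv_mul, div_le_one hμ0]
      exact h2
    · unfold FF
      simp only [hf, rv_smul]
      rw [mem_rel] at h4
      have h7 : ∑ i, t i • μ⁻¹ • rv M (ic x) i = μ⁻¹ • ∑ i, t i • rv M (ic x) i := by
        rw [Finset.smul_sum]
        exact Finset.sum_congr rfl fun i _ => smul_comm _ _ _
      rw [h7, h4, smul_zero]
  have h1 := hpack (1 / μ) T (by positivity) (by
    rw [div_le_one hμ0]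
    exact hμ) hmem hsep
  rw [Module.finrank_prod, finrank_euclideanSpace_fin, Module.finrank_fin_fun,
    Module.finrank_fin_fun, one_div, inv_pow, inv_pow, hTc, ← div_eq_mul_inv, ← div_eq_mul_inv,
    div_le_div_iff₀ (by positivity) (by positivity)] at h1
  calc ∑ x ∈ S, μ ^ (jj M x + m) = (∑ x ∈ S, μ ^ jj M x) * μ ^ m := by
        rw [Finset.sum_mul]
        exact Finset.sum_congr rfl fun x _ => pow_add _ _ _
    _ ≤ (∑ x ∈ S, ((G x).card : ℝ)) * μ ^ m := by
        gcongr with x hx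
        exact (hG x (hS x hx).2.2).2.2
    _ ≤ C * μ ^ (k + n) := h1

theorem jj_smul {t : ℤ} (ht : t ≠ 0) (x : Fin n → ℤ) : jj M (t • x) = jj M x := by
  have htR : (t : ℝ) ≠ 0 := by exact_mod_cast ht
  unfold jj
  have h1 : rel (rv M (ic (t • x))) = rel (rv M (ic x)) := by
    ext s
    rw [mem_rel, mem_rel, ic_smul]
    simp only [rv_smul]
    have h7 : ∑ i, s i • (t : ℝ) • rv M (ic x) i = (t : ℝ) • ∑ i, s i • rv M (ic x) i := by
      rw [Finset.smul_sum]
      exact Finset.sum_congr rfl fun i _ => smul_comm _ _ _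
    rw [h7, smul_eq_zero]
    exact ⟨fun h => h.resolve_left htR, Or.inr⟩
  rw [h1]

theorem jj_lt (hM : Smooth M) {x : Fin n → ℤ} (hx : x ≠ 0) (hj : 1 ≤ jj M x) :
    jj M x + m + 1 ≤ k + n := by
  classical
  obtain ⟨C, hC, hsh⟩ := deg_shell hM
  by_contra hcon
  have hle : k + n ≤ jj M x + m := by omega
  obtain ⟨N, hN⟩ := exists_nat_gt C
  have hN0 : (0 : ℝ) < N := by linarith
  have hN1 : 1 ≤ N := by
    by_contra h
    have : N = 0 := by omega
    rw [this] at hN0
    simp at hN0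
  have hx1 := norm_ic_ge hx
  set μ : ℝ := 2 * N * ‖ic x‖ with hμ
  have hN1' : (1 : ℝ) ≤ N := by exact_mod_cast hN1
  have hμ1 : 1 ≤ μ := by
    rw [hμ]
    nlinarith
  set S : Finset (Fin n → ℤ) := (Finset.Icc (N : ℤ) (2 * N - 1)).image fun t => t • x with hS
  have hinj : Function.Injective fun t : ℤ => t • x := smul_left_injective ℤ hx
  have hcard : S.card = N := by
    rw [hS, Finset.card_image_of_injective _ hinj, Int.card_Icc]
    omega
  have h1 := hsh μ S hμ1 (by
    intro y hy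
    rw [hS, Finset.mem_image] at hy
    obtain ⟨t, ht, rfl⟩ := hy
    rw [Finset.mem_Icc] at ht
    have ht0 : t ≠ 0 := by omega
    have e1 : (N : ℝ) ≤ t := by exact_mod_cast ht.1
    have e2 : (t : ℝ) ≤ 2 * N := by
      have : t ≤ 2 * N := by omega
      exact_mod_cast this
    rw [jj_smul ht0, ic_smul, norm_smul, Real.norm_of_nonneg (by linarith)]
    refine ⟨?_, ?_, hj⟩
    · rw [hμ]
      nlinarith
    · rw [hμ]
      nlinarith)
  have h2 : ∀ y ∈ S, μ ^ (k + n) ≤ μ ^ (jj M y + m) := by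
    intro y hy
    rw [hS, Finset.mem_image] at hy
    obtain ⟨t, ht, rfl⟩ := hy
    rw [Finset.mem_Icc] at ht
    have ht0 : t ≠ 0 := by omega
    rw [jj_smul ht0]
    exact pow_le_pow_right₀ hμ1 hle
  have h3 := (Finset.sum_le_sum h2).trans h1
  rw [Finset.sum_const, hcard, nsmul_eq_mul] at h3
  have h4 : (N : ℝ) ≤ C := le_of_mul_le_mul_right h3 (by positivity)
  linarith

open Classical in
/-- The degenerate vectors. -/
noncomputable def D0 (M : Fin k → Matrix (Fin n) (Fin m) ℤ) (K : ℝ) : Finset (Fin n → ℤ) :=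
  (Bl n K).filter fun x => x ≠ 0 ∧ 1 ≤ jj M x

theorem mem_D0 {K : ℝ} (hK : 0 ≤ K) {x : Fin n → ℤ} :
    x ∈ D0 M K ↔ ‖ic x‖ ≤ K ∧ x ≠ 0 ∧ 1 ≤ jj M x := by
  unfold D0
  rw [Finset.mem_filter, mem_Bl hK]

/-- **All degenerate vectors.** -/
theorem deg_all (hM : Smooth M) : ∃ C : ℝ, 0 ≤ C ∧ ∀ K : ℝ, 0 ≤ K →
    ∑ x ∈ D0 M K, K ^ (jj M x + m) ≤ C * K ^ (k + n) := by
  classical
  obtain ⟨C, hC, hsh⟩ := deg_shell hM
  refine ⟨2 * C, by positivity, ?_⟩
  have hind : ∀ (N : ℕ) (K : ℝ), 0 ≤ K → K < 2 ^ N →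
      ∑ x ∈ D0 M K, K ^ (jj M x + m) ≤ 2 * C * K ^ (k + n) := by
    intro N
    induction N with
    | zero =>
      intro K hK hK1
      rw [pow_zero] at hK1
      have : D0 M K = ∅ := by
        rw [Finset.eq_empty_iff_forall_notMem]
        intro x hx
        rw [mem_D0 hK] at hx
        have := norm_ic_ge hx.2.1
        linarith
      rw [this, Finset.sum_empty]
      positivity
    | succ N ih =>
      intro K hK hKN
      rcases lt_or_ge K 1 with hK1 | hK1
      · have : D0 M K = ∅ := by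
          rw [Finset.eq_empty_iff_forall_notMem]
          intro x hx
          rw [mem_D0 hK] at hx
          have := norm_ic_ge hx.2.1
          linarith
        rw [this, Finset.sum_empty]
        positivity
      have hK0 : 0 < K := by linarith
      have hK2 : 0 ≤ K / 2 := by positivity
      have h1 := ih (K / 2) hK2 (by
        rw [pow_succ] at hKN
        linarith)
      have h2 : D0 M K = (D0 M K).filter (fun x => K / 2 < ‖ic x‖) ∪ D0 M (K / 2) := by
        ext x
        rw [Finset.mem_union, Finset.mem_filter, mem_D0 hK, mem_D0 hK2]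
        constructor
        · rintro ⟨h3, h4, h5⟩
          rcases lt_or_ge (K / 2) ‖ic x‖ with h6 | h6
          · exact Or.inl ⟨⟨h3, h4, h5⟩, h6⟩
          · exact Or.inr ⟨h6, h4, h5⟩
        · rintro (⟨h, -⟩ | ⟨h3, h4, h5⟩)
          · exact h
          · exact ⟨by linarith, h4, h5⟩
      have hdis : Disjoint ((D0 M K).filter (fun x => K / 2 < ‖ic x‖)) (D0 M (K / 2)) := by
        rw [Finset.disjoint_left]
        intro x hx hx'
        rw [Finset.mem_filter] at hx
        rw [mem_D0 hK2] at hx'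
        linarith [hx.2, hx'.1]
      rw [h2, Finset.sum_union hdis]
      have h3 := hsh K ((D0 M K).filter (fun x => K / 2 < ‖ic x‖)) hK1 (by
        intro x hx
        rw [Finset.mem_filter, mem_D0 hK] at hx
        exact ⟨hx.2.le, hx.1.1, hx.1.2.2⟩)
      have h4 : ∑ x ∈ D0 M (K / 2), K ^ (jj M x + m) ≤ C * K ^ (k + n) := by
        have h5 : ∀ x ∈ D0 M (K / 2), 2 * K ^ (jj M x + m) ≤ 2 ^ (k + n) * (K / 2) ^ (jj M x + m) := by
          intro x hx
          rw [mem_D0 hK2] at hx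
          have h6 := jj_lt hM hx.2.1 hx.2.2
          have h7 : (2 : ℝ) * 2 ^ (jj M x + m) ≤ 2 ^ (k + n) := by
            rw [← pow_succ']
            exact pow_le_pow_right₀ (by norm_num) h6
          have h8 : K ^ (jj M x + m) = 2 ^ (jj M x + m) * (K / 2) ^ (jj M x + m) := by
            rw [← mul_pow]
            congr 1
            ring
          rw [h8, ← mul_assoc]
          gcongr
        have h6 : 2 * ∑ x ∈ D0 M (K / 2), K ^ (jj M x + m) ≤
            2 ^ (k + n) * ∑ x ∈ D0 M (K / 2), (K / 2) ^ (jj M x + m) := by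
          rw [Finset.mul_sum, Finset.mul_sum]
          exact Finset.sum_le_sum h5
        have h7 : (2 : ℝ) ^ (k + n) * (K / 2) ^ (k + n) = K ^ (k + n) := by
          rw [← mul_pow]
          congr 1
          ring
        have h8 : 2 * ∑ x ∈ D0 M (K / 2), K ^ (jj M x + m) ≤ 2 * (C * K ^ (k + n)) := by
          calc 2 * ∑ x ∈ D0 M (K / 2), K ^ (jj M x + m)
              ≤ 2 ^ (k + n) * ∑ x ∈ D0 M (K / 2), (K / 2) ^ (jj M x + m) := h6
            _ ≤ 2 ^ (k + n) * (2 * C * (K / 2) ^ (k + n)) := by gcongr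
            _ = 2 * (C * (2 ^ (k + n) * (K / 2) ^ (k + n))) := by ring
            _ = _ := by rw [h7]
        linarith
      linarith
  intro K hK
  obtain ⟨N, hN⟩ := pow_unbounded_of_one_lt K (by norm_num : (1 : ℝ) < 2)
  exact hind N K hK hN

/-! ### Fibres -/

theorem rv_ic (x : Fin n → ℤ) (i : Fin k) : rv M (ic x) i = ic (rv M x i) := by
  funext l
  unfold rv ic vecMul dotProduct
  push_cast
  refine Finset.sum_congr rfl fun l _ => ?_
  simp

theorem finrank_orth_jj (x : Fin n → ℤ) : finrank ℝ (orth (rv M x)) + k = m + jj M x := by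
  set A : Matrix (Fin k) (Fin m) ℝ := Matrix.of fun i => rc (rv M x i) with hA
  have h1 : finrank ℝ (LinearMap.range (Matrix.mulVecLin A)) +
      finrank ℝ (LinearMap.ker (Matrix.mulVecLin A)) = m := by
    have h := LinearMap.finrank_range_add_finrank_ker (Matrix.mulVecLin A)
    rwa [finrank_fintype_fun_eq_card, Fintype.card_fin] at h
  have h2 : finrank ℝ (LinearMap.range (Matrix.mulVecLin Aᵀ)) +
      finrank ℝ (LinearMap.ker (Matrix.mulVecLin Aᵀ)) = k := by
    have h := LinearMap.finrank_range_add_finrank_ker (Matrix.mulVecLin Aᵀ)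
    rwa [finrank_fintype_fun_eq_card, Fintype.card_fin] at h
  have h3 : finrank ℝ (LinearMap.range (Matrix.mulVecLin Aᵀ)) =
      finrank ℝ (LinearMap.range (Matrix.mulVecLin A)) := Matrix.rank_transpose A
  have h4 : finrank ℝ (LinearMap.ker (Matrix.mulVecLin Aᵀ)) = jj M x := by
    unfold jj
    have e : (rel (rv M (ic x))).map
        ((WithLp.linearEquiv 2 ℝ (Fin k → ℝ) : EuclideanSpace ℝ (Fin k) ≃ₗ[ℝ] (Fin k → ℝ)) :
          EuclideanSpace ℝ (Fin k) →ₗ[ℝ] (Fin k → ℝ)) = LinearMap.ker (Matrix.mulVecLin Aᵀ) := by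
      have key : ∀ s : Fin k → ℝ, Aᵀ *ᵥ s = ∑ i, s i • rv M (ic x) i := by
        intro s
        funext l
        rw [Finset.sum_apply]
        simp only [rv_ic]
        unfold mulVec dotProduct
        refine Finset.sum_congr rfl fun i _ => ?_
        change A i l * s i = s i * ic (rv M x i) l
        rw [mul_comm]
        rfl
      ext s
      rw [Submodule.mem_map, LinearMap.mem_ker, Matrix.mulVecLin_apply, key]
      constructor
      · rintro ⟨t, ht, rfl⟩
        rw [mem_rel] at ht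
        exact ht
      · intro h
        refine ⟨(WithLp.linearEquiv 2 ℝ (Fin k → ℝ)).symm s, ?_, by simp⟩
        rw [mem_rel]
        exact h
    rw [← e]
    exact LinearEquiv.finrank_map_eq _ _
  have h5 : finrank ℝ (orth (rv M x)) = finrank ℝ (LinearMap.ker (Matrix.mulVecLin A)) := rfl
  omega

open Classical in
/-- **The number of points in a fibre.** -/
theorem fib_card (x : Fin n → ℤ) {b : ℕ} (hb : b + k = m + jj M x) {L : ℝ} (hL : 1 ≤ L) :
    (((Bl m L).filter fun y => Inc M x y).card : ℝ) ≤ (6 * L) ^ b := by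
  have h1 : (Bl m L).filter (fun y => Inc M x y) = (Bl m L).filter (· ∈ lat (rv M x)) := by
    apply Finset.filter_congr
    intro y _
    rw [inc_iff_rv, mem_lat]
  have hV : finrank ℝ (orth (rv M x)) ≤ b := by
    have := finrank_orth_jj (M := M) x
    omega
  rw [h1]
  have h2 := dbl (b := b) (lat (rv M x)) (orth (rv M x)) hV (by
    intro v hv
    rw [mem_lat] at hv
    rw [mem_orth]
    intro i
    have := Pool.Agent.H548.BL.rc_dot (rv M x i) v
    rw [hv i, Int.cast_zero] at this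
    exact this) (B := L) (ρ := 1 / 2) (by norm_num) (by linarith)
  have h3 : ((Bl m (1 / 2)).filter (· ∈ lat (rv M x))).card ≤ 1 := by
    apply Finset.card_le_one.2
    intro a ha c hc
    rw [Finset.mem_filter, mem_Bl (by norm_num)] at ha hc
    have e : ∀ v : Fin m → ℤ, ‖ic v‖ ≤ 1 / 2 → v = 0 := by
      intro v hv
      by_contra h
      have := norm_ic_ge h
      linarith
    rw [e a ha.1, e c hc.1]
  calc (((Bl m L).filter (· ∈ lat (rv M x))).card : ℝ)
      ≤ (3 * L / (1 / 2)) ^ b * (((Bl m (1 / 2)).filter (· ∈ lat (rv M x))).card : ℝ) := h2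
    _ ≤ (3 * L / (1 / 2)) ^ b * 1 := by
        gcongr
        exact_mod_cast h3
    _ = (6 * L) ^ b := by
        rw [mul_one]
        congr 1
        ring

/-- The number of solutions `y` for a degenerate `x`. -/
theorem deg_pairs (hM : Smooth M) (hkm : k ≤ m) : ∃ C : ℝ, 0 ≤ C ∧ ∀ (K L : ℝ)
    (S : Finset ((Fin n → ℤ) × (Fin m → ℤ))), 1 ≤ K → 1 ≤ L →
    (∀ p ∈ S, ‖ic p.1‖ ≤ K ∧ ‖ic p.2‖ ≤ L ∧ p.1 ≠ 0 ∧ 1 ≤ jj M p.1 ∧ Inc M p.1 p.2) →
    (S.card : ℝ) * K ^ m ≤ C * L ^ (m - k) * K ^ (k + n) * (max 1 (L / K)) ^ k := by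
  classical
  obtain ⟨C, hC, hall⟩ := deg_all hM
  refine ⟨6 ^ (m + k) * C, by positivity, ?_⟩
  intro K L S hK hL hS
  have hK0 : 0 < K := by linarith
  have hL0 : 0 < L := by linarith
  have hmaps : ∀ p ∈ S, p.1 ∈ D0 M K := by
    intro p hp
    rw [mem_D0 hK0.le]
    exact ⟨(hS p hp).1, (hS p hp).2.2.1, (hS p hp).2.2.2.1⟩
  rw [Finset.card_eq_sum_card_fiberwise hmaps]
  push_cast
  rw [Finset.sum_mul]
  set r := max 1 (L / K) with hr
  have hr1 : 1 ≤ r := le_max_left _ _
  have hLr : L ≤ K * r := by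
    have : L / K ≤ r := le_max_right _ _
    rw [div_le_iff₀ hK0] at this
    linarith
  have hone : ∀ x ∈ D0 M K, (((S.filter fun p => p.1 = x).card : ℕ) : ℝ) * K ^ m ≤
      6 ^ (m + k) * L ^ (m - k) * r ^ k * K ^ (jj M x + m) := by
    intro x hx
    rw [mem_D0 hK0.le] at hx
    have h1 : (S.filter fun p => p.1 = x).card ≤ ((Bl m L).filter fun y => Inc M x y).card := by
      apply Finset.card_le_card_of_injOn Prod.snd
      · intro p hp
        rw [Finset.mem_coe, Finset.mem_filter] at hp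
        rw [Finset.mem_coe, Finset.mem_filter, mem_Bl hL0.le]
        have h2 := hS p hp.1
        refine ⟨h2.2.1, ?_⟩
        rw [← hp.2]
        exact h2.2.2.2.2
      · intro p hp q hq h
        rw [Finset.mem_coe, Finset.mem_filter] at hp hq
        exact Prod.ext (hp.2.trans hq.2.symm) h
    have hjk : jj M x ≤ k := by
      unfold jj
      have := Submodule.finrank_le (rel (rv M (ic x)))
      rwa [finrank_euclideanSpace_fin] at this
    have h2 := fib_card (M := M) x (b := m - k + jj M x) (by omega) hL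
    have h3 : (((S.filter fun p => p.1 = x).card : ℕ) : ℝ) ≤ (6 * L) ^ (m - k + jj M x) :=
      le_trans (by exact_mod_cast h1) h2
    calc (((S.filter fun p => p.1 = x).card : ℕ) : ℝ) * K ^ m
        ≤ (6 * L) ^ (m - k + jj M x) * K ^ m := by gcongr
      _ = 6 ^ (m - k + jj M x) * L ^ (m - k) * L ^ jj M x * K ^ m := by
          rw [mul_pow, pow_add L]
          ring
      _ ≤ 6 ^ (m + k) * L ^ (m - k) * (K * r) ^ jj M x * K ^ m := by
          gcongr
          · norm_num
          omega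
      _ = 6 ^ (m + k) * L ^ (m - k) * r ^ jj M x * K ^ (jj M x + m) := by
          rw [mul_pow, pow_add K]
          ring
      _ ≤ 6 ^ (m + k) * L ^ (m - k) * r ^ k * K ^ (jj M x + m) := by
          gcongr
  calc ∑ x ∈ D0 M K, (((S.filter fun p => p.1 = x).card : ℕ) : ℝ) * K ^ m
      ≤ ∑ x ∈ D0 M K, 6 ^ (m + k) * L ^ (m - k) * r ^ k * K ^ (jj M x + m) :=
        Finset.sum_le_sum hone
    _ = 6 ^ (m + k) * L ^ (m - k) * r ^ k * ∑ x ∈ D0 M K, K ^ (jj M x + m) := by
        rw [Finset.mul_sum]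
    _ ≤ 6 ^ (m + k) * L ^ (m - k) * r ^ k * (C * K ^ (k + n)) := by
        gcongr
        exact hall K hK0.le
    _ = _ := by ring

end Pool.Agent.N852.DD
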