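import Mathlib
import Pool.Agent.N852.DD.Deg2

/-!
The upper bound with a small loss.
-/

namespace Pool.Agent.N852.DD

open Matrix Module Filter Topology
open Pool.Agent.N852 (ic ic_add ic_sub ic_neg)
open Pool.Agent.H548.BL (lat orth mem_lat mem_orth finrank_orth rc sep_card)

variable {k n m : ℕ} {M : Fin k → Matrix (Fin n) (Fin m) ℤ}

theorem jj_zero (hk : 1 ≤ k) : 1 ≤ jj M 0 := by
  have h := finrank_orth_jj (M := M) 0
  have h1 : finrank ℝ (orth (rv M (0 : Fin n → ℤ))) = m := by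
    have h2 : orth (rv M (0 : Fin n → ℤ)) = ⊤ := by
      rw [eq_top_iff]
      intro v _
      rw [mem_orth]
      intro i
      have : rv M (0 : Fin n → ℤ) i = 0 := by
        unfold rv
        rw [zero_vecMul]
      rw [this]
      have h3 : rc (0 : Fin m → ℤ) = 0 := by
        funext l
        simp [rc]
      rw [h3, zero_dotProduct]
    rw [h2, finrank_top, Module.finrank_fin_fun]
  omega

/-- All pairs which are degenerate in the first variable. -/
theorem deg1 (hM : Smooth M) (hn : 2 * k + 1 ≤ n) (hm : 2 * k + 1 ≤ m) : ∃ C : ℝ, 0 ≤ C ∧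
    ∀ (K L : ℝ) (S : Finset ((Fin n → ℤ) × (Fin m → ℤ))), 1 ≤ K → 1 ≤ L →
    (∀ p ∈ S, ‖ic p.1‖ ≤ K ∧ ‖ic p.2‖ ≤ L ∧ 1 ≤ jj M p.1 ∧ Inc M p.1 p.2) →
    (S.card : ℝ) * K ≤ C * K ^ (n - k) * L ^ (m - k) * (max 1 (L / K)) ^ k := by
  classical
  obtain ⟨C, hC, hdeg⟩ := deg_pairs hM (by omega)
  refine ⟨3 ^ m + C, by positivity, ?_⟩
  intro K L S hK hL hS
  have hK0 : 0 < K := by linarith
  have hL0 : 0 < L := by linarith
  set r := max 1 (L / K) with hr
  have hr1 : 1 ≤ r := le_max_left _ _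
  have hLr : L ≤ K * r := by
    have : L / K ≤ r := le_max_right _ _
    rw [div_le_iff₀ hK0] at this
    linarith
  have h1 : (((S.filter fun p => p.1 = 0).card : ℕ) : ℝ) ≤ (3 * L) ^ m := by
    refine le_trans ?_ (card_Bl (n := m) hL)
    have : (S.filter fun p => p.1 = 0).card ≤ (Bl m L).card := by
      apply Finset.card_le_card_of_injOn Prod.snd
      · intro p hp
        rw [Finset.mem_coe, Finset.mem_filter] at hp
        rw [Finset.mem_coe, mem_Bl hL0.le]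
        exact (hS p hp.1).2.1
      · intro p hp q hq h
        rw [Finset.mem_coe, Finset.mem_filter] at hp hq
        exact Prod.ext (hp.2.trans hq.2.symm) h
    exact_mod_cast this
  have h2 := hdeg K L (S.filter fun p => p.1 ≠ 0) hK hL (by
    intro p hp
    rw [Finset.mem_filter] at hp
    have h := hS p hp.1
    exact ⟨h.1, h.2.1, hp.2, h.2.2.1, h.2.2.2⟩)
  have h3 : (S.card : ℝ) = ((S.filter fun p => p.1 = 0).card : ℕ) +
      ((S.filter fun p => p.1 ≠ 0).card : ℕ) := by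
    rw [← Finset.card_filter_add_card_filter_not (s := S) (fun p => p.1 = 0)]
    push_cast
    rfl
  have h4 : (((S.filter fun p => p.1 = 0).card : ℕ) : ℝ) * K ≤
      3 ^ m * K ^ (n - k) * L ^ (m - k) * r ^ k := by
    calc (((S.filter fun p => p.1 = 0).card : ℕ) : ℝ) * K ≤ (3 * L) ^ m * K := by gcongr
      _ = 3 ^ m * L ^ (m - k) * (L ^ k * K) := by
          rw [mul_pow]
          have : L ^ m = L ^ (m - k) * L ^ k := by
            rw [← pow_add]
            congr 1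
            omega
          rw [this]
          ring
      _ ≤ 3 ^ m * L ^ (m - k) * ((K * r) ^ k * K) := by gcongr
      _ = 3 ^ m * L ^ (m - k) * r ^ k * K ^ (k + 1) := by
          rw [mul_pow, pow_succ]
          ring
      _ ≤ 3 ^ m * L ^ (m - k) * r ^ k * K ^ (n - k) := by
          gcongr
          omega
      _ = _ := by ring
  have h5 : (((S.filter fun p => p.1 ≠ 0).card : ℕ) : ℝ) * K ≤
      C * K ^ (n - k) * L ^ (m - k) * r ^ k := by
    have h6 : (((S.filter fun p => p.1 ≠ 0).card : ℕ) : ℝ) * K * K ^ (2 * k) ≤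
        C * K ^ (n - k) * L ^ (m - k) * r ^ k * K ^ (2 * k) := by
      calc (((S.filter fun p => p.1 ≠ 0).card : ℕ) : ℝ) * K * K ^ (2 * k)
          = (((S.filter fun p => p.1 ≠ 0).card : ℕ) : ℝ) * K ^ (2 * k + 1) := by
            rw [pow_succ]
            ring
        _ ≤ (((S.filter fun p => p.1 ≠ 0).card : ℕ) : ℝ) * K ^ m := by
            gcongr
        _ ≤ C * L ^ (m - k) * K ^ (k + n) * r ^ k := h2
        _ = C * K ^ (n - k) * L ^ (m - k) * r ^ k * K ^ (2 * k) := by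
            have : k + n = (n - k) + 2 * k := by omega
            rw [this, pow_add]
            ring
    exact le_of_mul_le_mul_right h6 (by positivity)
  rw [h3]
  calc _ = (((S.filter fun p => p.1 = 0).card : ℕ) : ℝ) * K +
        (((S.filter fun p => p.1 ≠ 0).card : ℕ) : ℝ) * K := by ring
    _ ≤ _ := add_le_add h4 h5
    _ = _ := by ring

open Classical in
/-- The pairs outside of the degenerate loci. -/
noncomputable def PU (M : Fin k → Matrix (Fin n) (Fin m) ℤ) (K L : ℝ) :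
    Finset ((Fin n → ℤ) × (Fin m → ℤ)) :=
  (Bl n K ×ˢ Bl m L).filter fun p => Inc M p.1 p.2 ∧ jj M p.1 = 0 ∧ jj (tr M) p.2 = 0

theorem mem_PU {K L : ℝ} (hK : 0 ≤ K) (hL : 0 ≤ L) {p : (Fin n → ℤ) × (Fin m → ℤ)} :
    p ∈ PU M K L ↔ ‖ic p.1‖ ≤ K ∧ ‖ic p.2‖ ≤ L ∧ Inc M p.1 p.2 ∧ jj M p.1 = 0 ∧
      jj (tr M) p.2 = 0 := by
  classical
  unfold PU
  rw [Finset.mem_filter, Finset.mem_product, mem_Bl hK, mem_Bl hL]
  tauto

theorem PU_swap {K L : ℝ} (hK : 0 ≤ K) (hL : 0 ≤ L) : (PU (tr M) L K).card = (PU M K L).card := by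
  apply Finset.card_bij (fun p _ => p.swap)
  · intro p hp
    rw [mem_PU hL hK] at hp
    rw [mem_PU hK hL]
    obtain ⟨h1, h2, h3, h4, h5⟩ := hp
    exact ⟨h2, h1, inc_tr.1 h3, by rw [tr_tr] at h5; exact h5, h4⟩
  · intro p _ q _ h
    exact Prod.swap_injective h
  · intro p hp
    rw [mem_PU hK hL] at hp
    obtain ⟨h1, h2, h3, h4, h5⟩ := hp
    refine ⟨p.swap, ?_, Prod.swap_swap p⟩
    rw [mem_PU hL hK]
    exact ⟨h2, h1, inc_tr.2 h3, h5, by rw [tr_tr]; exact h4⟩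

open Classical in
/-- The pairs whose second vector is not degenerate. -/
noncomputable def TU (M : Fin k → Matrix (Fin n) (Fin m) ℤ) (K L : ℝ) :
    Finset ((Fin n → ℤ) × (Fin m → ℤ)) :=
  (Bl n K ×ˢ Bl m L).filter fun p => Inc M p.1 p.2 ∧ jj (tr M) p.2 = 0

theorem mem_TU {K L : ℝ} (hK : 0 ≤ K) (hL : 0 ≤ L) {p : (Fin n → ℤ) × (Fin m → ℤ)} :
    p ∈ TU M K L ↔ ‖ic p.1‖ ≤ K ∧ ‖ic p.2‖ ≤ L ∧ Inc M p.1 p.2 ∧ jj (tr M) p.2 = 0 := by
  classical
  unfold TU
  rw [Finset.mem_filter, Finset.mem_product, mem_Bl hK, mem_Bl hL]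
  tauto

theorem TU_le (hM : Smooth M) (hn : 2 * k + 1 ≤ n) (hm : 2 * k + 1 ≤ m) : ∃ C : ℝ, 0 ≤ C ∧
    ∀ K L : ℝ, 1 ≤ K → 1 ≤ L → ((TU M K L).card : ℝ) ≤ (PU M K L).card +
      C * K ^ (n - k) * L ^ (m - k) * (K⁻¹ * (max 1 (L / K)) ^ k) := by
  classical
  obtain ⟨C, hC, hdeg⟩ := deg1 hM hn hm
  refine ⟨C, hC, ?_⟩
  intro K L hK hL
  have hK0 : 0 < K := by linarith
  have hL0 : 0 < L := by linarith
  have h1 := hdeg K L ((TU M K L).filter fun p => ¬ jj M p.1 = 0) hK hL (by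
    intro p hp
    rw [Finset.mem_filter, mem_TU hK0.le hL0.le] at hp
    exact ⟨hp.1.1, hp.1.2.1, by omega, hp.1.2.2.1⟩)
  have h2 : (TU M K L).filter (fun p => jj M p.1 = 0) = PU M K L := by
    ext p
    rw [Finset.mem_filter, mem_TU hK0.le hL0.le, mem_PU hK0.le hL0.le]
    tauto
  have h3 : ((TU M K L).card : ℝ) = (PU M K L).card +
      ((TU M K L).filter fun p => ¬ jj M p.1 = 0).card := by
    rw [← Finset.card_filter_add_card_filter_not (s := TU M K L) (fun p => jj M p.1 = 0), h2]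
    push_cast
    rfl
  rw [h3]
  have h4 : (((TU M K L).filter fun p => ¬ jj M p.1 = 0).card : ℝ) ≤
      C * K ^ (n - k) * L ^ (m - k) * (max 1 (L / K)) ^ k / K := by
    rw [le_div_iff₀ hK0]
    exact h1
  have h5 : C * K ^ (n - k) * L ^ (m - k) * (max 1 (L / K)) ^ k / K =
      C * K ^ (n - k) * L ^ (m - k) * (K⁻¹ * (max 1 (L / K)) ^ k) := by
    rw [div_eq_mul_inv]
    ring
  linarith

open Classical in
/-- Comparison of the fibres. -/
theorem fib_dbl (x : Fin n → ℤ) (hx : jj M x = 0) (hkm : k ≤ m) {ρ L : ℝ} (hρ : 0 < ρ)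
    (hL : ρ ≤ L) : (((Bl m L).filter fun y => Inc M x y).card : ℝ) ≤
      (3 * L / ρ) ^ (m - k) * (((Bl m ρ).filter fun y => Inc M x y).card : ℝ) := by
  have h1 : ∀ B : ℝ, (Bl m B).filter (fun y => Inc M x y) = (Bl m B).filter (· ∈ lat (rv M x)) := by
    intro B
    apply Finset.filter_congr
    intro y _
    rw [inc_iff_rv, mem_lat]
  have hV : finrank ℝ (orth (rv M x)) ≤ m - k := by
    have := finrank_orth_jj (M := M) x
    omega
  rw [h1, h1]
  exact dbl (b := m - k) (lat (rv M x)) (orth (rv M x)) hV (by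
    intro v hv
    rw [mem_lat] at hv
    rw [mem_orth]
    intro i
    have := Pool.Agent.H548.BL.rc_dot (rv M x i) v
    rw [hv i, Int.cast_zero] at this
    exact this) hρ hL

open Classical in
/-- `p(K, L)` is bounded in terms of `p(K, ρ)`. -/
theorem up1 (hM : Smooth M) (hn : 2 * k + 1 ≤ n) (hm : 2 * k + 1 ≤ m) : ∃ C : ℝ, 1 ≤ C ∧
    ∀ K ρ L : ℝ, 1 ≤ K → 1 ≤ ρ → ρ ≤ L → ((PU M K L).card : ℝ) / (K ^ (n - k) * L ^ (m - k)) ≤
      C * (ρ⁻¹ * (max 1 (K / ρ)) ^ k + (PU M K ρ).card / (K ^ (n - k) * ρ ^ (m - k))) := by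
  obtain ⟨C, hC, hTU⟩ := TU_le (smooth_tr hM) hm hn
  refine ⟨3 ^ (m - k) * (1 + C), ?_, ?_⟩
  · have : (1 : ℝ) ≤ 3 ^ (m - k) := one_le_pow₀ (by norm_num)
    nlinarith
  intro K ρ L hK hρ hL
  have hK0 : 0 < K := by linarith
  have hρ0 : 0 < ρ := by linarith
  have hL0 : 0 < L := by linarith
  set X := (Bl n K).filter fun x => jj M x = 0 with hX
  -- the pairs, fibre by fibre
  have h1 : ∀ B : ℝ, 0 ≤ B → (PU M K B).card ≤ ∑ x ∈ X, ((Bl m B).filter fun y => Inc M x y).card := by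
    intro B hB
    have hmaps : ∀ p ∈ PU M K B, p.1 ∈ X := by
      intro p hp
      rw [mem_PU hK0.le hB] at hp
      rw [hX, Finset.mem_filter, mem_Bl hK0.le]
      exact ⟨hp.1, hp.2.2.2.1⟩
    rw [Finset.card_eq_sum_card_fiberwise hmaps]
    refine Finset.sum_le_sum fun x _ => ?_
    apply Finset.card_le_card_of_injOn Prod.snd
    · intro p hp
      rw [Finset.mem_coe, Finset.mem_filter, mem_PU hK0.le hB] at hp
      rw [Finset.mem_coe, Finset.mem_filter, mem_Bl hB]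
      refine ⟨hp.1.2.1, ?_⟩
      rw [← hp.2]
      exact hp.1.2.2.1
    · intro p hp q hq h
      rw [Finset.mem_coe, Finset.mem_filter] at hp hq
      exact Prod.ext (hp.2.trans hq.2.symm) h
  have h2 : ∑ x ∈ X, ((Bl m ρ).filter fun y => Inc M x y).card ≤ (TU (tr M) ρ K).card := by
    rw [← Finset.card_sigma]
    apply Finset.card_le_card_of_injOn (fun p => (p.2, p.1))
    · rintro ⟨x, y⟩ hp
      rw [Finset.mem_coe, Finset.mem_sigma] at hp
      simp only [hX, Finset.mem_filter, mem_Bl hK0.le, mem_Bl hρ0.le] at hp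
      rw [Finset.mem_coe, mem_TU hρ0.le hK0.le]
      exact ⟨hp.2.1, hp.1.1, inc_tr.2 hp.2.2, by rw [tr_tr]; exact hp.1.2⟩
    · rintro ⟨x, y⟩ _ ⟨x', y'⟩ _ h
      simp only [Prod.mk.injEq] at h
      obtain ⟨rfl, rfl⟩ := h
      rfl
  have h3 : ((PU M K L).card : ℝ) ≤ (3 * L / ρ) ^ (m - k) * ((TU (tr M) ρ K).card : ℝ) := by
    calc ((PU M K L).card : ℝ)
        ≤ ((∑ x ∈ X, ((Bl m L).filter fun y => Inc M x y).card : ℕ) : ℝ) := by
          exact_mod_cast h1 L hL0.le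
      _ = ∑ x ∈ X, (((Bl m L).filter fun y => Inc M x y).card : ℝ) := by push_cast; rfl
      _ ≤ ∑ x ∈ X, (3 * L / ρ) ^ (m - k) * (((Bl m ρ).filter fun y => Inc M x y).card : ℝ) := by
          refine Finset.sum_le_sum fun x hx => ?_
          rw [hX, Finset.mem_filter] at hx
          exact fib_dbl x hx.2 (by omega) hρ0 hL
      _ = (3 * L / ρ) ^ (m - k) *
            ((∑ x ∈ X, ((Bl m ρ).filter fun y => Inc M x y).card : ℕ) : ℝ) := by
          rw [← Finset.mul_sum]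
          push_cast
          rfl
      _ ≤ (3 * L / ρ) ^ (m - k) * ((TU (tr M) ρ K).card : ℝ) := by
          gcongr
  have h4 := hTU ρ K hρ hK
  rw [PU_swap hK0.le hρ0.le] at h4
  rw [div_le_iff₀ (by positivity)]
  have h5 : 3 ^ (m - k) * (1 + C) * (ρ⁻¹ * max 1 (K / ρ) ^ k +
      ((PU M K ρ).card : ℝ) / (K ^ (n - k) * ρ ^ (m - k))) * (K ^ (n - k) * L ^ (m - k)) =
      (3 * L / ρ) ^ (m - k) * ((1 + C) * ((PU M K ρ).card +
        ρ ^ (m - k) * K ^ (n - k) * (ρ⁻¹ * max 1 (K / ρ) ^ k))) := by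
    rw [div_pow, mul_pow]
    field_simp
    ring
  rw [h5]
  refine h3.trans ?_
  apply mul_le_mul_of_nonneg_left _ (by positivity)
  refine h4.trans ?_
  have h6 : (0 : ℝ) ≤ ((PU M K ρ).card : ℝ) := Nat.cast_nonneg _
  have h7 : 0 ≤ ρ ^ (m - k) * K ^ (n - k) * (ρ⁻¹ * max 1 (K / ρ) ^ k) := by positivity
  nlinarith

end Pool.Agent.N852.DD
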