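import Mathlib
import Pool.Agent.N852.DD.Up

/-!
The upper bound with a small loss, continued.
-/

namespace Pool.Agent.N852.DD

open Matrix Module Filter Topology
open Pool.Agent.N852 (ic ic_add ic_sub ic_neg)

variable {k n m : ℕ} {M : Fin k → Matrix (Fin n) (Fin m) ℤ}

/-- The normalised number of pairs. -/
noncomputable def pp (M : Fin k → Matrix (Fin n) (Fin m) ℤ) (K L : ℝ) : ℝ :=
  ((PU M K L).card : ℝ) / (K ^ (n - k) * L ^ (m - k))

theorem pp_nonneg {K L : ℝ} (hK : 0 ≤ K) (hL : 0 ≤ L) : 0 ≤ pp M K L := by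
  unfold pp
  positivity

theorem pp_swap {K L : ℝ} (hK : 0 ≤ K) (hL : 0 ≤ L) : pp (tr M) L K = pp M K L := by
  unfold pp
  rw [PU_swap hK hL, mul_comm]

theorem pp_triv {K L : ℝ} (hK : 1 ≤ K) (hL : 1 ≤ L) : pp M K L ≤ (3 * K) ^ n * (3 * L) ^ m := by
  classical
  unfold pp
  have h1 : ((PU M K L).card : ℝ) ≤ (3 * K) ^ n * (3 * L) ^ m := by
    have h2 : (PU M K L).card ≤ (Bl n K ×ˢ Bl m L).card := Finset.card_filter_le _ _
    rw [Finset.card_product] at h2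
    calc ((PU M K L).card : ℝ) ≤ (((Bl n K).card * (Bl m L).card : ℕ) : ℝ) := by exact_mod_cast h2
      _ = ((Bl n K).card : ℝ) * ((Bl m L).card : ℝ) := by push_cast; rfl
      _ ≤ (3 * K) ^ n * (3 * L) ^ m := by
        have := card_Bl (n := n) hK
        have := card_Bl (n := m) hL
        gcongr
  have h3 : 1 ≤ K ^ (n - k) * L ^ (m - k) := by
    have e1 := one_le_pow₀ hK (n := n - k)
    have e2 := one_le_pow₀ hL (n := m - k)
    nlinarith
  rw [div_le_iff₀ (by linarith)]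
  calc ((PU M K L).card : ℝ) ≤ (3 * K) ^ n * (3 * L) ^ m * 1 := by linarith
    _ ≤ _ := by gcongr

/-- The two forms of the comparison. -/
theorem up_both (hM : Smooth M) (hn : 2 * k + 1 ≤ n) (hm : 2 * k + 1 ≤ m) : ∃ C : ℝ, 1 ≤ C ∧
    (∀ K ρ L : ℝ, 1 ≤ K → 1 ≤ ρ → ρ ≤ L →
      pp M K L ≤ C * (ρ⁻¹ * (max 1 (K / ρ)) ^ k + pp M K ρ)) ∧
    (∀ K ρ L : ℝ, 1 ≤ L → 1 ≤ ρ → ρ ≤ K →
      pp M K L ≤ C * (ρ⁻¹ * (max 1 (L / ρ)) ^ k + pp M ρ L)) := by
  obtain ⟨C, hC, h1⟩ := up1 hM hn hm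
  obtain ⟨D, hD, h2⟩ := up1 (smooth_tr hM) hm hn
  refine ⟨max C D, hC.trans (le_max_left _ _), ?_, ?_⟩
  · intro K ρ L hK hρ hL
    have h3 := h1 K ρ L hK hρ hL
    refine h3.trans ?_
    apply mul_le_mul_of_nonneg_right (le_max_left _ _)
    positivity
  · intro K ρ L hL hρ hK
    have h3 := h2 L ρ K hL hρ hK
    have h4 : pp (tr M) L K ≤ D * (ρ⁻¹ * (max 1 (L / ρ)) ^ k + pp (tr M) L ρ) := h3
    have hK0 : 0 ≤ K := by linarith
    rw [pp_swap hK0 (by linarith), pp_swap (by linarith) (by linarith)] at h4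
    refine h4.trans ?_
    apply mul_le_mul_of_nonneg_right (le_max_right _ _)
    have := pp_nonneg (M := M) (by linarith : 0 ≤ ρ) (by linarith : 0 ≤ L)
    positivity

/-- Reduction to cubes. -/
theorem up_min (hM : Smooth M) (hn : 2 * k + 1 ≤ n) (hm : 2 * k + 1 ≤ m) : ∃ C : ℝ, 1 ≤ C ∧
    ∀ K L : ℝ, 1 ≤ K → 1 ≤ L → pp M K L ≤ C * (1 + pp M (min K L) (min K L)) := by
  obtain ⟨C, hC, h1, h2⟩ := up_both hM hn hm
  refine ⟨C, hC, ?_⟩
  intro K L hK hL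
  rcases le_total K L with h | h
  · rw [min_eq_left h]
    have h3 := h1 K K L hK hK h
    rw [div_self (by linarith), max_self, one_pow, mul_one] at h3
    refine h3.trans ?_
    gcongr
    exact inv_le_one_of_one_le₀ hK
  · rw [min_eq_right h]
    have h3 := h2 K L L hL hL h
    rw [div_self (by linarith), max_self, one_pow, mul_one] at h3
    refine h3.trans ?_
    gcongr
    exact inv_le_one_of_one_le₀ hL

/-- The descent. -/
theorem up_desc (hM : Smooth M) (hn : 2 * k + 1 ≤ n) (hm : 2 * k + 1 ≤ m) : ∃ C : ℝ, 1 ≤ C ∧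
    ∀ K ρ : ℝ, 1 ≤ ρ → ρ ≤ K → K ^ k ≤ ρ ^ (k + 1) → pp M K K ≤ C * (1 + pp M ρ ρ) := by
  obtain ⟨C, hC, h1, h2⟩ := up_both hM hn hm
  refine ⟨3 * C ^ 2, by nlinarith, ?_⟩
  intro K ρ hρ hK hKρ
  have hρ0 : 0 < ρ := by linarith
  have hK1 : 1 ≤ K := hρ.trans hK
  have h3 := h1 K ρ K hK1 hρ hK
  have h4 := h2 K ρ ρ hρ hρ hK
  rw [div_self (by linarith), max_self, one_pow, mul_one] at h4
  have h5 : ρ⁻¹ * (max 1 (K / ρ)) ^ k ≤ 1 := by
    have h6 : (1 : ℝ) ≤ K / ρ := by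
      rw [le_div_iff₀ hρ0]
      linarith
    rw [max_eq_right h6, div_pow, inv_mul_le_iff₀ hρ0, mul_one, div_le_iff₀ (by positivity)]
    calc K ^ k ≤ ρ ^ (k + 1) := hKρ
      _ = ρ * ρ ^ k := pow_succ' _ _
  have h7 : ρ⁻¹ ≤ 1 := inv_le_one_of_one_le₀ hρ
  have h8 := pp_nonneg (M := M) hρ0.le hρ0.le
  calc pp M K K ≤ C * (ρ⁻¹ * (max 1 (K / ρ)) ^ k + pp M K ρ) := h3
    _ ≤ C * (1 + C * (1 + pp M ρ ρ)) := by gcongr; exact h4.trans (by gcongr)
    _ ≤ 3 * C ^ 2 * (1 + pp M ρ ρ) := by nlinarith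

/-- **The upper bound with a small loss.** -/
theorem up_eps (hM : Smooth M) (hk : 1 ≤ k) (hn : 2 * k + 1 ≤ n) (hm : 2 * k + 1 ≤ m)
    {ε : ℝ} (hε : 0 < ε) : ∃ C : ℝ, 1 ≤ C ∧ ∀ K L : ℝ, 1 ≤ K → 1 ≤ L →
      pp M K L ≤ C * (min K L) ^ ε := by
  obtain ⟨C, hC, hmin⟩ := up_min hM hn hm
  obtain ⟨D, hD, hdesc⟩ := up_desc hM hn hm
  have hk0 : (0 : ℝ) < (k : ℝ) + 1 := by positivity
  -- the threshold
  have hlim : Tendsto (fun x : ℝ => x ^ (ε / (k + 1))) atTop atTop :=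
    tendsto_rpow_atTop (by positivity)
  obtain ⟨K₀, hK₀⟩ := eventually_atTop.1 (hlim.eventually_ge_atTop (2 * D))
  obtain ⟨K₁, hK₁⟩ : ∃ K₁ : ℝ, K₁ = max (max K₀ 2) (2 ^ (k + 1)) := ⟨_, rfl⟩
  have e1 : K₀ ≤ K₁ := by rw [hK₁]; exact (le_max_left _ _).trans (le_max_left _ _)
  have e2 : 2 ≤ K₁ := by rw [hK₁]; exact (le_max_right _ _).trans (le_max_left _ _)
  have e3 : (2 : ℝ) ^ (k + 1) ≤ K₁ := by rw [hK₁]; exact le_max_right _ _
  obtain ⟨A, hA⟩ : ∃ A : ℝ, A = max (2 * D) ((3 * K₁) ^ n * (3 * K₁) ^ m) := ⟨_, rfl⟩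
  have hA1 : 2 * D ≤ A := by rw [hA]; exact le_max_left _ _
  have hA2 : (3 * K₁) ^ n * (3 * K₁) ^ m ≤ A := by rw [hA]; exact le_max_right _ _
  have hA0 : 1 ≤ A := by linarith
  have hdiag : ∀ (N : ℕ) (K : ℝ), 1 ≤ K → K < 2 ^ N → pp M K K ≤ A * K ^ ε := by
    intro N
    induction N with
    | zero =>
      intro K hK h
      rw [pow_zero] at h
      linarith
    | succ N ih =>
      intro K hK hKN
      have hKε : 1 ≤ K ^ ε := Real.one_le_rpow hK hε.le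
      rcases lt_or_ge K K₁ with h | h
      · calc pp M K K ≤ (3 * K) ^ n * (3 * K) ^ m := pp_triv hK hK
          _ ≤ (3 * K₁) ^ n * (3 * K₁) ^ m := by gcongr
          _ ≤ A := hA2
          _ ≤ A * K ^ ε := le_mul_of_one_le_right (by linarith) hKε
      · have hK0 : 0 < K := by linarith
        set ρ : ℝ := K ^ ((k : ℝ) / (k + 1)) with hρ
        have hρ1 : 1 ≤ ρ := Real.one_le_rpow hK (by positivity)
        have hρ0 : 0 < ρ := by linarith
        have hprod : ρ * K ^ (1 / ((k : ℝ) + 1)) = K := by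
          rw [hρ, ← Real.rpow_add hK0, ← add_div, div_self hk0.ne', Real.rpow_one]
        have h2K : 2 ≤ K ^ (1 / ((k : ℝ) + 1)) := by
          have h5 : ((2 : ℝ) ^ (k + 1)) ^ (1 / ((k : ℝ) + 1)) = 2 := by
            rw [← Real.rpow_natCast, ← Real.rpow_mul (by norm_num)]
            push_cast
            rw [mul_one_div_cancel hk0.ne', Real.rpow_one]
          rw [← h5]
          exact Real.rpow_le_rpow (by positivity) (e3.trans h) (by positivity)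
        have hρK : ρ ≤ K / 2 := by
          rw [le_div_iff₀ (by norm_num)]
          calc ρ * 2 ≤ ρ * K ^ (1 / ((k : ℝ) + 1)) := by gcongr
            _ = K := hprod
        have hpow : K ^ k ≤ ρ ^ (k + 1) := by
          rw [hρ, ← Real.rpow_natCast (K ^ ((k : ℝ) / (k + 1))), ← Real.rpow_mul hK0.le]
          push_cast
          rw [div_mul_cancel₀ _ hk0.ne', Real.rpow_natCast]
        have h1 := hdesc K ρ hρ1 (by linarith) hpow
        have h2 := ih ρ hρ1 (by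
          rw [pow_succ] at hKN
          linarith)
        have h3 : K ^ ε = ρ ^ ε * K ^ (ε / (k + 1)) := by
          rw [hρ, ← Real.rpow_mul hK0.le, ← Real.rpow_add hK0]
          congr 1
          field_simp
        have h4 : 2 * D ≤ K ^ (ε / (k + 1)) := hK₀ K (e1.trans h)
        have h5 : 0 < ρ ^ ε := Real.rpow_pos_of_pos hρ0 _
        have h6 : D * (A * ρ ^ ε) ≤ A * K ^ ε / 2 := by
          rw [h3]
          have : A * ρ ^ ε * (2 * D) ≤ A * ρ ^ ε * K ^ (ε / (k + 1)) := by gcongr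
          linarith
        have h7 : D ≤ A * K ^ ε / 2 := by nlinarith
        calc pp M K K ≤ D * (1 + pp M ρ ρ) := h1
          _ ≤ D * (1 + A * ρ ^ ε) := by gcongr
          _ = D + D * (A * ρ ^ ε) := by ring
          _ ≤ A * K ^ ε := by linarith
  refine ⟨2 * C * A, by nlinarith, ?_⟩
  intro K L hK hL
  set μ := min K L with hμ
  have hμ1 : 1 ≤ μ := le_min hK hL
  obtain ⟨N, hN⟩ := pow_unbounded_of_one_lt μ (by norm_num : (1 : ℝ) < 2)
  have h1 := hdiag N μ hμ1 hN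
  have h2 := hmin K L hK hL
  have h3 : 1 ≤ μ ^ ε := Real.one_le_rpow hμ1 hε.le
  have h4 : 1 ≤ A * μ ^ ε := by nlinarith
  calc pp M K L ≤ C * (1 + pp M μ μ) := h2
    _ ≤ C * (A * μ ^ ε + A * μ ^ ε) := by gcongr
    _ = 2 * C * A * μ ^ ε := by ring

/-- The total number, including the pairs degenerate in the first variable. -/
theorem tot_eps (hM : Smooth M) (hk : 1 ≤ k) (hn : 2 * k + 1 ≤ n) (hm : 2 * k + 1 ≤ m)
    {ε : ℝ} (hε : 0 < ε) : ∃ C : ℝ, 1 ≤ C ∧ ∀ K L : ℝ, 1 ≤ K → 1 ≤ L → L ^ k ≤ K ^ (k + 1) →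
      ((TU M K L).card : ℝ) ≤ C * K ^ (n - k) * L ^ (m - k) * L ^ ε := by
  obtain ⟨C, hC, hup⟩ := up_eps hM hk hn hm hε
  obtain ⟨D, hD, hTU⟩ := TU_le hM hn hm
  refine ⟨C + D, by linarith, ?_⟩
  intro K L hK hL hKL
  have hK0 : 0 < K := by linarith
  have hL0 : 0 < L := by linarith
  have h1 := hup K L hK hL
  unfold pp at h1
  rw [div_le_iff₀ (by positivity)] at h1
  have h2 := hTU K L hK hL
  have h3 : (min K L) ^ ε ≤ L ^ ε :=
    Real.rpow_le_rpow (le_min hK0.le hL0.le) (min_le_right _ _) hε.le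
  have h4 : K⁻¹ * (max 1 (L / K)) ^ k ≤ 1 := by
    rw [inv_mul_le_iff₀ hK0, mul_one]
    rcases le_total 1 (L / K) with h | h
    · rw [max_eq_right h, div_pow, div_le_iff₀ (by positivity)]
      calc L ^ k ≤ K ^ (k + 1) := hKL
        _ = K * K ^ k := pow_succ' _ _
    · rw [max_eq_left h, one_pow]
      exact hK
  have h5 : 1 ≤ L ^ ε := Real.one_le_rpow hL hε.le
  calc ((TU M K L).card : ℝ) ≤ (PU M K L).card +
      D * K ^ (n - k) * L ^ (m - k) * (K⁻¹ * (max 1 (L / K)) ^ k) := h2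
    _ ≤ C * L ^ ε * (K ^ (n - k) * L ^ (m - k)) + D * K ^ (n - k) * L ^ (m - k) * 1 := by
        gcongr
        exact h1.trans (by gcongr)
    _ ≤ C * L ^ ε * (K ^ (n - k) * L ^ (m - k)) + D * K ^ (n - k) * L ^ (m - k) * L ^ ε := by
        gcongr
    _ = _ := by ring

end Pool.Agent.N852.DD
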