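import Mathlib
import Pool.Agent.N852.DD.Up2
import Pool.Agent.N852.Cls

/-!
Comparison of the numbers of lattice points at different scales.
-/

namespace Pool.Agent.N852.DD

open Matrix Module Filter Topology
open Pool.Agent.N852 (ic ic_add ic_sub ic_neg Cg)

variable {n : ℕ}

open Classical in
/-- The residue class in the lattice. -/
noncomputable def Lq (Λ : AddSubgroup (Fin n → ℤ)) (q : ℕ) (α : Fin n → ℤ) (B : ℝ) :
    Finset (Fin n → ℤ) :=
  (Bl n B).filter fun x => x ∈ Λ ∧ Cg q x α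

theorem mem_Lq {Λ : AddSubgroup (Fin n → ℤ)} {q : ℕ} {α : Fin n → ℤ} {B : ℝ} (hB : 0 ≤ B)
    {x : Fin n → ℤ} : x ∈ Lq Λ q α B ↔ ‖ic x‖ ≤ B ∧ x ∈ Λ ∧ Cg q x α := by
  classical
  unfold Lq
  rw [Finset.mem_filter, mem_Bl hB]

theorem ic_sum {ι : Type*} (s : Finset ι) (f : ι → Fin n → ℤ) :
    ic (∑ i ∈ s, f i) = ∑ i ∈ s, ic (f i) := by
  classical
  induction s using Finset.induction_on with
  | empty =>
    rw [Finset.sum_empty, Finset.sum_empty]
    funext l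
    simp [ic]
  | insert a s ha ih => rw [Finset.sum_insert ha, Finset.sum_insert ha, ic_add, ih]

/-- Small representatives. -/
theorem small_rep {r : ℕ} {Λ : AddSubgroup (Fin n → ℤ)} {v : Fin r → Fin n → ℤ}
    (hv : ∀ i, v i ∈ Λ) {σ : ℝ} (hσ : ∀ i, ‖ic (v i)‖ ≤ σ)
    (hspan : ∀ x ∈ Λ, ic x ∈ Submodule.span ℝ (Set.range fun i => ic (v i)))
    {N : ℕ} (hN : 0 < N) {z : Fin n → ℤ} (hz : z ∈ Λ) :
    ∃ l ∈ Λ, ‖ic (z + (N : ℤ) • l)‖ ≤ r * (N * σ) := by
  obtain ⟨c, hc⟩ := (Submodule.mem_span_range_iff_exists_fun ℝ).1 (hspan z hz)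
  have hN0 : (0 : ℝ) < N := by exact_mod_cast hN
  refine ⟨-∑ i, ⌊c i / N⌋ • v i, Λ.neg_mem (Λ.sum_mem fun i _ => Λ.zsmul_mem (hv i) _), ?_⟩
  have h1 : ic (z + (N : ℤ) • -∑ i, ⌊c i / N⌋ • v i) = ∑ i, (c i - N * ⌊c i / N⌋) • ic (v i) := by
    rw [ic_add, ic_smul, ic_neg, ic_sum, ← hc]
    simp only [ic_smul]
    rw [smul_neg, ← sub_eq_add_neg, Finset.smul_sum, ← Finset.sum_sub_distrib]
    refine Finset.sum_congr rfl fun i _ => ?_
    rw [sub_smul, smul_smul]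
    push_cast
    rfl
  rw [h1]
  refine (norm_sum_le _ _).trans ?_
  have h2 : ∀ i, ‖(c i - N * ⌊c i / N⌋) • ic (v i)‖ ≤ N * σ := by
    intro i
    have h3 := Int.floor_le (c i / N)
    have h4 := Int.lt_floor_add_one (c i / N)
    rw [le_div_iff₀ hN0] at h3
    rw [div_lt_iff₀ hN0] at h4
    rw [norm_smul, Real.norm_of_nonneg (by linarith)]
    have h5 := hσ i
    have h6 := norm_nonneg (ic (v i))
    apply mul_le_mul _ h5 h6 hN0.le
    linarith
  refine (Finset.sum_le_sum fun i _ => h2 i).trans ?_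
  rw [Finset.sum_const, Finset.card_univ, Fintype.card_fin, nsmul_eq_mul]

/-- **The comparison of scales `K` and `t K`.** -/
theorem switch {ι : Type*} [Fintype ι] {r : ℕ} {Λ : AddSubgroup (Fin n → ℤ)}
    (hsat : ∀ (q : ℕ) (x : Fin n → ℤ), q ≠ 0 → (q : ℤ) • x ∈ Λ → x ∈ Λ) (e : Basis ι ℤ Λ)
    {v : Fin r → Fin n → ℤ} (hv : ∀ i, v i ∈ Λ) {σ : ℝ} (hσ : ∀ i, ‖ic (v i)‖ ≤ σ) (hσ0 : 0 ≤ σ)
    (hspan : ∀ x ∈ Λ, ic x ∈ Submodule.span ℝ (Set.range fun i => ic (v i)))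
    {V : Submodule ℝ (Fin n → ℝ)} (hV : ∀ x ∈ Λ, ic x ∈ V)
    {q : ℕ} (hq : q ≠ 0) (s : ℕ) (α : Fin n → ℤ) {F : (Fin n → ℝ) → ℝ} {A R K : ℝ} (hA : 0 ≤ A)
    (hR : 0 ≤ R) (hK : 0 < K) (hF : ∀ X ∈ V, ∀ X' ∈ V, |F X - F X'| ≤ A * ‖X - X'‖)
    (hF0 : ∀ X ∈ V, R < ‖X‖ → F X = 0) :
    |∑ x ∈ Lq Λ q α (R * (((1 + q * s : ℕ) : ℝ) * K)), F ((((1 + q * s : ℕ) : ℝ) * K)⁻¹ • ic x) -
      ((1 + q * s : ℕ) : ℝ) ^ (Fintype.card ι) * ∑ x ∈ Lq Λ q α (R * K), F (K⁻¹ • ic x)| ≤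
      ((1 + q * s : ℕ) : ℝ) ^ (Fintype.card ι) *
        ((Lq Λ q α (R * K + r * (q * σ))).card * (A * (r * (q * σ)) / K)) := by
  classical
  obtain ⟨t, ht⟩ : ∃ t : ℕ, t = 1 + q * s := ⟨_, rfl⟩
  rw [← ht]
  have ht0 : 0 < t := by omega
  have htR : (0 : ℝ) < t := by exact_mod_cast ht0
  have htZ : (t : ℤ) ≠ 0 := by exact_mod_cast ht0.ne'
  have hqZ : (q : ℤ) ≠ 0 := by exact_mod_cast hq
  have htq : (t : ℤ) = 1 + q * s := by rw [ht]; push_cast; rfl
  -- representatives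
  set z : (ι → Fin t) → Λ := fun u => ∑ i, ((u i : ℕ) : ℤ) • e i with hz
  have hrep : ∀ u : ι → Fin t, ∃ l ∈ Λ, ‖ic ((q : ℤ) • (z u : Fin n → ℤ) + ((t * q : ℕ) : ℤ) • l)‖ ≤
      r * ((t * q : ℕ) * σ) := fun u =>
    small_rep hv hσ hspan (Nat.mul_pos ht0 (Nat.pos_of_ne_zero hq)) (Λ.zsmul_mem (z u).2 _)
  choose l hlΛ hl using hrep
  set g : (ι → Fin t) → Fin n → ℤ := fun u => (q : ℤ) • (z u : Fin n → ℤ) + ((t * q : ℕ) : ℤ) • l u
    with hg
  have hgq : ∀ u, g u = (q : ℤ) • ((z u : Fin n → ℤ) + (t : ℤ) • l u) := by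
    intro u
    simp only [hg]
    rw [smul_add, smul_smul]
    push_cast
    rw [mul_comm]
  have hgΛ : ∀ u, g u ∈ Λ := fun u => Λ.add_mem (Λ.zsmul_mem (z u).2 _) (Λ.zsmul_mem (hlΛ u) _)
  set D : ℝ := r * (q * σ) with hD
  have hD0 : 0 ≤ D := by positivity
  have hgn : ∀ u, ‖ic (g u)‖ ≤ t * D := by
    intro u
    refine (hl u).trans (le_of_eq ?_)
    rw [hD]
    push_cast
    ring
  -- the map
  set f : (Fin n → ℤ) × (ι → Fin t) → Fin n → ℤ := fun p => (t : ℤ) • p.1 + g p.2 with hf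
  set S := Lq Λ q α (R * K + D) with hS
  have hB0 : 0 ≤ R * K + D := by positivity
  have hB1 : 0 ≤ R * K := by positivity
  have hB2 : 0 ≤ R * (t * K) := by positivity
  have hinj : Set.InjOn f (S ×ˢ (Finset.univ : Finset (ι → Fin t)) : Finset _) := by
    rintro ⟨x, u⟩ hp ⟨x', u'⟩ hp' h
    rw [Finset.mem_coe, Finset.mem_product, hS, mem_Lq hB0] at hp hp'
    simp only at hp hp'
    simp only [hf] at h
    obtain ⟨w, hw⟩ := hp.1.2.2.trans hp'.1.2.2.symm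
    have hwΛ : w ∈ Λ := by
      apply hsat q w hq
      rw [← hw]
      exact Λ.sub_mem hp.1.2.1 hp'.1.2.1
    -- `q (z u' - z u) = q t (...)`
    have h1 : (z u' : Fin n → ℤ) - z u = (t : ℤ) • (w + l u - l u') := by
      rw [hgq, hgq] at h
      have h2 : (q : ℤ) • ((z u' : Fin n → ℤ) - z u) = (q : ℤ) • ((t : ℤ) • (w + l u - l u')) := by
        have h3 : (t : ℤ) • (x - x') = (q : ℤ) • ((z u' : Fin n → ℤ) + (t : ℤ) • l u') -
            (q : ℤ) • ((z u : Fin n → ℤ) + (t : ℤ) • l u) := by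
          rw [smul_sub, sub_eq_sub_iff_add_eq_add, h]
          exact add_comm _ _
        rw [hw] at h3
        have h4 : (q : ℤ) • ((t : ℤ) • (w + l u - l u')) = (t : ℤ) • (q : ℤ) • w +
            (q : ℤ) • (t : ℤ) • l u - (q : ℤ) • (t : ℤ) • l u' := by
          rw [smul_sub, smul_add, smul_sub, smul_add, smul_comm (q : ℤ) (t : ℤ) w]
        rw [h4, h3, smul_add, smul_add, smul_sub]
        abel
      exact smul_right_injective _ hqZ h2
    have h2 : z u' - z u = (t : ℤ) • (⟨w + l u - l u',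
        Λ.sub_mem (Λ.add_mem hwΛ (hlΛ u)) (hlΛ u')⟩ : Λ) := Subtype.ext h1
    have huu : u = u' := by
      funext i
      have h3 := congrArg (fun y => e.repr y i) h2
      simp only [hz, map_sub, map_smul] at h3
      rw [Finsupp.sub_apply, Finsupp.smul_apply, smul_eq_mul] at h3
      have h4 : ∀ u : ι → Fin t, (e.repr (∑ i, ((u i : ℕ) : ℤ) • e i)) i = ((u i : ℕ) : ℤ) := by
        intro u
        rw [Basis.repr_sum_self]
      rw [h4, h4] at h3
      have h5 := (u i).2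
      have h6 := (u' i).2
      have h7 : (t : ℤ) ∣ ((u' i : ℕ) : ℤ) - ((u i : ℕ) : ℤ) := Dvd.intro _ h3.symm
      have h8 := Int.eq_zero_of_abs_lt_dvd h7 (by
        rw [abs_lt]
        constructor <;> omega)
      apply Fin.ext
      omega
    subst huu
    have h3 : (t : ℤ) • x = (t : ℤ) • x' := by
      have := h
      simpa using this
    have h4 := smul_right_injective _ htZ h3
    rw [h4]
  -- the class
  have hcls : ∀ x u, x ∈ Λ → Cg q x α → f (x, u) ∈ Λ ∧ Cg q (f (x, u)) α := by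
    intro x u hx hc
    refine ⟨Λ.add_mem (Λ.zsmul_mem hx _) (hgΛ u), ?_⟩
    obtain ⟨w, hw⟩ := hc
    refine ⟨w + (s : ℤ) • x + ((z u : Fin n → ℤ) + (t : ℤ) • l u), ?_⟩
    simp only [hf]
    rw [hgq, htq, add_smul, one_smul]
    have h1 : x + ((q : ℤ) * s) • x + (q : ℤ) • ((z u : Fin n → ℤ) + (1 + (q : ℤ) * s) • l u) - α =
        (x - α) + ((q : ℤ) * s) • x + (q : ℤ) • ((z u : Fin n → ℤ) + (1 + (q : ℤ) * s) • l u) := by
      abel
    rw [h1, hw, smul_add (q : ℤ) (w + (s : ℤ) • x), smul_add (q : ℤ) w, smul_smul (q : ℤ) (s : ℤ) x]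
  have hsurj : ∀ x' ∈ Λ, Cg q x' α → ∃ x u, x ∈ Λ ∧ Cg q x α ∧ f (x, u) = x' := by
    intro x' hx' hc
    set y : Λ := (-(s : ℤ)) • ⟨x', hx'⟩ with hy
    set c : ι → ℤ := fun i => e.repr y i with hc'
    have hyc : y = ∑ i, c i • e i := (e.sum_repr y).symm
    set u : ι → Fin t := fun i => ⟨(c i % t).toNat, by
      have h1 := Int.emod_nonneg (c i) htZ
      have h2 := Int.emod_lt_of_pos (c i) (by exact_mod_cast ht0 : (0 : ℤ) < t)
      omega⟩ with hu
    have hcu : ∀ i, c i = ((u i : ℕ) : ℤ) + t * (c i / t) := by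
      intro i
      have h1 := Int.emod_nonneg (c i) htZ
      have h2 := Int.emod_add_mul_ediv (c i) t
      simp only [hu]
      rw [Int.toNat_of_nonneg h1]
      linarith
    set d : Λ := ∑ i, (c i / t) • e i with hd
    have hyd : y = z u + (t : ℤ) • d := by
      rw [hyc, hz, hd, Finset.smul_sum]
      simp only
      rw [← Finset.sum_add_distrib]
      refine Finset.sum_congr rfl fun i _ => ?_
      rw [smul_smul, ← add_smul, ← hcu i]
    have hyd' : (-(s : ℤ)) • x' = (z u : Fin n → ℤ) + (t : ℤ) • (d : Fin n → ℤ) :=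
      congrArg Subtype.val hyd
    refine ⟨x' + (q : ℤ) • ((d : Fin n → ℤ) - l u), u, ?_, ?_, ?_⟩
    · exact Λ.add_mem hx' (Λ.zsmul_mem (Λ.sub_mem d.2 (hlΛ u)) _)
    · obtain ⟨w, hw⟩ := hc
      refine ⟨w + ((d : Fin n → ℤ) - l u), ?_⟩
      rw [smul_add, ← hw]
      abel
    · simp only [hf]
      rw [hgq]
      have h1 : (z u : Fin n → ℤ) = (-(s : ℤ)) • x' - (t : ℤ) • (d : Fin n → ℤ) := by
        rw [hyd']
        abel
      rw [h1]
      funext i
      simp only [Pi.add_apply, Pi.sub_apply, Pi.smul_apply, smul_eq_mul, htq]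
      ring
  -- the sum at the scale `t K`
  have hsum1 : ∑ x ∈ Lq Λ q α (R * (t * K)), F ((t * K)⁻¹ • ic x) =
      ∑ p ∈ S ×ˢ (Finset.univ : Finset (ι → Fin t)), F ((t * K)⁻¹ • ic (f p)) := by
    rw [← Finset.sum_image hinj (f := fun x => F (((t : ℝ) * K)⁻¹ • ic x))]
    apply Finset.sum_subset
    · intro x' hx'
      rw [mem_Lq hB2] at hx'
      obtain ⟨x, u, h1, h2, h3⟩ := hsurj x' hx'.2.1 hx'.2.2
      rw [Finset.mem_image]
      refine ⟨(x, u), ?_, h3⟩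
      rw [Finset.mem_product, hS, mem_Lq hB0]
      refine ⟨⟨?_, h1, h2⟩, Finset.mem_univ _⟩
      have h4 : (t : ℝ) • ic x = ic x' - ic (g u) := by
        rw [← h3]
        simp only [hf]
        rw [ic_add, ic_smul]
        push_cast
        abel
      have h5 : (t : ℝ) * ‖ic x‖ ≤ t * (R * K + D) := by
        calc (t : ℝ) * ‖ic x‖ = ‖(t : ℝ) • ic x‖ := by
              rw [norm_smul, Real.norm_of_nonneg htR.le]
          _ ≤ ‖ic x'‖ + ‖ic (g u)‖ := by rw [h4]; exact norm_sub_le _ _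
          _ ≤ R * (t * K) + t * D := add_le_add hx'.1 (hgn u)
          _ = t * (R * K + D) := by ring
      exact le_of_mul_le_mul_left h5 htR
    · intro x' hx' hx''
      rw [Finset.mem_image] at hx'
      obtain ⟨⟨x, u⟩, hp, rfl⟩ := hx'
      rw [Finset.mem_product, hS, mem_Lq hB0] at hp
      simp only at hp
      obtain ⟨h1, h2⟩ := hcls x u hp.1.2.1 hp.1.2.2
      apply hF0 _ (V.smul_mem _ (hV _ h1))
      rw [norm_smul, norm_inv, Real.norm_of_nonneg (by positivity), ← div_eq_inv_mul,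
        lt_div_iff₀ (by positivity)]
      by_contra hcon
      rw [not_lt] at hcon
      apply hx''
      rw [mem_Lq hB2]
      exact ⟨hcon, h1, h2⟩
  have hsum2 : (t : ℝ) ^ (Fintype.card ι) * ∑ x ∈ Lq Λ q α (R * K), F (K⁻¹ • ic x) =
      ∑ p ∈ S ×ˢ (Finset.univ : Finset (ι → Fin t)), F (K⁻¹ • ic p.1) := by
    rw [Finset.sum_product]
    simp only [Finset.sum_const, Finset.card_univ, Fintype.card_fun, Fintype.card_fin,
      nsmul_eq_mul]
    rw [← Finset.mul_sum]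
    push_cast
    congr 1
    apply Finset.sum_subset
    · intro x hx
      rw [mem_Lq hB1] at hx
      rw [hS, mem_Lq hB0]
      exact ⟨by linarith [hx.1], hx.2⟩
    · intro x hx hx'
      rw [hS, mem_Lq hB0] at hx
      apply hF0 _ (V.smul_mem _ (hV _ hx.2.1))
      rw [norm_smul, norm_inv, Real.norm_of_nonneg hK.le, ← div_eq_inv_mul, lt_div_iff₀ hK]
      by_contra hcon
      rw [not_lt] at hcon
      apply hx'
      rw [mem_Lq hB1]
      exact ⟨hcon, hx.2⟩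
  rw [hsum1, hsum2, ← Finset.sum_sub_distrib]
  refine (Finset.abs_sum_le_sum_abs _ _).trans ?_
  have hterm : ∀ p ∈ S ×ˢ (Finset.univ : Finset (ι → Fin t)),
      |F ((t * K)⁻¹ • ic (f p)) - F (K⁻¹ • ic p.1)| ≤ A * D / K := by
    rintro ⟨x, u⟩ hp
    rw [Finset.mem_product, hS, mem_Lq hB0] at hp
    simp only at hp
    obtain ⟨h1, h2⟩ := hcls x u hp.1.2.1 hp.1.2.2
    refine (hF _ (V.smul_mem _ (hV _ h1)) _ (V.smul_mem _ (hV _ hp.1.2.1))).trans ?_
    rw [mul_div_assoc]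
    apply mul_le_mul_of_nonneg_left _ hA
    have h3 : ((t : ℝ) * K)⁻¹ • ic (f (x, u)) - K⁻¹ • ic x = ((t : ℝ) * K)⁻¹ • ic (g u) := by
      simp only [hf]
      rw [ic_add, ic_smul, smul_add, smul_smul]
      have : ((t : ℝ) * K)⁻¹ * ((t : ℤ) : ℝ) = K⁻¹ := by
        push_cast
        field_simp
      rw [this]
      abel
    rw [h3, norm_smul, norm_inv, Real.norm_of_nonneg (by positivity), ← div_eq_inv_mul,
      div_le_div_iff₀ (by positivity) hK]
    calc ‖ic (g u)‖ * K ≤ t * D * K := by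
          gcongr
          exact hgn u
      _ = D * (t * K) := by ring
  refine (Finset.sum_le_sum hterm).trans ?_
  rw [Finset.sum_const, Finset.card_product, Finset.card_univ, Fintype.card_fun, Fintype.card_fin,
    nsmul_eq_mul]
  push_cast
  apply le_of_eq
  ring

end Pool.Agent.N852.DD
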