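import Mathlib
import Pool.Agent.N852.DD.Cmp

/-!
Comparison of the numbers of lattice points at different scales, continued.
-/

namespace Pool.Agent.N852.DD

open Matrix Module Filter Topology
open Pool.Agent.N852 (ic ic_add ic_sub ic_neg Cg)
open Pool.Agent.H548.BL (lat orth mem_lat mem_orth finrank_orth rc sep_card)

variable {n : ℕ}

/-- The normalised sum. -/
noncomputable def gS (Λ : AddSubgroup (Fin n → ℤ)) (q : ℕ) (α : Fin n → ℤ)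
    (F : (Fin n → ℝ) → ℝ) (R : ℝ) (r : ℕ) (κ : ℝ) : ℝ :=
  (κ ^ r)⁻¹ * ∑ x ∈ Lq Λ q α (R * κ), F (κ⁻¹ • ic x)

theorem gS_eq {Λ : AddSubgroup (Fin n → ℤ)} {V : Submodule ℝ (Fin n → ℝ)} (hV : ∀ x ∈ Λ, ic x ∈ V)
    {q : ℕ} {α : Fin n → ℤ} {F : (Fin n → ℝ) → ℝ} {R : ℝ} (hR : 0 ≤ R)
    (hF0 : ∀ X ∈ V, R < ‖X‖ → F X = 0) {r : ℕ} {κ B : ℝ} (hκ : 0 < κ) (hB : R * κ ≤ B) :
    gS Λ q α F R r κ = (κ ^ r)⁻¹ * ∑ x ∈ Lq Λ q α B, F (κ⁻¹ • ic x) := by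
  classical
  have h1 : 0 ≤ R * κ := by positivity
  have hB0 : 0 ≤ B := h1.trans hB
  unfold gS
  congr 1
  apply Finset.sum_subset
  · intro x hx
    rw [mem_Lq h1] at hx
    rw [mem_Lq hB0]
    exact ⟨hx.1.trans hB, hx.2⟩
  · intro x hx hx'
    rw [mem_Lq hB0] at hx
    apply hF0 _ (V.smul_mem _ (hV _ hx.2.1))
    rw [norm_smul, norm_inv, Real.norm_of_nonneg hκ.le, ← div_eq_inv_mul, lt_div_iff₀ hκ]
    by_contra hcon
    rw [not_lt] at hcon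
    apply hx'
    rw [mem_Lq h1]
    exact ⟨hcon, hx.2⟩

theorem gS_cont {Λ : AddSubgroup (Fin n → ℤ)} {V : Submodule ℝ (Fin n → ℝ)}
    (hV : ∀ x ∈ Λ, ic x ∈ V) {q : ℕ} {α : Fin n → ℤ} {F : (Fin n → ℝ) → ℝ} {A R : ℝ} (hA : 0 ≤ A)
    (hR : 0 ≤ R) (hF : ∀ X ∈ V, ∀ X' ∈ V, |F X - F X'| ≤ A * ‖X - X'‖)
    (hF0 : ∀ X ∈ V, R < ‖X‖ → F X = 0) {r : ℕ} {κ : ℝ} (hκ : 0 < κ) :
    Tendsto (gS Λ q α F R r) (𝓝 κ) (𝓝 (gS Λ q α F R r κ)) := by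
  have hFc : ContinuousOn F V := by
    have h1 : LipschitzOnWith (Real.toNNReal A) F V := by
      apply LipschitzOnWith.of_dist_le_mul
      intro X hX X' hX'
      rw [Real.dist_eq, dist_eq_norm, Real.coe_toNNReal _ hA]
      exact hF X hX X' hX'
    exact h1.continuousOn
  have hk2 : κ / 2 < κ := by linarith
  have hk3 : κ < 2 * κ := by linarith
  have hev : ∀ᶠ κ' in 𝓝 κ, (κ' ^ r)⁻¹ * ∑ x ∈ Lq Λ q α (R * (2 * κ)), F (κ'⁻¹ • ic x) =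
      gS Λ q α F R r κ' := by
    filter_upwards [Ioo_mem_nhds hk2 hk3] with κ' hκ'
    have h0 : 0 < κ' := by linarith [hκ'.1]
    rw [gS_eq hV hR hF0 h0 (B := R * (2 * κ))]
    have := hκ'.2
    gcongr
  have h2 : ContinuousAt (fun κ' : ℝ => (κ' ^ r)⁻¹ *
      ∑ x ∈ Lq Λ q α (R * (2 * κ)), F (κ'⁻¹ • ic x)) κ := by
    apply ContinuousAt.mul
    · exact ((continuous_id.pow r).continuousAt).inv₀ (pow_ne_zero _ hκ.ne')
    · apply tendsto_finsetSum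
      intro x hx
      rw [mem_Lq (by positivity)] at hx
      have h3 : ContinuousOn (fun κ' : ℝ => F (κ'⁻¹ • ic x)) (Set.Ioi 0) := by
        apply hFc.comp
        · have h3' : ContinuousOn (fun κ' : ℝ => κ'⁻¹) (Set.Ioi 0) :=
            continuousOn_id.inv₀ fun z hz => (Set.mem_Ioi.1 hz).ne'
          exact h3'.smul (continuousOn_const (c := ic x))
        · intro z _
          exact V.smul_mem _ (hV _ hx.2.1)
      exact (h3 κ hκ).continuousAt (Ioi_mem_nhds hκ)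
  have h4 : gS Λ q α F R r κ = (κ ^ r)⁻¹ * ∑ x ∈ Lq Λ q α (R * (2 * κ)), F (κ⁻¹ • ic x) :=
    gS_eq hV hR hF0 hκ (by gcongr)
  rw [h4]
  exact (tendsto_congr' hev).1 h2

/-- The error term. -/
noncomputable def er (Λ : AddSubgroup (Fin n → ℤ)) (q : ℕ) (α : Fin n → ℤ) (A R σ : ℝ) (r : ℕ)
    (κ : ℝ) : ℝ :=
  2 ^ (r + 1) * ((κ ^ r)⁻¹ * ((Lq Λ q α (2 * R * κ + r * (q * σ))).card * (A * (r * (q * σ)) / κ)))

theorem Lq_mono {Λ : AddSubgroup (Fin n → ℤ)} {q : ℕ} {α : Fin n → ℤ} {B C : ℝ} (hB : 0 ≤ B)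
    (h : B ≤ C) : Lq Λ q α B ⊆ Lq Λ q α C := by
  intro x hx
  rw [mem_Lq hB] at hx
  rw [mem_Lq (hB.trans h)]
  exact ⟨hx.1.trans h, hx.2⟩

theorem er_le {Λ : AddSubgroup (Fin n → ℤ)} {q : ℕ} {α : Fin n → ℤ} {A R σ : ℝ} {r : ℕ}
    (hA : 0 ≤ A) (hR : 0 ≤ R) (hσ : 0 ≤ σ) {κ κ' : ℝ} (hκ : 0 < κ) (h1 : κ / 2 ≤ κ')
    (h2 : κ' ≤ 2 * κ) :
    (κ' ^ r)⁻¹ * ((Lq Λ q α (R * κ' + r * (q * σ))).card * (A * (r * (q * σ)) / κ')) ≤
      er Λ q α A R σ r κ := by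
  have hκ' : 0 < κ' := by linarith
  have h3 : (κ' ^ r)⁻¹ ≤ 2 ^ r * (κ ^ r)⁻¹ := by
    have : 2 ^ r * (κ ^ r)⁻¹ = ((κ / 2) ^ r)⁻¹ := by
      rw [div_pow, inv_div, div_eq_mul_inv]
    rw [this]
    gcongr
  have h4 : ((Lq Λ q α (R * κ' + r * (q * σ))).card : ℝ) ≤
      (Lq Λ q α (2 * R * κ + r * (q * σ))).card := by
    exact_mod_cast Finset.card_le_card (Lq_mono (by positivity) (by nlinarith))
  have h5 : A * (r * (q * σ)) / κ' ≤ 2 * (A * (r * (q * σ)) / κ) := by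
    rw [← mul_div_assoc, div_le_div_iff₀ hκ' hκ]
    have h6 : 0 ≤ A * (r * (q * σ)) := by positivity
    nlinarith
  unfold er
  calc (κ' ^ r)⁻¹ * ((Lq Λ q α (R * κ' + r * (q * σ))).card * (A * (r * (q * σ)) / κ'))
      ≤ (2 ^ r * (κ ^ r)⁻¹) * ((Lq Λ q α (2 * R * κ + r * (q * σ))).card *
          (2 * (A * (r * (q * σ)) / κ))) := by gcongr
    _ = _ := by
      rw [pow_succ]
      ring

/-- **The comparison of arbitrary scales.** -/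
theorem cmp {ι : Type*} [Fintype ι] {r : ℕ} (hr : Fintype.card ι = r)
    {Λ : AddSubgroup (Fin n → ℤ)}
    (hsat : ∀ (q : ℕ) (x : Fin n → ℤ), q ≠ 0 → (q : ℤ) • x ∈ Λ → x ∈ Λ) (e : Basis ι ℤ Λ)
    {v : Fin r → Fin n → ℤ} (hv : ∀ i, v i ∈ Λ) {σ : ℝ} (hσ : ∀ i, ‖ic (v i)‖ ≤ σ) (hσ0 : 0 ≤ σ)
    (hspan : ∀ x ∈ Λ, ic x ∈ Submodule.span ℝ (Set.range fun i => ic (v i)))
    {V : Submodule ℝ (Fin n → ℝ)} (hV : ∀ x ∈ Λ, ic x ∈ V)
    {q : ℕ} (hq : q ≠ 0) (α : Fin n → ℤ) {F : (Fin n → ℝ) → ℝ} {A R : ℝ} (hA : 0 ≤ A)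
    (hR : 0 ≤ R) (hF : ∀ X ∈ V, ∀ X' ∈ V, |F X - F X'| ≤ A * ‖X - X'‖)
    (hF0 : ∀ X ∈ V, R < ‖X‖ → F X = 0) {K K' : ℝ} (hK : 0 < K) (hK' : 0 < K') :
    |gS Λ q α F R r K - gS Λ q α F R r K'| ≤ er Λ q α A R σ r K + er Λ q α A R σ r K' := by
  have hqR : (0 : ℝ) < q := by exact_mod_cast Nat.pos_of_ne_zero hq
  -- one step
  have hstep : ∀ (κ : ℝ) (s : ℕ), 0 < κ →
      |gS Λ q α F R r (((1 + q * s : ℕ) : ℝ) * κ) - gS Λ q α F R r κ| ≤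
      (κ ^ r)⁻¹ * ((Lq Λ q α (R * κ + r * (q * σ))).card * (A * (r * (q * σ)) / κ)) := by
    intro κ s hκ
    have h1 := switch hsat e hv hσ hσ0 hspan hV hq s α hA hR hκ hF hF0
    rw [hr] at h1
    set t : ℝ := ((1 + q * s : ℕ) : ℝ) with ht
    have ht0 : 0 < t := by
      rw [ht]
      exact_mod_cast (by omega : 0 < 1 + q * s)
    unfold gS
    have h2 : ((t * κ) ^ r)⁻¹ * ∑ x ∈ Lq Λ q α (R * (t * κ)), F ((t * κ)⁻¹ • ic x) -
        (κ ^ r)⁻¹ * ∑ x ∈ Lq Λ q α (R * κ), F (κ⁻¹ • ic x) =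
        ((t * κ) ^ r)⁻¹ * (∑ x ∈ Lq Λ q α (R * (t * κ)), F ((t * κ)⁻¹ • ic x) -
          t ^ r * ∑ x ∈ Lq Λ q α (R * κ), F (κ⁻¹ • ic x)) := by
      have : (κ ^ r)⁻¹ = ((t * κ) ^ r)⁻¹ * t ^ r := by
        rw [mul_pow]
        field_simp
      rw [this, mul_sub]
      ring
    rw [h2, abs_mul, abs_of_pos (by positivity), mul_pow, mul_inv]
    calc (t ^ r)⁻¹ * (κ ^ r)⁻¹ * |∑ x ∈ Lq Λ q α (R * (t * κ)), F ((t * κ)⁻¹ • ic x) -
          t ^ r * ∑ x ∈ Lq Λ q α (R * κ), F (κ⁻¹ • ic x)|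
        ≤ (t ^ r)⁻¹ * (κ ^ r)⁻¹ * (t ^ r *
          ((Lq Λ q α (R * κ + r * (q * σ))).card * (A * (r * (q * σ)) / κ))) := by gcongr
      _ = _ := by field_simp
  -- the sequence
  set c : ℕ → ℝ := fun j => ((1 + q * ⌊K' / K * j⌋₊ : ℕ) : ℝ) / ((1 + q * j : ℕ) : ℝ) * K with hc
  have hclim : Tendsto c atTop (𝓝 K') := by
    have h1 : Tendsto (fun j : ℕ => ((1 + q * ⌊K' / K * j⌋₊ : ℕ) : ℝ) / ((1 + q * j : ℕ) : ℝ))
        atTop (𝓝 (K' / K)) := by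
      have h2 : Tendsto (fun x : ℝ => ((⌊K' / K * x⌋₊ : ℕ) : ℝ) / x) atTop (𝓝 (K' / K)) :=
        tendsto_nat_floor_mul_div_atTop (by positivity)
      have h3 := h2.comp (tendsto_natCast_atTop_atTop (R := ℝ))
      have h4 : Tendsto (fun j : ℕ => (1 : ℝ) / (q * j)) atTop (𝓝 0) := by
        have : Tendsto (fun j : ℕ => (q : ℝ) * (j : ℝ)) atTop atTop :=
          Tendsto.const_mul_atTop hqR tendsto_natCast_atTop_atTop
        exact Tendsto.div_atTop tendsto_const_nhds this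
      have h5 := (h4.add h3).div (h4.add_const 1) (by norm_num)
      rw [zero_add, zero_add, div_one] at h5
      apply h5.congr'
      filter_upwards [eventually_gt_atTop 0] with j hj
      have hj0 : (0 : ℝ) < j := by exact_mod_cast hj
      simp only [Function.comp_apply, Pi.div_apply]
      push_cast
      rw [div_add_div _ _ (by positivity) (by positivity), div_add_one (by positivity),
        div_div_div_eq, div_eq_div_iff (by positivity) (by positivity)]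
      ring
    have h2 := h1.mul_const K
    rwa [div_mul_cancel₀ _ hK.ne'] at h2
  have hbound : ∀ᶠ j in atTop, |gS Λ q α F R r K - gS Λ q α F R r (c j)| ≤
      er Λ q α A R σ r K + er Λ q α A R σ r K' := by
    have hk2 : K' / 2 < K' := by linarith
    have hk3 : K' < 2 * K' := by linarith
    filter_upwards [hclim.eventually (Ioo_mem_nhds hk2 hk3)] with j hj
    have hc0 : 0 < c j := by linarith [hj.1]
    have h1 := hstep K ⌊K' / K * j⌋₊ hK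
    have h2 := hstep (c j) j hc0
    have h3 : ((1 + q * j : ℕ) : ℝ) * c j = ((1 + q * ⌊K' / K * j⌋₊ : ℕ) : ℝ) * K := by
      simp only [hc]
      have : ((1 + q * j : ℕ) : ℝ) ≠ 0 := by
        exact_mod_cast (by omega : 1 + q * j ≠ 0)
      field_simp
    rw [h3] at h2
    have h4 := er_le (Λ := Λ) (q := q) (α := α) (r := r) hA hR hσ0 hK (by linarith : K / 2 ≤ K)
      (by linarith)
    have h5 := er_le (Λ := Λ) (q := q) (α := α) (r := r) hA hR hσ0 hK' hj.1.le hj.2.le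
    have h6 := abs_sub_le (gS Λ q α F R r K)
      (gS Λ q α F R r (((1 + q * ⌊K' / K * j⌋₊ : ℕ) : ℝ) * K)) (gS Λ q α F R r (c j))
    rw [abs_sub_comm] at h1
    linarith
  have hlim : Tendsto (fun j => |gS Λ q α F R r K - gS Λ q α F R r (c j)|) atTop
      (𝓝 |gS Λ q α F R r K - gS Λ q α F R r K'|) :=
    (tendsto_const_nhds.sub ((gS_cont hV hA hR hF hF0 hK').comp hclim)).abs
  exact le_of_tendsto hlim hbound

end Pool.Agent.N852.DD
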