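import Mathlib
import Pool.Agent.N852.DD.Cmp2

/-!
Comparison of the numbers of lattice points in a fibre.
-/

namespace Pool.Agent.N852.DD

open Matrix Module Filter Topology
open Pool.Agent.N852 (ic ic_add ic_sub ic_neg Cg)
open Pool.Agent.H548.BL (lat orth mem_lat mem_orth finrank_orth rc sep_card)

variable {k n m : ℕ} {M : Fin k → Matrix (Fin n) (Fin m) ℤ}

open Classical in
/-- The number of points in a fibre. -/
noncomputable def ny (M : Fin k → Matrix (Fin n) (Fin m) ℤ) (y : Fin m → ℤ) (B : ℝ) : ℕ :=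
  ((Bl n B).filter fun x => Inc M x y).card

theorem mem_orth_cv {y : Fin m → ℤ} {X : Fin n → ℝ} : X ∈ orth (cv M y) ↔ Inc M X (ic y) := by
  rw [mem_orth]
  unfold Inc
  have h : ∀ i, rc (cv M y i) = cv M (ic y) i := by
    intro i
    have := rv_ic (M := tr M) y i
    rw [rv_tr, rv_tr] at this
    exact this.symm
  simp only [h, dotProduct_comm]

theorem mem_lat_cv {y : Fin m → ℤ} {x : Fin n → ℤ} : x ∈ lat (cv M y) ↔ Inc M x y := by
  rw [mem_lat]
  unfold Inc
  simp only [dotProduct_comm]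

theorem inc_ic {x : Fin n → ℤ} {y : Fin m → ℤ} (h : Inc M x y) : Inc M (ic x) (ic y) := by
  rw [← mem_orth_cv, mem_orth]
  intro i
  have := Pool.Agent.H548.BL.rc_dot (cv M y i) x
  rw [mem_lat_cv.2 h i, Int.cast_zero] at this
  exact this

theorem lat_sat {ι : Type*} {N : ℕ} {w : ι → Fin N → ℤ} (q : ℕ) (x : Fin N → ℤ) (hq : q ≠ 0)
    (h : (q : ℤ) • x ∈ lat w) : x ∈ lat w := by
  intro i
  have h1 := h i
  rw [dotProduct_smul, smul_eq_mul, mul_eq_zero] at h1
  exact h1.resolve_left (by exact_mod_cast hq)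

/-- The rank of the lattice. -/
theorem card_basis {a : ℕ} {Λ : AddSubgroup (Fin n → ℤ)} {V : Submodule ℝ (Fin n → ℝ)}
    (hV : ∀ x ∈ Λ, ic x ∈ V) (ha : finrank ℝ V = a) {ι : Type*} [Fintype ι] (e : Basis ι ℤ Λ)
    {v : Fin a → Fin n → ℤ} (hv : ∀ i, v i ∈ Λ) (hli : LinearIndependent ℝ fun i => ic (v i)) :
    Fintype.card ι = a := by
  apply le_antisymm
  · have h1 : LinearIndependent ℤ (fun i => ((e i : Λ) : Fin n → ℤ)) := by
      have := e.linearIndependent.map' Λ.toIntSubmodule.subtype (Submodule.ker_subtype _)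
      exact this
    have h2 : LinearIndependent ℝ (fun i => rc ((e i : Λ) : Fin n → ℤ)) :=
      (linearIndependent_algebraMap_comp_iff (R := ℤ) (S := ℝ)
        (v := fun i => ((e i : Λ) : Fin n → ℤ))).2 h1
    have h3 : LinearIndependent ℝ (fun i => (⟨ic (e i : Fin n → ℤ), hV _ (e i).2⟩ : V)) := by
      apply LinearIndependent.of_comp V.subtype
      exact h2
    have := h3.fintype_card_le_finrank
    omega
  · have h1 : LinearIndependent ℤ (fun i => (v i : Fin n → ℤ)) :=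
      (linearIndependent_algebraMap_comp_iff (R := ℤ) (S := ℝ) (v := v)).1 hli
    have h2 : LinearIndependent ℤ (fun i => (⟨v i, hv i⟩ : Λ)) := by
      apply LinearIndependent.of_comp Λ.toIntSubmodule.subtype
      exact h1
    have : Module.Free ℤ Λ := Module.Free.of_basis e
    have : Module.Finite ℤ Λ := Module.Finite.of_basis e
    have h3 := h2.fintype_card_le_finrank
    rw [Fintype.card_fin, Module.finrank_eq_card_basis e] at h3
    exact h3

/-- The bound for the difference. -/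
noncomputable def Wd (M : Fin k → Matrix (Fin n) (Fin m) ℤ) (y : Fin m → ℤ) (q : ℕ)
    (A R σ ρ κ : ℝ) : ℝ :=
  2 ^ (n - k + 1) * ((κ ^ (n - k))⁻¹ * (ny M y (2 * R * κ + (n - k : ℕ) * (q * σ)) *
    (A * ((n - k : ℕ) * (q * σ)) / κ))) +
  (3 * R) ^ (n - k) * 3 ^ (n - k - 1) * (σ⁻¹ * (ρ ^ (n - k - 1))⁻¹ * ny M y ρ)

theorem Lq_card_le {y : Fin m → ℤ} {q : ℕ} {α : Fin n → ℤ} {B : ℝ} (hB : 0 ≤ B) :
    (Lq (lat (cv M y)) q α B).card ≤ ny M y B := by
  classical
  unfold ny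
  apply Finset.card_le_card
  intro x hx
  rw [mem_Lq hB] at hx
  rw [Finset.mem_filter, mem_Bl hB]
  exact ⟨hx.1, mem_lat_cv.1 hx.2.1⟩

/-- **The comparison in a fibre.** -/
theorem fibsw {y : Fin m → ℤ} (hy : jj (tr M) y = 0) (hkn : k + 1 ≤ n) {q : ℕ} (hq : q ≠ 0)
    (α : Fin n → ℤ) {F : (Fin n → ℝ) → ℝ} {A R : ℝ} (hA : 0 ≤ A) (hR : 0 ≤ R)
    (hF : ∀ X X', Inc M X (ic y) → Inc M X' (ic y) → |F X - F X'| ≤ A * ‖X - X'‖)
    (hF0 : ∀ X, Inc M X (ic y) → R < ‖X‖ → F X = 0) (hF1 : ∀ X, |F X| ≤ 1)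
    {σ ρ K K' : ℝ} (hρ : 0 < ρ) (hρσ : ρ ≤ σ) (hK0 : 0 < K) (hK0' : 0 < K') (hK : σ ≤ R * K)
    (hK' : σ ≤ R * K') :
    |gS (lat (cv M y)) q α F R (n - k) K - gS (lat (cv M y)) q α F R (n - k) K'| ≤
      Wd M y q A R σ ρ K + Wd M y q A R σ ρ K' := by
  classical
  have hσ0 : 0 < σ := by linarith
  set Λ := lat (cv M y) with hΛ
  set V := orth (cv M y) with hVdef
  have hV : ∀ x ∈ Λ, ic x ∈ V := fun x hx => mem_orth_cv.2 (inc_ic (mem_lat_cv.1 hx))
  have hfin : finrank ℝ V = n - k := by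
    have := finrank_orth_jj (M := tr M) y
    rw [rv_tr, hy, ← hVdef] at this
    omega
  set S : Set (Fin n → ℝ) := {X | ∃ x ∈ Λ, ‖ic x‖ ≤ σ ∧ ic x = X} with hS
  set V₀ := Submodule.span ℝ S with hV₀
  have hV₀V : V₀ ≤ V := by
    rw [hV₀, Submodule.span_le]
    rintro X ⟨x, hx, -, rfl⟩
    exact hV x hx
  have hle : finrank ℝ V₀ ≤ n - k := by
    rw [← hfin]
    exact Submodule.finrank_mono hV₀V
  have hF' : ∀ X ∈ V, ∀ X' ∈ V, |F X - F X'| ≤ A * ‖X - X'‖ := fun X hX X' hX' =>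
    hF X X' (mem_orth_cv.1 hX) (mem_orth_cv.1 hX')
  have hF0' : ∀ X ∈ V, R < ‖X‖ → F X = 0 := fun X hX => hF0 X (mem_orth_cv.1 hX)
  have hpos1 : ∀ κ : ℝ, 0 < κ → 0 ≤ 2 ^ (n - k + 1) * ((κ ^ (n - k))⁻¹ *
      (ny M y (2 * R * κ + (n - k : ℕ) * (q * σ)) * (A * ((n - k : ℕ) * (q * σ)) / κ))) := by
    intro κ hκ
    positivity
  have hpos2 : 0 ≤ (3 * R) ^ (n - k) * 3 ^ (n - k - 1) *
      (σ⁻¹ * (ρ ^ (n - k - 1))⁻¹ * ny M y ρ) := by positivity
  rcases lt_or_ge (finrank ℝ V₀) (n - k) with hlt | hge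
  · -- few short vectors
    have hsmall : ∀ κ : ℝ, 0 < κ → σ ≤ R * κ → |gS Λ q α F R (n - k) κ| ≤
        (3 * R) ^ (n - k) * 3 ^ (n - k - 1) * (σ⁻¹ * (ρ ^ (n - k - 1))⁻¹ * ny M y ρ) := by
      intro κ hκ hσκ
      have hB : 0 ≤ R * κ := by positivity
      have h1 : |∑ x ∈ Lq Λ q α (R * κ), F (κ⁻¹ • ic x)| ≤ ny M y (R * κ) := by
        refine (Finset.abs_sum_le_sum_abs _ _).trans ?_
        refine (Finset.sum_le_sum fun x _ => hF1 _).trans ?_
        rw [Finset.sum_const, nsmul_eq_mul, mul_one]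
        exact_mod_cast Lq_card_le hB
      have hny : ∀ B : ℝ, ny M y B = ((Bl n B).filter (· ∈ Λ)).card := by
        intro B
        unfold ny
        congr 1
        apply Finset.filter_congr
        intro x _
        rw [hΛ, mem_lat_cv]
      have h2 : (ny M y (R * κ) : ℝ) ≤ (3 * (R * κ) / σ) ^ (n - k) * ny M y σ := by
        rw [hny, hny]
        exact dbl Λ V hfin.le hV hσ0 hσκ
      have h3 : (ny M y σ : ℝ) ≤ (3 * σ / ρ) ^ (n - k - 1) * ny M y ρ := by
        set Λ₀ : AddSubgroup (Fin n → ℤ) := Λ ⊓ (V₀.toAddSubgroup.comap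
          { toFun := ic, map_zero' := by funext l; simp [ic], map_add' := ic_add }) with hΛ₀
        have hmem : ∀ x, x ∈ Λ₀ ↔ x ∈ Λ ∧ ic x ∈ V₀ := fun x => Iff.rfl
        have h4 := dbl (b := n - k - 1) Λ₀ V₀ (by omega) (fun x hx => ((hmem x).1 hx).2) hρ hρσ
        have h5 : (Bl n σ).filter (· ∈ Λ₀) = (Bl n σ).filter (· ∈ Λ) := by
          apply Finset.filter_congr
          intro x hx
          rw [mem_Bl hσ0.le] at hx
          rw [hmem]
          exact ⟨fun h => h.1, fun h => ⟨h, Submodule.subset_span ⟨x, h, hx, rfl⟩⟩⟩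
        have h6 : ((Bl n ρ).filter (· ∈ Λ₀)).card ≤ ((Bl n ρ).filter (· ∈ Λ)).card := by
          apply Finset.card_le_card
          intro x hx
          rw [Finset.mem_filter] at hx ⊢
          exact ⟨hx.1, ((hmem x).1 hx.2).1⟩
        rw [hny, hny, ← h5]
        refine h4.trans ?_
        gcongr
      unfold gS
      rw [abs_mul, abs_of_pos (by positivity)]
      calc (κ ^ (n - k))⁻¹ * |∑ x ∈ Lq Λ q α (R * κ), F (κ⁻¹ • ic x)|
          ≤ (κ ^ (n - k))⁻¹ * ((3 * (R * κ) / σ) ^ (n - k) *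
              ((3 * σ / ρ) ^ (n - k - 1) * ny M y ρ)) := by
            gcongr
            exact h1.trans (h2.trans (by gcongr))
        _ = (3 * R) ^ (n - k) * 3 ^ (n - k - 1) * (σ⁻¹ * (ρ ^ (n - k - 1))⁻¹ * ny M y ρ) := by
            have e1 : n - k = (n - k - 1) + 1 := by omega
            have e2 : σ ^ (n - k) = σ ^ (n - k - 1) * σ := by
              conv_lhs => rw [e1]
              rw [pow_succ]
            rw [div_pow, div_pow, mul_pow, mul_pow, mul_pow, mul_pow, e2]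
            field_simp
    have h1 := hsmall K hK0 hK
    have h2 := hsmall K' hK0' hK'
    have h3 := hpos1 K hK0
    have h4 := hpos1 K' hK0'
    unfold Wd
    have h5 := abs_sub (gS Λ q α F R (n - k) K) (gS Λ q α F R (n - k) K')
    linarith
  · -- many short vectors
    have heq : finrank ℝ V₀ = n - k := le_antisymm hle hge
    have hVV : V₀ = V := Submodule.eq_of_le_of_finrank_eq hV₀V (by rw [heq, hfin])
    obtain ⟨t, ht1, ht2, ht3, ht4⟩ := Submodule.exists_finset_span_eq_linearIndepOn ℝ S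
    have ht2' : t.card = n - k := ht2.trans heq
    set e := (Finset.equivFinOfCardEq ht2').symm with he
    have hex : ∀ i, ∃ x ∈ Λ, ‖ic x‖ ≤ σ ∧ ic x = (e i : Fin n → ℝ) := fun i => ht1 (e i).2
    choose v hvΛ hvσ hve using hex
    have hve' : (fun i => ic (v i)) = fun i => (e i : Fin n → ℝ) := funext hve
    have hspan : ∀ x ∈ Λ, ic x ∈ Submodule.span ℝ (Set.range fun i => ic (v i)) := by
      intro x hx
      have h1 : Set.range (fun i => ic (v i)) = (t : Set (Fin n → ℝ)) := by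
        rw [hve']
        ext X
        constructor
        · rintro ⟨i, rfl⟩
          exact (e i).2
        · intro hX
          exact ⟨e.symm ⟨X, hX⟩, by simp⟩
      rw [h1, ht3]
      change ic x ∈ V₀
      rw [hVV]
      exact hV x hx
    have hli : LinearIndependent ℝ fun i => ic (v i) := by
      rw [hve']
      exact LinearIndependent.comp ht4 e e.injective
    have hfree : Module.Free ℤ Λ.toIntSubmodule := inferInstance
    have b := Module.Free.chooseBasis ℤ Λ.toIntSubmodule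
    have hcard := card_basis (Λ := Λ) hV hfin b hvΛ hli
    have h1 := cmp hcard (fun q x => lat_sat q x) b hvΛ hvσ hσ0.le hspan hV hq α hA hR hF' hF0'
      hK0 hK0'
    have h2 : ∀ κ : ℝ, 0 < κ → er Λ q α A R σ (n - k) κ ≤ 2 ^ (n - k + 1) * ((κ ^ (n - k))⁻¹ *
      (ny M y (2 * R * κ + (n - k : ℕ) * (q * σ)) * (A * ((n - k : ℕ) * (q * σ)) / κ))) := by
      intro κ hκ
      unfold er
      have h3 : ((Lq Λ q α (2 * R * κ + (n - k : ℕ) * (q * σ))).card : ℝ) ≤
          (ny M y (2 * R * κ + (n - k : ℕ) * (q * σ)) : ℝ) := by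
        exact_mod_cast Lq_card_le (by positivity)
      gcongr
    have h3 := h2 K hK0
    have h4 := h2 K' hK0'
    unfold Wd
    linarith

end Pool.Agent.N852.DD
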