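import Mathlib
import Pool.Agent.N852.DD.Fib

/-!
The change of one of the two scales.
-/

namespace Pool.Agent.N852.DD

open Matrix Module Filter Topology
open Pool.Agent.N852 (ic ic_add ic_sub ic_neg Cg)
open Pool.Agent.H548.BL (lat orth mem_lat mem_orth finrank_orth rc sep_card)

variable {k n m : ℕ} {M : Fin k → Matrix (Fin n) (Fin m) ℤ}

/-- The weights. -/
structure WT (M : Fin k → Matrix (Fin n) (Fin m) ℤ) (Φ : (Fin n → ℝ) → (Fin m → ℝ) → ℝ)
    (A R : ℝ) : Prop where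
  A0 : 0 ≤ A
  R4 : 4 ≤ R
  lip1 : ∀ X X' Y, Inc M X Y → Inc M X' Y → |Φ X Y - Φ X' Y| ≤ A * ‖X - X'‖
  lip2 : ∀ X Y Y', Inc M X Y → Inc M X Y' → |Φ X Y - Φ X Y'| ≤ A * ‖Y - Y'‖
  supp1 : ∀ X Y, Inc M X Y → R < ‖X‖ → Φ X Y = 0
  supp2 : ∀ X Y, Inc M X Y → R < ‖Y‖ → Φ X Y = 0
  le_one : ∀ X Y, |Φ X Y| ≤ 1

open Classical in
/-- The weighted number of pairs. -/
noncomputable def NN (M : Fin k → Matrix (Fin n) (Fin m) ℤ) (Φ : (Fin n → ℝ) → (Fin m → ℝ) → ℝ)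
    (q : ℕ) (α : Fin n → ℤ) (β : Fin m → ℤ) (R K L : ℝ) : ℝ :=
  ∑ p ∈ PU M (R * K) (R * L), if Cg q p.1 α ∧ Cg q p.2 β then Φ (K⁻¹ • ic p.1) (L⁻¹ • ic p.2) else 0

/-- The normalised weighted number of pairs. -/
noncomputable def TT (M : Fin k → Matrix (Fin n) (Fin m) ℤ) (Φ : (Fin n → ℝ) → (Fin m → ℝ) → ℝ)
    (q : ℕ) (α : Fin n → ℤ) (β : Fin m → ℤ) (R K L : ℝ) : ℝ :=
  NN M Φ q α β R K L / (K ^ (n - k) * L ^ (m - k))

open Classical in
/-- The weighted number of pairs, with the pairs degenerate in the first variable. -/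
noncomputable def NT (M : Fin k → Matrix (Fin n) (Fin m) ℤ) (Φ : (Fin n → ℝ) → (Fin m → ℝ) → ℝ)
    (q : ℕ) (α : Fin n → ℤ) (β : Fin m → ℤ) (R K L : ℝ) : ℝ :=
  ∑ p ∈ TU M (R * K) (R * L), if Cg q p.1 α ∧ Cg q p.2 β then Φ (K⁻¹ • ic p.1) (L⁻¹ • ic p.2) else 0

open Classical in
/-- The nondegenerate second vectors. -/
noncomputable def YY (M : Fin k → Matrix (Fin n) (Fin m) ℤ) (L : ℝ) : Finset (Fin m → ℤ) :=
  (Bl m L).filter fun y => jj (tr M) y = 0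

theorem mem_YY {L : ℝ} (hL : 0 ≤ L) {y : Fin m → ℤ} :
    y ∈ YY M L ↔ ‖ic y‖ ≤ L ∧ jj (tr M) y = 0 := by
  unfold YY
  rw [Finset.mem_filter, mem_Bl hL]

theorem sum_ny_le {B L : ℝ} (hB : 0 ≤ B) (hL : 0 ≤ L) :
    ∑ y ∈ YY M L, ny M y B ≤ (TU M B L).card := by
  classical
  unfold ny
  rw [← Finset.card_sigma]
  apply Finset.card_le_card_of_injOn (fun p => (p.2, p.1))
  · rintro ⟨y, x⟩ hp
    rw [Finset.mem_coe, Finset.mem_sigma] at hp
    simp only [Finset.mem_filter, mem_Bl hB, mem_YY hL] at hp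
    rw [Finset.mem_coe, mem_TU hB hL]
    exact ⟨hp.2.1, hp.1.1, hp.2.2, hp.1.2⟩
  · rintro ⟨x, y⟩ _ ⟨x', y'⟩ _ h
    simp only [Prod.mk.injEq] at h
    obtain ⟨rfl, rfl⟩ := h
    rfl

theorem ny_mono {y : Fin m → ℤ} {B C : ℝ} (hB : 0 ≤ B) (h : B ≤ C) : ny M y B ≤ ny M y C := by
  classical
  unfold ny
  exact Finset.card_le_card (Finset.filter_subset_filter _ (Bl_mono hB h))

open Classical in
theorem NT_eq {Φ : (Fin n → ℝ) → (Fin m → ℝ) → ℝ} {q : ℕ} {α : Fin n → ℤ} {β : Fin m → ℤ}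
    {R K L : ℝ} (hR : 0 ≤ R) (hK : 0 < K) (hL : 0 ≤ L) :
    NT M Φ q α β R K L = K ^ (n - k) * ∑ y ∈ YY M (R * L), if Cg q y β then
      gS (lat (cv M y)) q α (fun X => Φ X (L⁻¹ • ic y)) R (n - k) K else 0 := by
  have hRK : 0 ≤ R * K := by positivity
  have hRL : 0 ≤ R * L := by positivity
  unfold NT
  rw [Finset.sum_finset_product_right (TU M (R * K) (R * L)) (YY M (R * L))
    (fun y => (Bl n (R * K)).filter fun x => Inc M x y)]
  · rw [Finset.mul_sum]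
    refine Finset.sum_congr rfl fun y _ => ?_
    by_cases hy : Cg q y β
    · rw [if_pos hy]
      unfold gS
      rw [← mul_assoc, mul_inv_cancel₀ (by positivity), one_mul]
      have h1 : Lq (lat (cv M y)) q α (R * K) =
          ((Bl n (R * K)).filter fun x => Inc M x y).filter fun x => Cg q x α := by
        ext x
        rw [mem_Lq hRK, Finset.mem_filter, Finset.mem_filter, mem_Bl hRK, mem_lat_cv]
        tauto
      rw [h1, Finset.sum_filter (fun x => Cg q x α)]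
      refine Finset.sum_congr rfl fun x _ => ?_
      by_cases hx : Cg q x α
      · rw [if_pos ⟨hx, hy⟩, if_pos hx]
      · rw [if_neg hx, if_neg fun h => hx h.1]
    · rw [if_neg hy, mul_zero]
      apply Finset.sum_eq_zero
      intro x _
      rw [if_neg fun h => hy h.2]
  · intro p
    rw [mem_TU hRK hRL, mem_YY hRL, Finset.mem_filter, mem_Bl hRK]
    tauto

theorem NN_NT {Φ : (Fin n → ℝ) → (Fin m → ℝ) → ℝ} (hΦ : ∀ X Y, |Φ X Y| ≤ 1)
    {q : ℕ} {α : Fin n → ℤ} {β : Fin m → ℤ} {R K L : ℝ} (hR : 0 ≤ R) (hK : 0 ≤ K) (hL : 0 ≤ L) :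
    |NT M Φ q α β R K L - NN M Φ q α β R K L| ≤
      ((TU M (R * K) (R * L)).card : ℝ) - (PU M (R * K) (R * L)).card := by
  classical
  have hRK : 0 ≤ R * K := by positivity
  have hRL : 0 ≤ R * L := by positivity
  have hsub : PU M (R * K) (R * L) ⊆ TU M (R * K) (R * L) := by
    intro p hp
    rw [mem_PU hRK hRL] at hp
    rw [mem_TU hRK hRL]
    tauto
  unfold NT NN
  rw [← Finset.sum_sdiff hsub, add_sub_cancel_right]
  have h1 : ((TU M (R * K) (R * L)).card : ℝ) - (PU M (R * K) (R * L)).card =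
      ((TU M (R * K) (R * L) \ PU M (R * K) (R * L)).card : ℝ) := by
    rw [Finset.card_sdiff_of_subset hsub, Nat.cast_sub (Finset.card_le_card hsub)]
  rw [h1]
  refine (Finset.abs_sum_le_sum_abs _ _).trans ?_
  rw [← nsmul_one, ← Finset.sum_const]
  refine Finset.sum_le_sum fun p _ => ?_
  split_ifs
  · exact hΦ _ _
  · rw [abs_zero]
    norm_num

theorem TT_le (hM : Smooth M) (hk : 1 ≤ k) (hn : 2 * k + 1 ≤ n) (hm : 2 * k + 1 ≤ m)
    {Φ : (Fin n → ℝ) → (Fin m → ℝ) → ℝ} (hΦ : ∀ X Y, |Φ X Y| ≤ 1) {R : ℝ} (hR : 1 ≤ R) (B : ℝ) :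
    ∃ C : ℝ, 0 ≤ C ∧ ∀ (q : ℕ) (α : Fin n → ℤ) (β : Fin m → ℤ) (K L : ℝ), 1 ≤ K → 1 ≤ L →
      min K L ≤ B → |TT M Φ q α β R K L| ≤ C := by
  obtain ⟨C, hC, hup⟩ := up_eps hM hk hn hm one_pos
  refine ⟨R ^ (n - k) * R ^ (m - k) * (C * (R * |B|)), by positivity, ?_⟩
  intro q α β K L hK hL hB
  have hK0 : 0 < K := by linarith
  have hL0 : 0 < L := by linarith
  have hR0 : 0 < R := by linarith
  have h1 : |NN M Φ q α β R K L| ≤ (PU M (R * K) (R * L)).card := by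
    unfold NN
    refine (Finset.abs_sum_le_sum_abs _ _).trans ?_
    rw [← nsmul_one, ← Finset.sum_const]
    refine Finset.sum_le_sum fun p _ => ?_
    split_ifs
    · exact hΦ _ _
    · rw [abs_zero]
      norm_num
  have h2 := hup (R * K) (R * L) (by nlinarith) (by nlinarith)
  unfold pp at h2
  rw [div_le_iff₀ (by positivity), Real.rpow_one] at h2
  have h3 : min (R * K) (R * L) ≤ R * |B| := by
    rw [← mul_min_of_nonneg _ _ hR0.le]
    gcongr
    exact hB.trans (le_abs_self B)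
  unfold TT
  rw [abs_div, abs_of_pos (by positivity : 0 < K ^ (n - k) * L ^ (m - k)),
    div_le_iff₀ (by positivity)]
  calc |NN M Φ q α β R K L| ≤ (PU M (R * K) (R * L)).card := h1
    _ ≤ C * min (R * K) (R * L) * ((R * K) ^ (n - k) * (R * L) ^ (m - k)) := h2
    _ ≤ C * (R * |B|) * ((R * K) ^ (n - k) * (R * L) ^ (m - k)) := by gcongr
    _ = _ := by
      rw [mul_pow, mul_pow]
      ring

end Pool.Agent.N852.DD
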