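import Mathlib
import Pool.Agent.N852.DD.Sw

/-!
The change of one of the two scales, continued.
-/

namespace Pool.Agent.N852.DD

open Matrix Module Filter Topology
open Pool.Agent.N852 (ic ic_add ic_sub ic_neg Cg)
open Pool.Agent.H548.BL (lat orth mem_lat mem_orth finrank_orth rc sep_card)

variable {k n m : ℕ} {M : Fin k → Matrix (Fin n) (Fin m) ℤ}

/-- The exponent. -/
noncomputable def th (k : ℕ) : ℝ := 1 / (12 * ((k : ℝ) + 1))

theorem th_pos (k : ℕ) : 0 < th k := by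
  unfold th
  positivity

theorem th_le_one (k : ℕ) : th k ≤ 1 := by
  unfold th
  rw [div_le_one (by positivity)]
  have : (0 : ℝ) ≤ k := Nat.cast_nonneg k
  linarith

theorem pow_th {L : ℝ} (hL : 0 ≤ L) (k : ℕ) : (L ^ th k) ^ (12 * (k + 1)) = L := by
  rw [← Real.rpow_natCast, ← Real.rpow_mul hL]
  unfold th
  push_cast
  rw [one_div_mul_cancel (by positivity), Real.rpow_one]

theorem one_le_th {L : ℝ} (hL : 1 ≤ L) (k : ℕ) : 1 ≤ L ^ th k :=
  Real.one_le_rpow hL (th_pos k).le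

/-- The sum of the errors. -/
theorem Wd_sum (hM : Smooth M) (hk : 1 ≤ k) (hn : 2 * k + 1 ≤ n) (hm : 2 * k + 1 ≤ m)
    {A R : ℝ} (hA : 0 ≤ A) (hR : 4 ≤ R) (q : ℕ) : ∃ C : ℝ, 0 ≤ C ∧ ∀ u L κ : ℝ, R ≤ u →
    L = u ^ (12 * (k + 1)) → L ≤ 4 * κ →
    ∑ y ∈ YY M (R * L), Wd M y q A R (L / u ^ 2) (L / u ^ 6) κ ≤ C * L ^ (m - k) / u := by
  obtain ⟨C, hC, htot⟩ := tot_eps hM hk hn hm (th_pos k)
  obtain ⟨a, ha⟩ : ∃ a, a = n - k := ⟨_, rfl⟩
  obtain ⟨b, hb⟩ : ∃ b, b = m - k := ⟨_, rfl⟩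
  obtain ⟨C₁, hC₁⟩ : ∃ C₁ : ℝ, C₁ = 4 * R + 4 * (a * q) := ⟨_, rfl⟩
  have hC₁0 : 0 ≤ C₁ := by rw [hC₁]; positivity
  obtain ⟨D₁, hD₁⟩ : ∃ D₁ : ℝ, D₁ = 2 ^ (a + 1) * (A * (a * q)) * (C * C₁ ^ a * R ^ b * R) * 4 := ⟨_, rfl⟩
  have hD₁0 : 0 ≤ D₁ := by rw [hD₁]; positivity
  obtain ⟨D₂, hD₂⟩ : ∃ D₂ : ℝ, D₂ = (3 * R) ^ a * 3 ^ (a - 1) * (C * R ^ b * R) := ⟨_, rfl⟩
  have hD₂0 : 0 ≤ D₂ := by rw [hD₂]; positivity
  refine ⟨D₁ + D₂, by positivity, ?_⟩
  intro u L κ hu hL hκ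
  rw [← hb]
  have hR0 : 0 < R := by linarith
  have hu1 : 1 ≤ u := by linarith
  have hu0 : 0 < u := by linarith
  have hL1 : 1 ≤ L := by rw [hL]; exact one_le_pow₀ hu1
  have hL0 : 0 < L := by linarith
  have hκ0 : 0 < κ := by linarith
  have huL : L ^ th k = u := by
    rw [hL, ← Real.rpow_natCast u, ← Real.rpow_mul hu0.le]
    unfold th
    push_cast
    rw [mul_one_div_cancel (by positivity), Real.rpow_one]
  have hRLth : (R * L) ^ th k ≤ R * u := by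
    rw [Real.mul_rpow hR0.le hL0.le, huL]
    gcongr
    calc R ^ th k ≤ R ^ (1 : ℝ) := Real.rpow_le_rpow_of_exponent_le (by linarith) (th_le_one k)
      _ = R := Real.rpow_one R
  have hu2 : 1 ≤ u ^ 2 := one_le_pow₀ hu1
  have hu6 : 1 ≤ u ^ 6 := one_le_pow₀ hu1
  set σ : ℝ := L / u ^ 2 with hσ
  set ρ : ℝ := L / u ^ 6 with hρ
  have hσ0 : 0 < σ := by positivity
  have hσL : σ ≤ L := div_le_self hL0.le hu2
  have hρ1 : 1 ≤ ρ := by
    rw [hρ, le_div_iff₀ (by positivity), one_mul, hL]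
    exact pow_le_pow_right₀ hu1 (by omega)
  have hρ0 : 0 < ρ := by linarith
  have hRL : 1 ≤ R * L := by nlinarith
  -- the first sum
  have h1 : ((∑ y ∈ YY M (R * L), ny M y (2 * R * κ + a * (q * σ)) : ℕ) : ℝ) ≤
      C * (C₁ * κ) ^ a * (R * L) ^ b * (R * u) := by
    have e1 : 2 * R * κ + a * (q * σ) ≤ C₁ * κ := by
      rw [hC₁]
      have h2 : (a : ℝ) * (q * σ) ≤ a * (q * (4 * κ)) := by
        gcongr
        linarith
      nlinarith
    have e2 : ∑ y ∈ YY M (R * L), ny M y (2 * R * κ + a * (q * σ)) ≤ (TU M (C₁ * κ) (R * L)).card := by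
      refine le_trans ?_ (sum_ny_le (by positivity) (by positivity))
      exact Finset.sum_le_sum fun y _ => ny_mono (by positivity) e1
    have e3 : R * L ≤ C₁ * κ := by
      rw [hC₁]
      have : (0 : ℝ) ≤ 4 * (a * q) * κ := by positivity
      nlinarith
    have e4 := htot (C₁ * κ) (R * L) (hRL.trans e3) hRL (by
      calc (R * L) ^ k ≤ (R * L) ^ (k + 1) := pow_le_pow_right₀ hRL (by omega)
        _ ≤ (C₁ * κ) ^ (k + 1) := by gcongr)
    rw [← ha, ← hb] at e4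
    calc ((∑ y ∈ YY M (R * L), ny M y (2 * R * κ + a * (q * σ)) : ℕ) : ℝ)
        ≤ ((TU M (C₁ * κ) (R * L)).card : ℝ) := by exact_mod_cast e2
      _ ≤ C * (C₁ * κ) ^ a * (R * L) ^ b * (R * L) ^ th k := e4
      _ ≤ _ := by gcongr
  have h2 : ((∑ y ∈ YY M (R * L), ny M y ρ : ℕ) : ℝ) ≤ C * ρ ^ a * (R * L) ^ b * (R * u) := by
    have e4 := htot ρ (R * L) hρ1 hRL (by
      rw [hρ, div_pow, le_div_iff₀ (by positivity), mul_pow, ← pow_mul]
      have e5 : L ^ (k + 1) = L ^ k * (u ^ (6 * (k + 1)) * u ^ (6 * (k + 1))) := by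
        rw [pow_succ]
        congr 1
        rw [← pow_add, hL]
        congr 1
        omega
      rw [e5]
      have e6 : R ^ k ≤ u ^ (6 * (k + 1)) := by
        calc R ^ k ≤ u ^ k := by gcongr
          _ ≤ u ^ (6 * (k + 1)) := pow_le_pow_right₀ hu1 (by omega)
      calc R ^ k * L ^ k * u ^ (6 * (k + 1)) ≤ u ^ (6 * (k + 1)) * L ^ k * u ^ (6 * (k + 1)) := by
            gcongr
        _ = _ := by ring)
    rw [← ha, ← hb] at e4
    calc ((∑ y ∈ YY M (R * L), ny M y ρ : ℕ) : ℝ)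
        ≤ ((TU M ρ (R * L)).card : ℝ) := by exact_mod_cast sum_ny_le hρ0.le (by positivity)
      _ ≤ C * ρ ^ a * (R * L) ^ b * (R * L) ^ th k := e4
      _ ≤ _ := by gcongr
  have h3 : ∑ y ∈ YY M (R * L), Wd M y q A R σ ρ κ =
      2 ^ (a + 1) * ((κ ^ a)⁻¹ * (((∑ y ∈ YY M (R * L), ny M y (2 * R * κ + a * (q * σ)) : ℕ) : ℝ) *
        (A * (a * (q * σ)) / κ))) +
      (3 * R) ^ a * 3 ^ (a - 1) * (σ⁻¹ * (ρ ^ (a - 1))⁻¹ *
        ((∑ y ∈ YY M (R * L), ny M y ρ : ℕ) : ℝ)) := by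
    unfold Wd
    rw [← ha, Finset.sum_add_distrib]
    push_cast
    congr 1
    · rw [Finset.sum_mul, Finset.mul_sum, Finset.mul_sum]
    · rw [Finset.mul_sum, Finset.mul_sum]
  rw [h3]
  have h4 : 2 ^ (a + 1) * ((κ ^ a)⁻¹ *
      (((∑ y ∈ YY M (R * L), ny M y (2 * R * κ + a * (q * σ)) : ℕ) : ℝ) *
        (A * (a * (q * σ)) / κ))) ≤ D₁ * L ^ b / u := by
    have e1 : σ / κ ≤ 4 / u ^ 2 := by
      rw [hσ, div_div, div_le_div_iff₀ (by positivity) (by positivity)]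
      nlinarith [sq_nonneg u]
    calc 2 ^ (a + 1) * ((κ ^ a)⁻¹ *
        (((∑ y ∈ YY M (R * L), ny M y (2 * R * κ + a * (q * σ)) : ℕ) : ℝ) *
          (A * (a * (q * σ)) / κ)))
        ≤ 2 ^ (a + 1) * ((κ ^ a)⁻¹ * (C * (C₁ * κ) ^ a * (R * L) ^ b * (R * u) *
          (A * (a * (q * σ)) / κ))) := by gcongr
      _ = 2 ^ (a + 1) * (A * (a * q)) * (C * C₁ ^ a * R ^ b * R) * (L ^ b * u) * (σ / κ) := by
          rw [mul_pow, mul_pow]
          field_simp
      _ ≤ 2 ^ (a + 1) * (A * (a * q)) * (C * C₁ ^ a * R ^ b * R) * (L ^ b * u) * (4 / u ^ 2) := by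
          gcongr
      _ = D₁ * L ^ b / u := by
          rw [hD₁]
          field_simp
  have h5 : (3 * R) ^ a * 3 ^ (a - 1) * (σ⁻¹ * (ρ ^ (a - 1))⁻¹ *
        ((∑ y ∈ YY M (R * L), ny M y ρ : ℕ) : ℝ)) ≤ D₂ * L ^ b / u := by
    have e0 : ρ ^ a = ρ ^ (a - 1) * ρ := by
      rw [← pow_succ]
      congr 1
      omega
    have e1 : ρ / σ ≤ 1 / u ^ 2 := by
      rw [hρ, hσ, div_div_div_cancel_left' _ _ hL0.ne', div_le_div_iff₀ (by positivity) (by positivity)]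
      calc u ^ 2 * u ^ 2 = u ^ 4 := by ring
        _ ≤ u ^ 6 := pow_le_pow_right₀ hu1 (by norm_num)
        _ = 1 * u ^ 6 := by ring
    calc (3 * R) ^ a * 3 ^ (a - 1) * (σ⁻¹ * (ρ ^ (a - 1))⁻¹ *
        ((∑ y ∈ YY M (R * L), ny M y ρ : ℕ) : ℝ))
        ≤ (3 * R) ^ a * 3 ^ (a - 1) * (σ⁻¹ * (ρ ^ (a - 1))⁻¹ *
          (C * ρ ^ a * (R * L) ^ b * (R * u))) := by gcongr
      _ = D₂ * (L ^ b * u) * (ρ / σ) := by
          rw [hD₂, e0, mul_pow R L]
          field_simp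
      _ ≤ D₂ * (L ^ b * u) * (1 / u ^ 2) := by gcongr
      _ = D₂ * L ^ b / u := by field_simp
  calc _ ≤ D₁ * L ^ b / u + D₂ * L ^ b / u := add_le_add h4 h5
    _ = _ := by ring

/-- **The change of the first scale.** -/
theorem sw1 (hM : Smooth M) (hk : 1 ≤ k) (hn : 2 * k + 1 ≤ n) (hm : 2 * k + 1 ≤ m)
    {Φ : (Fin n → ℝ) → (Fin m → ℝ) → ℝ} {A R : ℝ} (hΦ : WT M Φ A R) {q : ℕ} (hq : q ≠ 0)
    (α : Fin n → ℤ) (β : Fin m → ℤ) : ∃ C : ℝ, 0 ≤ C ∧ ∀ K K' L : ℝ, 1 ≤ K → 1 ≤ K' → 1 ≤ L →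
    L ≤ 4 * K → L ≤ 4 * K' →
    |TT M Φ q α β R K L - TT M Φ q α β R K' L| ≤ C / L ^ th k := by
  classical
  have hR4 := hΦ.R4
  have hR0 : 0 < R := by linarith
  have hR1 : 1 ≤ R := by linarith
  obtain ⟨C, hC, hWd⟩ := Wd_sum hM hk hn hm hΦ.A0 hΦ.R4 q
  obtain ⟨D, hD, hTU⟩ := TU_le hM hn hm
  obtain ⟨E, hE, hTT⟩ := TT_le hM hk hn hm hΦ.le_one hR1 (R ^ (12 * (k + 1)))
  obtain ⟨D', hD'⟩ : ∃ D' : ℝ, D' = D * R ^ (n - k) * R ^ (m - k) * 4 ^ (k + 1) := ⟨_, rfl⟩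
  have hD'0 : 0 ≤ D' := by rw [hD']; positivity
  refine ⟨2 * E * R + (2 * C + 2 * D'), by positivity, ?_⟩
  intro K K' L hK hK' hL hLK hLK'
  have hK0 : 0 < K := by linarith
  have hK0' : 0 < K' := by linarith
  have hL0 : 0 < L := by linarith
  obtain ⟨u, hu⟩ : ∃ u : ℝ, u = L ^ th k := ⟨_, rfl⟩
  rw [← hu]
  have hLu : L = u ^ (12 * (k + 1)) := by rw [hu, pow_th hL0.le]
  have hu1 : 1 ≤ u := by rw [hu]; exact one_le_th hL k
  have hu0 : 0 < u := by linarith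
  rcases lt_or_ge u R with huR | huR
  · -- bounded `L`
    have hLR : L ≤ R ^ (12 * (k + 1)) := by
      rw [hLu]
      gcongr
    have h1 := hTT q α β K L hK hL ((min_le_right _ _).trans hLR)
    have h2 := hTT q α β K' L hK' hL ((min_le_right _ _).trans hLR)
    have h3 := abs_sub (TT M Φ q α β R K L) (TT M Φ q α β R K' L)
    have h4 : 2 * E ≤ 2 * E * R / u := by
      rw [le_div_iff₀ hu0]
      gcongr
    have h5 : 0 ≤ (2 * C + 2 * D') / u := by positivity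
    rw [add_div]
    linarith
  · have hRL : 0 ≤ R * L := by positivity
    -- removing the degenerate pairs
    have hdeg : ∀ κ : ℝ, 1 ≤ κ → L ≤ 4 * κ → |NT M Φ q α β R κ L / (κ ^ (n - k) * L ^ (m - k)) -
        TT M Φ q α β R κ L| ≤ D' / u := by
      intro κ hκ hLκ
      have hκ0 : 0 < κ := by linarith
      have h1 := NN_NT (M := M) hΦ.le_one (q := q) (α := α) (β := β) hR0.le hκ0.le hL0.le
      have h2 := hTU (R * κ) (R * L) (by nlinarith) (by nlinarith)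
      unfold TT
      rw [← sub_div, abs_div, abs_of_pos (by positivity : 0 < κ ^ (n - k) * L ^ (m - k)),
        div_le_iff₀ (by positivity)]
      have h3 : (R * κ)⁻¹ * (max 1 (R * L / (R * κ))) ^ k ≤ 4 ^ (k + 1) / u := by
        have e1 : R * L / (R * κ) ≤ 4 := by
          rw [div_le_iff₀ (by positivity)]
          nlinarith
        have e2 : max 1 (R * L / (R * κ)) ≤ 4 := max_le (by norm_num) e1
        have e3 : (R * κ)⁻¹ ≤ 4 / u := by
          rw [inv_eq_one_div, div_le_div_iff₀ (by positivity) hu0]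
          have e4 : u ≤ L := by
            rw [hLu]
            exact le_self_pow₀ hu1 (by omega)
          nlinarith
        calc (R * κ)⁻¹ * (max 1 (R * L / (R * κ))) ^ k ≤ (4 / u) * 4 ^ k := by gcongr
          _ = _ := by rw [pow_succ]; ring
      calc |NT M Φ q α β R κ L - NN M Φ q α β R κ L|
          ≤ ((TU M (R * κ) (R * L)).card : ℝ) - (PU M (R * κ) (R * L)).card := h1
        _ ≤ D * (R * κ) ^ (n - k) * (R * L) ^ (m - k) *
              ((R * κ)⁻¹ * (max 1 (R * L / (R * κ))) ^ k) := by linarith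
        _ ≤ D * (R * κ) ^ (n - k) * (R * L) ^ (m - k) * (4 ^ (k + 1) / u) := by gcongr
        _ = D' / u * (κ ^ (n - k) * L ^ (m - k)) := by
            rw [hD', mul_pow, mul_pow]
            ring
    -- the sums over the fibres
    have hσρ : L / u ^ 6 ≤ L / u ^ 2 := by
      gcongr
      norm_num
    have hsw : |NT M Φ q α β R K L / (K ^ (n - k) * L ^ (m - k)) -
        NT M Φ q α β R K' L / (K' ^ (n - k) * L ^ (m - k))| ≤ 2 * C / u := by
      have hσR : ∀ κ : ℝ, 0 < κ → L ≤ 4 * κ → L / u ^ 2 ≤ R * κ := by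
        intro κ hκ hLκ
        have : L / u ^ 2 ≤ L := div_le_self hL0.le (one_le_pow₀ hu1)
        nlinarith
      rw [NT_eq hR0.le hK0 hL0.le, NT_eq hR0.le hK0' hL0.le, mul_div_mul_left _ _ (by positivity),
        mul_div_mul_left _ _ (by positivity), ← sub_div, ← Finset.sum_sub_distrib, abs_div,
        abs_of_pos (by positivity : 0 < L ^ (m - k)), div_le_iff₀ (by positivity)]
      refine (Finset.abs_sum_le_sum_abs _ _).trans ?_
      have hterm : ∀ y ∈ YY M (R * L), |(if Cg q y β then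
          gS (lat (cv M y)) q α (fun X => Φ X (L⁻¹ • ic y)) R (n - k) K else 0) -
          (if Cg q y β then
          gS (lat (cv M y)) q α (fun X => Φ X (L⁻¹ • ic y)) R (n - k) K' else 0)| ≤
          Wd M y q A R (L / u ^ 2) (L / u ^ 6) K + Wd M y q A R (L / u ^ 2) (L / u ^ 6) K' := by
        intro y hy
        rw [mem_YY hRL] at hy
        by_cases hc : Cg q y β
        · rw [if_pos hc, if_pos hc]
          have hinc : ∀ X : Fin n → ℝ, Inc M X (ic y) → Inc M X (L⁻¹ • ic y) := by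
            intro X hX i
            have h1 : cv M (L⁻¹ • ic y) i = L⁻¹ • cv M (ic y) i := by
              unfold cv
              rw [mulVec_smul]
            rw [h1, dotProduct_smul, hX i, smul_zero]
          exact fibsw hy.2 (by omega) hq α hΦ.A0 hR0.le
            (fun X X' hX hX' => hΦ.lip1 X X' _ (hinc X hX) (hinc X' hX'))
            (fun X hX hXR => hΦ.supp1 X _ (hinc X hX) hXR) (fun X => hΦ.le_one _ _)
            (by positivity) hσρ hK0 hK0' (hσR K hK0 hLK) (hσR K' hK0' hLK')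
        · rw [if_neg hc, if_neg hc, sub_zero, abs_zero]
          have hA0 := hΦ.A0
          unfold Wd
          positivity
      refine (Finset.sum_le_sum hterm).trans ?_
      rw [Finset.sum_add_distrib]
      have h1 := hWd u L K huR hLu hLK
      have h2 := hWd u L K' huR hLu hLK'
      calc _ ≤ C * L ^ (m - k) / u + C * L ^ (m - k) / u := add_le_add h1 h2
        _ = _ := by ring
    have h1 := hdeg K hK hLK
    have h2 := hdeg K' hK' hLK'
    have h3 : 0 ≤ 2 * E * R / u := by positivity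
    have h4 : (2 * E * R + (2 * C + 2 * D')) / u = 2 * E * R / u + (2 * C / u + 2 * (D' / u)) := by
      ring
    rw [h4]
    rw [abs_le] at h1 h2 hsw ⊢
    constructor <;> linarith [h1.1, h1.2, h2.1, h2.2, hsw.1, hsw.2]

end Pool.Agent.N852.DD
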