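import Mathlib
import Pool.Agent.N852.DD.Sw2

/-!
The limit of the normalised number of pairs.
-/

namespace Pool.Agent.N852.DD

open Matrix Module Filter Topology
open Pool.Agent.N852 (ic ic_add ic_sub ic_neg Cg)

variable {k n m : ℕ} {M : Fin k → Matrix (Fin n) (Fin m) ℤ}

theorem WT.swap {Φ : (Fin n → ℝ) → (Fin m → ℝ) → ℝ} {A R : ℝ} (h : WT M Φ A R) :
    WT (tr M) (fun Y X => Φ X Y) A R := by
  refine ⟨h.A0, h.R4, ?_, ?_, ?_, ?_, ?_⟩
  · intro Y Y' X h1 h2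
    exact h.lip2 X Y Y' (inc_tr.1 h1) (inc_tr.1 h2)
  · intro Y X X' h1 h2
    exact h.lip1 X X' Y (inc_tr.1 h1) (inc_tr.1 h2)
  · intro Y X h1 h2
    exact h.supp2 X Y (inc_tr.1 h1) h2
  · intro Y X h1 h2
    exact h.supp1 X Y (inc_tr.1 h1) h2
  · intro Y X
    exact h.le_one X Y

theorem NN_swap {Φ : (Fin n → ℝ) → (Fin m → ℝ) → ℝ} {q : ℕ} {α : Fin n → ℤ} {β : Fin m → ℤ}
    {R K L : ℝ} (hR : 0 ≤ R) (hK : 0 ≤ K) (hL : 0 ≤ L) :
    NN (tr M) (fun Y X => Φ X Y) q β α R L K = NN M Φ q α β R K L := by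
  classical
  have hRK : 0 ≤ R * K := by positivity
  have hRL : 0 ≤ R * L := by positivity
  unfold NN
  apply Finset.sum_bij (fun p _ => p.swap)
  · intro p hp
    rw [mem_PU hRL hRK] at hp
    rw [mem_PU hRK hRL]
    obtain ⟨h1, h2, h3, h4, h5⟩ := hp
    exact ⟨h2, h1, inc_tr.1 h3, by rw [tr_tr] at h5; exact h5, h4⟩
  · intro p _ q _ h
    exact Prod.swap_injective h
  · intro p hp
    rw [mem_PU hRK hRL] at hp
    obtain ⟨h1, h2, h3, h4, h5⟩ := hp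
    refine ⟨p.swap, ?_, Prod.swap_swap p⟩
    rw [mem_PU hRL hRK]
    exact ⟨h2, h1, inc_tr.2 h3, h5, by rw [tr_tr]; exact h4⟩
  · intro p _
    simp only [Prod.fst_swap, Prod.snd_swap]
    by_cases h : Cg q p.1 β ∧ Cg q p.2 α
    · rw [if_pos h, if_pos ⟨h.2, h.1⟩]
    · rw [if_neg h, if_neg fun h' => h ⟨h'.2, h'.1⟩]

/-- **The change of the second scale.** -/
theorem sw2 (hM : Smooth M) (hk : 1 ≤ k) (hn : 2 * k + 1 ≤ n) (hm : 2 * k + 1 ≤ m)
    {Φ : (Fin n → ℝ) → (Fin m → ℝ) → ℝ} {A R : ℝ} (hΦ : WT M Φ A R) {q : ℕ} (hq : q ≠ 0)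
    (α : Fin n → ℤ) (β : Fin m → ℤ) : ∃ C : ℝ, 0 ≤ C ∧ ∀ K L L' : ℝ, 1 ≤ K → 1 ≤ L → 1 ≤ L' →
    K ≤ 4 * L → K ≤ 4 * L' →
    |TT M Φ q α β R K L - TT M Φ q α β R K L'| ≤ C / K ^ th k := by
  obtain ⟨C, hC, h⟩ := sw1 (smooth_tr hM) hk hm hn hΦ.swap hq β α
  refine ⟨C, hC, ?_⟩
  intro K L L' hK hL hL' h1 h2
  have hR0 : 0 ≤ R := by linarith [hΦ.R4]
  have h3 := h L L' K hL hL' hK h1 h2
  unfold TT at h3 ⊢
  rw [NN_swap hR0 (by linarith) (by linarith), NN_swap hR0 (by linarith) (by linarith),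
    mul_comm (L ^ (m - k)), mul_comm (L' ^ (m - k))] at h3
  exact h3

/-- **The limit.** -/
theorem TT_lim (hM : Smooth M) (hk : 1 ≤ k) (hn : 2 * k + 1 ≤ n) (hm : 2 * k + 1 ≤ m)
    {Φ : (Fin n → ℝ) → (Fin m → ℝ) → ℝ} {A R : ℝ} (hΦ : WT M Φ A R) {q : ℕ} (hq : q ≠ 0)
    (α : Fin n → ℤ) (β : Fin m → ℤ) : ∃ c C : ℝ, 0 ≤ C ∧ ∀ K L : ℝ, 1 ≤ K → 1 ≤ L →
    |TT M Φ q α β R K L - c| ≤ C / (min K L) ^ th k := by
  obtain ⟨C₁, hC₁, h1⟩ := sw1 hM hk hn hm hΦ hq α β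
  obtain ⟨C₂, hC₂, h2⟩ := sw2 hM hk hn hm hΦ hq α β
  obtain ⟨D, hD⟩ : ∃ D : ℝ, D = C₁ + C₂ := ⟨_, rfl⟩
  have hD0 : 0 ≤ D := by rw [hD]; positivity
  -- the diagonal
  have hdiag : ∀ s t : ℝ, 1 ≤ s → s ≤ t → t ≤ 2 * s →
      |TT M Φ q α β R s s - TT M Φ q α β R t t| ≤ D / s ^ th k := by
    intro s t hs hst hts
    have ht : 1 ≤ t := hs.trans hst
    have h3 := h1 s t s hs ht hs (by linarith) (by linarith)
    have h4 := h2 t s t ht hs ht (by linarith) (by linarith)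
    have h5 : C₂ / t ^ th k ≤ C₂ / s ^ th k := by
      apply div_le_div_of_nonneg_left hC₂ (Real.rpow_pos_of_pos (by linarith) _)
      exact Real.rpow_le_rpow (by linarith) hst (th_pos k).le
    have h6 := abs_sub_le (TT M Φ q α β R s s) (TT M Φ q α β R t s) (TT M Φ q α β R t t)
    rw [hD, add_div]
    linarith
  -- powers of two
  set w : ℕ → ℝ := fun j => TT M Φ q α β R (2 ^ j) (2 ^ j) with hw
  set r : ℝ := (2 ^ th k)⁻¹ with hr
  have h2th : 1 < (2 : ℝ) ^ th k := Real.one_lt_rpow (by norm_num) (th_pos k)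
  have hr0 : 0 < r := by positivity
  have hr1 : r < 1 := inv_lt_one_of_one_lt₀ h2th
  have hpow : ∀ j : ℕ, ((2 : ℝ) ^ j) ^ th k = (r ^ j)⁻¹ := by
    intro j
    rw [hr, inv_pow, inv_inv, ← Real.rpow_natCast, ← Real.rpow_natCast, ← Real.rpow_mul (by norm_num),
      ← Real.rpow_mul (by norm_num), mul_comm]
  have hw1 : ∀ j, dist (w j) (w (j + 1)) ≤ D * r ^ j := by
    intro j
    have h3 := hdiag (2 ^ j) (2 ^ (j + 1)) (one_le_pow₀ (by norm_num)) (by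
      apply pow_le_pow_right₀ (by norm_num); omega) (by rw [pow_succ]; linarith)
    rw [Real.dist_eq]
    refine h3.trans (le_of_eq ?_)
    rw [hpow, div_inv_eq_mul]
  have hcau := cauchySeq_of_le_geometric r D hr1 hw1
  obtain ⟨c, hc⟩ := cauchySeq_tendsto_of_complete hcau
  have hw2 : ∀ j, dist (w j) c ≤ D * r ^ j / (1 - r) :=
    dist_le_of_le_geometric_of_tendsto r D hr1 hw1 hc
  have h1r : 0 < 1 - r := by linarith
  refine ⟨c, D + (D / (1 - r) + D) * r⁻¹, by positivity, ?_⟩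
  intro K L hK hL
  set μ := min K L with hμ
  have hμ1 : 1 ≤ μ := le_min hK hL
  have hμ0 : 0 < μ := by linarith
  -- to the diagonal
  have h3 : |TT M Φ q α β R K L - TT M Φ q α β R μ μ| ≤ D / μ ^ th k := by
    rcases le_total K L with h | h
    · have e : μ = K := min_eq_left h
      rw [e]
      have h4 := h2 K L K hK hL hK (by linarith) (by linarith)
      refine h4.trans ?_
      gcongr
      rw [hD]
      linarith
    · have e : μ = L := min_eq_right h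
      rw [e]
      have h4 := h1 K L L hK hL hL (by linarith) (by linarith)
      refine h4.trans ?_
      gcongr
      rw [hD]
      linarith
  -- to a power of two
  obtain ⟨j, hj1, hj2⟩ := exists_nat_pow_near hμ1 (by norm_num : (1 : ℝ) < 2)
  have h4 := hdiag (2 ^ j) μ (one_le_pow₀ (by norm_num)) hj1 (by
    rw [pow_succ] at hj2
    linarith)
  rw [hpow, div_inv_eq_mul] at h4
  have h5 := hw2 j
  rw [Real.dist_eq] at h5
  have h6 : r ^ j ≤ r⁻¹ / μ ^ th k := by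
    rw [le_div_iff₀ (Real.rpow_pos_of_pos hμ0 _)]
    have h7 : μ ^ th k ≤ (2 ^ (j + 1)) ^ th k := Real.rpow_le_rpow hμ0.le hj2.le (th_pos k).le
    rw [hpow] at h7
    calc r ^ j * μ ^ th k ≤ r ^ j * (r ^ (j + 1))⁻¹ := by gcongr
      _ = r⁻¹ := by
        rw [pow_succ]
        field_simp
  have h7 : |TT M Φ q α β R K L - c| ≤ |TT M Φ q α β R K L - TT M Φ q α β R μ μ| +
      |w j - TT M Φ q α β R μ μ| + |w j - c| := by
    have e1 := abs_sub_le (TT M Φ q α β R K L) (TT M Φ q α β R μ μ) c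
    have e2 := abs_sub_le (TT M Φ q α β R μ μ) (w j) c
    rw [abs_sub_comm (TT M Φ q α β R μ μ) (w j)] at e2
    linarith
  have h8 : D * r ^ j / (1 - r) + D * r ^ j ≤ (D / (1 - r) + D) * r⁻¹ / μ ^ th k := by
    calc D * r ^ j / (1 - r) + D * r ^ j = (D / (1 - r) + D) * r ^ j := by ring
      _ ≤ (D / (1 - r) + D) * (r⁻¹ / μ ^ th k) := by gcongr
      _ = _ := by ring
  calc |TT M Φ q α β R K L - c| ≤ D / μ ^ th k + D * r ^ j + D * r ^ j / (1 - r) := by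
        linarith
    _ ≤ D / μ ^ th k + (D / (1 - r) + D) * r⁻¹ / μ ^ th k := by linarith
    _ = _ := by rw [add_div]

end Pool.Agent.N852.DD
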