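import Mathlib
import Pool.Agent.N852.DD.Chn

/-!
The limit for continuous weights.
-/

namespace Pool.Agent.N852.DD

open Matrix Module Filter Topology
open Pool.Agent.N852 (ic ic_add ic_sub ic_neg Cg)

variable {k n m : ℕ} {M : Fin k → Matrix (Fin n) (Fin m) ℤ}

/-! ### The cutoff -/

/-- The cutoff function. -/
noncomputable def chi (t : ℝ) : ℝ := max 0 (min 1 (2 - t))

theorem chi_nonneg (t : ℝ) : 0 ≤ chi t := le_max_left _ _

theorem chi_le_one (t : ℝ) : chi t ≤ 1 := max_le (by norm_num) (min_le_left _ _)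

theorem chi_one {t : ℝ} (h : t ≤ 1) : chi t = 1 := by
  unfold chi
  rw [min_eq_left (by linarith), max_eq_right (by norm_num)]

theorem chi_zero {t : ℝ} (h : 2 ≤ t) : chi t = 0 := by
  unfold chi
  rw [max_eq_left ((min_le_right _ _).trans (by linarith))]

theorem chi_lip (s t : ℝ) : |chi s - chi t| ≤ |s - t| := by
  unfold chi
  rw [max_comm 0, max_comm 0]
  refine (abs_max_sub_max_le_abs _ _ _).trans ?_
  rw [min_comm 1, min_comm 1]
  have h := abs_min_sub_min_le_max (2 - s) 1 (2 - t) 1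
  rw [sub_self, abs_zero, max_eq_left (abs_nonneg _)] at h
  refine h.trans (le_of_eq ?_)
  rw [← abs_neg]
  congr 1
  ring

theorem norm_lip {E : Type*} [NormedAddCommGroup E] (X X' : E) : |‖X‖ - ‖X'‖| ≤ ‖X - X'‖ :=
  abs_norm_sub_norm_le X X'

/-- **The upper bound.** -/
theorem PU_le (hM : Smooth M) (hk : 1 ≤ k) (hn : 2 * k + 1 ≤ n) (hm : 2 * k + 1 ≤ m) :
    ∃ C : ℝ, 1 ≤ C ∧ ∀ K L : ℝ, 1 ≤ K → 1 ≤ L →
      ((PU M K L).card : ℝ) ≤ C * (K ^ (n - k) * L ^ (m - k)) := by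
  classical
  have hWT : WT M (fun X Y => chi ‖X‖ * chi ‖Y‖) 1 4 := by
    refine ⟨by norm_num, by norm_num, ?_, ?_, ?_, ?_, ?_⟩
    · intro X X' Y _ _
      rw [← sub_mul, abs_mul, abs_of_nonneg (chi_nonneg ‖Y‖), one_mul]
      calc |chi ‖X‖ - chi ‖X'‖| * chi ‖Y‖ ≤ |chi ‖X‖ - chi ‖X'‖| * 1 := by
            gcongr
            exact chi_le_one _
        _ ≤ ‖X - X'‖ := by
            rw [mul_one]
            exact (chi_lip _ _).trans (norm_lip X X')
    · intro X Y Y' _ _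
      rw [← mul_sub, abs_mul, abs_of_nonneg (chi_nonneg ‖X‖), one_mul]
      calc chi ‖X‖ * |chi ‖Y‖ - chi ‖Y'‖| ≤ 1 * |chi ‖Y‖ - chi ‖Y'‖| := by
            gcongr
            exact chi_le_one _
        _ ≤ ‖Y - Y'‖ := by
            rw [one_mul]
            exact (chi_lip _ _).trans (norm_lip Y Y')
    · intro X Y _ h
      rw [chi_zero (by linarith), zero_mul]
    · intro X Y _ h
      rw [chi_zero (t := ‖Y‖) (by linarith), mul_zero]
    · intro X Y
      rw [abs_of_nonneg (mul_nonneg (chi_nonneg _) (chi_nonneg _))]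
      exact mul_le_one₀ (chi_le_one _) (chi_nonneg _) (chi_le_one _)
  obtain ⟨c, C, hC, hlim⟩ := TT_lim hM hk hn hm hWT one_ne_zero 0 0
  refine ⟨|c| + C + 1, by linarith [abs_nonneg c], ?_⟩
  intro K L hK hL
  have hK0 : 0 < K := by linarith
  have hL0 : 0 < L := by linarith
  have h1 := hlim K L hK hL
  have h2 : C / (min K L) ^ th k ≤ C := by
    apply div_le_self hC
    exact Real.one_le_rpow (le_min hK hL) (th_pos k).le
  have h3 : TT M (fun X Y => chi ‖X‖ * chi ‖Y‖) 1 0 0 4 K L ≤ |c| + C + 1 := by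
    have := (abs_le.1 h1).2
    have := le_abs_self c
    linarith
  unfold TT at h3
  rw [div_le_iff₀ (by positivity)] at h3
  refine le_trans ?_ h3
  unfold NN
  have hsub : PU M K L ⊆ PU M (4 * K) (4 * L) := by
    intro p hp
    rw [mem_PU hK0.le hL0.le] at hp
    rw [mem_PU (by positivity) (by positivity)]
    exact ⟨by linarith [hp.1], by linarith [hp.2.1], hp.2.2⟩
  rw [← nsmul_one, ← Finset.sum_const]
  refine le_trans (Finset.sum_le_sum fun p hp => ?_) (Finset.sum_le_sum_of_subset_of_nonneg hsub ?_)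
  · rw [mem_PU hK0.le hL0.le] at hp
    have hc : ∀ {N : ℕ} (x : Fin N → ℤ), Cg 1 x 0 := fun x => ⟨x, by simp⟩
    rw [if_pos ⟨hc _, hc _⟩]
    change (1 : ℝ) ≤ chi ‖K⁻¹ • ic p.1‖ * chi ‖L⁻¹ • ic p.2‖
    rw [norm_smul, norm_smul, norm_inv, norm_inv,
      Real.norm_of_nonneg hK0.le, Real.norm_of_nonneg hL0.le, chi_one, chi_one, mul_one]
    · rw [inv_mul_le_iff₀ hL0, mul_one]
      exact hp.2.1
    · rw [inv_mul_le_iff₀ hK0, mul_one]
      exact hp.1
  · intro p _ _
    split_ifs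
    · exact mul_nonneg (chi_nonneg _) (chi_nonneg _)
    · exact le_rfl

/-- Approximation by Lipschitz functions. -/
theorem lip_approx {E : Type*} [NormedAddCommGroup E] {Z : Set E} (hZ : IsCompact Z)
    (hne : Z.Nonempty) {φ : E → ℝ} (hφ : ContinuousOn φ Z) {η : ℝ} (hη : 0 < η) :
    ∃ (A : ℝ) (ψ : E → ℝ), 0 ≤ A ∧ (∀ p q, |ψ p - ψ q| ≤ A * ‖p - q‖) ∧
      ∀ z ∈ Z, |ψ z - φ z| ≤ η := by
  obtain ⟨B', hB'⟩ := hZ.exists_bound_of_continuousOn hφ
  obtain ⟨B, hBdef⟩ : ∃ B : ℝ, B = |B'| := ⟨_, rfl⟩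
  have hB0 : 0 ≤ B := by rw [hBdef]; positivity
  have hB : ∀ z ∈ Z, |φ z| ≤ B := fun z hz => by
    rw [hBdef]
    exact (hB' z hz).trans (le_abs_self _)
  have huc := hZ.uniformContinuousOn_of_continuous hφ
  rw [Metric.uniformContinuousOn_iff] at huc
  obtain ⟨δ, hδ, hd⟩ := huc η hη
  set A : ℝ := 2 * B / δ with hA
  have hA0 : 0 ≤ A := by positivity
  have : Nonempty Z := hne.to_subtype
  set ψ : E → ℝ := fun p => ⨅ z : Z, (φ z + A * ‖p - (z : E)‖) with hψ
  have hbdd : ∀ p : E, BddBelow (Set.range fun z : Z => φ z + A * ‖p - (z : E)‖) := by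
    intro p
    refine ⟨-B, ?_⟩
    rintro _ ⟨z, rfl⟩
    have h1 := (abs_le.1 (hB z z.2)).1
    have h2 : 0 ≤ A * ‖p - (z : E)‖ := by positivity
    simp only
    linarith
  have hle : ∀ (p : E) (z : Z), ψ p ≤ φ z + A * ‖p - (z : E)‖ := fun p z => ciInf_le (hbdd p) z
  refine ⟨A, ψ, hA0, ?_, ?_⟩
  · have hone : ∀ p q, ψ p - ψ q ≤ A * ‖p - q‖ := by
      intro p q
      have h1 : ψ p - A * ‖p - q‖ ≤ ψ q := by
        apply le_ciInf
        intro z
        have h2 := hle p z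
        have h3 : ‖p - (z : E)‖ ≤ ‖p - q‖ + ‖q - (z : E)‖ := by
          have : p - (z : E) = (p - q) + (q - z) := by abel
          rw [this]
          exact norm_add_le _ _
        have h4 := mul_le_mul_of_nonneg_left h3 hA0
        linarith
      linarith
    intro p q
    rw [abs_le]
    have h1 := hone p q
    have h2 := hone q p
    rw [norm_sub_rev] at h2
    constructor <;> linarith
  · intro z hz
    rw [abs_le]
    have h1 := hle z ⟨z, hz⟩
    simp only [sub_self, norm_zero, mul_zero, add_zero] at h1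
    constructor
    · have h2 : φ z - η ≤ ψ z := by
        apply le_ciInf
        intro w
        rcases lt_or_ge (dist z w) δ with h3 | h3
        · have h4 := hd z hz w w.2 h3
          rw [Real.dist_eq] at h4
          have h5 := (abs_lt.1 h4).2
          have h6 : 0 ≤ A * ‖z - (w : E)‖ := by positivity
          linarith
        · rw [dist_eq_norm] at h3
          have h4 : 2 * B ≤ A * ‖z - (w : E)‖ := by
            rw [hA, div_mul_eq_mul_div, le_div_iff₀ hδ]
            gcongr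
          have h5 := (abs_le.1 (hB w w.2)).1
          have h6 := (abs_le.1 (hB z hz)).2
          linarith
      linarith
    · linarith

/-- The continuous weights. -/
structure CW (M : Fin k → Matrix (Fin n) (Fin m) ℤ) (Φ : (Fin n → ℝ) → (Fin m → ℝ) → ℝ)
    (R : ℝ) : Prop where
  R4 : 4 ≤ R
  cont : ContinuousOn (fun p : (Fin n → ℝ) × (Fin m → ℝ) => Φ p.1 p.2) {p | Inc M p.1 p.2}
  supp1 : ∀ X Y, Inc M X Y → R < ‖X‖ → Φ X Y = 0
  supp2 : ∀ X Y, Inc M X Y → R < ‖Y‖ → Φ X Y = 0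
  le_one : ∀ X Y, |Φ X Y| ≤ 1

theorem inc_smul {R : Type*} [CommRing R] {x : Fin n → R} {y : Fin m → R} (h : Inc M x y)
    (s t : R) : Inc M (s • x) (t • y) := by
  intro i
  have h1 : cv M (t • y) i = t • cv M y i := by
    unfold cv
    rw [mulVec_smul]
  rw [h1, dotProduct_smul, smul_dotProduct, h i, smul_zero, smul_zero]

theorem NN_radius {Φ : (Fin n → ℝ) → (Fin m → ℝ) → ℝ} {R R' : ℝ} (hR : 0 ≤ R) (hRR : R ≤ R')
    (h1 : ∀ X Y, Inc M X Y → R < ‖X‖ → Φ X Y = 0) (h2 : ∀ X Y, Inc M X Y → R < ‖Y‖ → Φ X Y = 0)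
    {q : ℕ} {α : Fin n → ℤ} {β : Fin m → ℤ} {K L : ℝ} (hK : 0 < K) (hL : 0 < L) :
    NN M Φ q α β R K L = NN M Φ q α β R' K L := by
  classical
  have hR' : 0 ≤ R' := hR.trans hRR
  unfold NN
  apply Finset.sum_subset
  · intro p hp
    rw [mem_PU (by positivity) (by positivity)] at hp ⊢
    exact ⟨hp.1.trans (by gcongr), hp.2.1.trans (by gcongr), hp.2.2⟩
  · intro p hp hp'
    rw [mem_PU (by positivity) (by positivity)] at hp hp'
    split_ifs
    · have hi := inc_smul (inc_ic hp.2.2.1) K⁻¹ L⁻¹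
      by_cases h3 : ‖ic p.1‖ ≤ R * K
      · by_cases h4 : ‖ic p.2‖ ≤ R * L
        · exact absurd ⟨h3, h4, hp.2.2⟩ hp'
        · apply h2 _ _ hi
          rw [norm_smul, norm_inv, Real.norm_of_nonneg hL.le, ← div_eq_inv_mul, lt_div_iff₀ hL]
          exact not_le.1 h4
      · apply h1 _ _ hi
        rw [norm_smul, norm_inv, Real.norm_of_nonneg hK.le, ← div_eq_inv_mul, lt_div_iff₀ hK]
        exact not_le.1 h3
    · rfl

theorem inc_closed : IsClosed {p : (Fin n → ℝ) × (Fin m → ℝ) | Inc M p.1 p.2} := by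
  have h1 : {p : (Fin n → ℝ) × (Fin m → ℝ) | Inc M p.1 p.2} =
      ⋂ i : Fin k, {p : (Fin n → ℝ) × (Fin m → ℝ) | p.1 ⬝ᵥ cv M p.2 i = 0} := by
    ext p
    rw [Set.mem_iInter]
    rfl
  rw [h1]
  refine isClosed_iInter fun i => ?_
  refine isClosed_eq ?_ continuous_const
  have h2 : ∀ l, Continuous fun y : Fin m → ℝ => cv M y i l := by
    intro l
    unfold cv
    change Continuous fun y : Fin m → ℝ => ∑ l', _ * y l'
    exact continuous_finsetSum _ fun l' _ => continuous_const.mul (continuous_apply l')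
  change Continuous fun p : (Fin n → ℝ) × (Fin m → ℝ) => ∑ l, p.1 l * cv M p.2 i l
  exact continuous_finsetSum _ fun l _ => ((continuous_apply l).comp continuous_fst).mul
    ((h2 l).comp continuous_snd)

/-- Approximation of a continuous weight. -/
theorem CW.approx {Φ : (Fin n → ℝ) → (Fin m → ℝ) → ℝ} {R : ℝ} (h : CW M Φ R) {η : ℝ}
    (hη : 0 < η) : ∃ (A : ℝ) (Ψ : (Fin n → ℝ) → (Fin m → ℝ) → ℝ), WT M Ψ A (2 * R) ∧
      ∀ X Y, Inc M X Y → |Φ X Y - Ψ X Y| ≤ η := by
  have hR4 := h.R4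
  have hR0 : 0 < R := by linarith
  set Z : Set ((Fin n → ℝ) × (Fin m → ℝ)) :=
    {p | Inc M p.1 p.2} ∩ Metric.closedBall 0 (2 * R) with hZ
  have hZc : IsCompact Z := (isCompact_closedBall _ _).inter_left inc_closed
  have hZn : Z.Nonempty := by
    refine ⟨0, ?_, Metric.mem_closedBall_self (by positivity)⟩
    intro i
    rw [Prod.fst_zero, zero_dotProduct]
  obtain ⟨A, ψ, hA, hlip, hap⟩ := lip_approx hZc hZn (h.cont.mono Set.inter_subset_left) hη
  set ψ' : (Fin n → ℝ) × (Fin m → ℝ) → ℝ := fun p => max (-1) (min 1 (ψ p)) with hψ'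
  have hψ'1 : ∀ p, |ψ' p| ≤ 1 := by
    intro p
    rw [abs_le]
    exact ⟨le_max_left _ _, max_le (by norm_num) (min_le_left _ _)⟩
  have hψ'l : ∀ p q, |ψ' p - ψ' q| ≤ A * ‖p - q‖ := by
    intro p q
    have h1 : |ψ' p - ψ' q| ≤ |ψ p - ψ q| := by
      simp only [hψ']
      rw [max_comm (-1), max_comm (-1)]
      have e1 := abs_max_sub_max_le_abs (min 1 (ψ p)) (min 1 (ψ q)) (-1)
      refine e1.trans ?_
      have e2 := abs_min_sub_min_le_max 1 (ψ p) 1 (ψ q)
      rw [sub_self, abs_zero, max_eq_right (abs_nonneg _)] at e2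
      exact e2
    exact h1.trans (hlip p q)
  have hψ'a : ∀ z ∈ Z, |ψ' z - Φ z.1 z.2| ≤ η := by
    intro z hz
    have e1 := hap z hz
    have e2 := h.le_one z.1 z.2
    simp only [hψ']
    rw [abs_le] at e1 e2 ⊢
    constructor
    · have : Φ z.1 z.2 - η ≤ min 1 (ψ z) := le_min (by linarith) (by linarith)
      have := le_max_right (-1) (min 1 (ψ z))
      linarith
    · have : max (-1) (min 1 (ψ z)) ≤ Φ z.1 z.2 + η :=
        max_le (by linarith) ((min_le_right _ _).trans (by linarith))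
      linarith
  set Ψ : (Fin n → ℝ) → (Fin m → ℝ) → ℝ := fun X Y => ψ' (X, Y) * (chi (‖X‖ / R) * chi (‖Y‖ / R))
    with hΨ
  have hchl : ∀ {N : ℕ} (X X' : Fin N → ℝ), |chi (‖X‖ / R) - chi (‖X'‖ / R)| ≤ ‖X - X'‖ := by
    intro N X X'
    refine (chi_lip _ _).trans ?_
    rw [← sub_div, abs_div, abs_of_pos hR0]
    refine le_trans ?_ (norm_lip X X')
    exact div_le_self (abs_nonneg _) (by linarith)
  refine ⟨A + 1, Ψ, ⟨by positivity, by linarith, ?_, ?_, ?_, ?_, ?_⟩, ?_⟩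
  · intro X X' Y _ _
    simp only [hΨ]
    have e1 : ψ' (X, Y) * (chi (‖X‖ / R) * chi (‖Y‖ / R)) -
        ψ' (X', Y) * (chi (‖X'‖ / R) * chi (‖Y‖ / R)) =
        ((ψ' (X, Y) - ψ' (X', Y)) * chi (‖X‖ / R) +
          ψ' (X', Y) * (chi (‖X‖ / R) - chi (‖X'‖ / R))) * chi (‖Y‖ / R) := by ring
    rw [e1, abs_mul, abs_of_nonneg (chi_nonneg (‖Y‖ / R))]
    have e2 : |ψ' (X, Y) - ψ' (X', Y)| ≤ A * ‖X - X'‖ := by
      refine (hψ'l _ _).trans (le_of_eq ?_)
      rw [Prod.mk_sub_mk, sub_self, Prod.norm_def]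
      simp
    have e3 : |(ψ' (X, Y) - ψ' (X', Y)) * chi (‖X‖ / R) +
          ψ' (X', Y) * (chi (‖X‖ / R) - chi (‖X'‖ / R))| ≤ (A + 1) * ‖X - X'‖ := by
      refine (abs_add_le _ _).trans ?_
      rw [abs_mul, abs_mul, abs_of_nonneg (chi_nonneg _)]
      calc |ψ' (X, Y) - ψ' (X', Y)| * chi (‖X‖ / R) +
            |ψ' (X', Y)| * |chi (‖X‖ / R) - chi (‖X'‖ / R)|
          ≤ (A * ‖X - X'‖) * 1 + 1 * ‖X - X'‖ := by
            gcongr
            · exact chi_nonneg _
            · exact chi_le_one _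
            · exact hψ'1 _
            · exact hchl X X'
        _ = _ := by ring
    calc _ ≤ (A + 1) * ‖X - X'‖ * 1 := by
          gcongr
          · exact chi_nonneg _
          · exact chi_le_one _
      _ = _ := mul_one _
  · intro X Y Y' _ _
    simp only [hΨ]
    have e1 : ψ' (X, Y) * (chi (‖X‖ / R) * chi (‖Y‖ / R)) -
        ψ' (X, Y') * (chi (‖X‖ / R) * chi (‖Y'‖ / R)) =
        ((ψ' (X, Y) - ψ' (X, Y')) * chi (‖Y‖ / R) +
          ψ' (X, Y') * (chi (‖Y‖ / R) - chi (‖Y'‖ / R))) * chi (‖X‖ / R) := by ring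
    rw [e1, abs_mul, abs_of_nonneg (chi_nonneg (‖X‖ / R))]
    have e2 : |ψ' (X, Y) - ψ' (X, Y')| ≤ A * ‖Y - Y'‖ := by
      refine (hψ'l _ _).trans (le_of_eq ?_)
      rw [Prod.mk_sub_mk, sub_self, Prod.norm_def]
      simp
    have e3 : |(ψ' (X, Y) - ψ' (X, Y')) * chi (‖Y‖ / R) +
          ψ' (X, Y') * (chi (‖Y‖ / R) - chi (‖Y'‖ / R))| ≤ (A + 1) * ‖Y - Y'‖ := by
      refine (abs_add_le _ _).trans ?_
      rw [abs_mul, abs_mul, abs_of_nonneg (chi_nonneg _)]
      calc |ψ' (X, Y) - ψ' (X, Y')| * chi (‖Y‖ / R) +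
            |ψ' (X, Y')| * |chi (‖Y‖ / R) - chi (‖Y'‖ / R)|
          ≤ (A * ‖Y - Y'‖) * 1 + 1 * ‖Y - Y'‖ := by
            gcongr
            · exact chi_nonneg _
            · exact chi_le_one _
            · exact hψ'1 _
            · exact hchl Y Y'
        _ = _ := by ring
    calc _ ≤ (A + 1) * ‖Y - Y'‖ * 1 := by
          gcongr
          · exact chi_nonneg _
          · exact chi_le_one _
      _ = _ := mul_one _
  · intro X Y _ hX
    simp only [hΨ]
    rw [chi_zero (by rw [le_div_iff₀ hR0]; linarith), zero_mul, mul_zero]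
  · intro X Y _ hY
    simp only [hΨ]
    rw [chi_zero (t := ‖Y‖ / R) (by rw [le_div_iff₀ hR0]; linarith), mul_zero, mul_zero]
  · intro X Y
    simp only [hΨ]
    rw [abs_mul, abs_of_nonneg (mul_nonneg (chi_nonneg _) (chi_nonneg _))]
    exact mul_le_one₀ (hψ'1 _) (mul_nonneg (chi_nonneg _) (chi_nonneg _))
      (mul_le_one₀ (chi_le_one _) (chi_nonneg _) (chi_le_one _))
  · intro X Y hXY
    simp only [hΨ]
    by_cases hZ' : (X, Y) ∈ Z
    · have e1 := hψ'a _ hZ'
      simp only at e1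
      rcases le_or_gt ‖X‖ R with hX | hX
      · rcases le_or_gt ‖Y‖ R with hY | hY
        · rw [chi_one (by rw [div_le_one hR0]; exact hX), chi_one (by rw [div_le_one hR0]; exact hY),
            mul_one, mul_one, abs_sub_comm]
          exact e1
        · rw [h.supp2 X Y hXY hY] at e1 ⊢
          rw [sub_zero] at e1
          rw [zero_sub, abs_neg, abs_mul, abs_of_nonneg (mul_nonneg (chi_nonneg _) (chi_nonneg _))]
          calc _ ≤ η * 1 := by
                gcongr
                · exact mul_nonneg (chi_nonneg _) (chi_nonneg _)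
                · exact mul_le_one₀ (chi_le_one _) (chi_nonneg _) (chi_le_one _)
            _ = η := mul_one _
      · rw [h.supp1 X Y hXY hX] at e1 ⊢
        rw [sub_zero] at e1
        rw [zero_sub, abs_neg, abs_mul, abs_of_nonneg (mul_nonneg (chi_nonneg _) (chi_nonneg _))]
        calc _ ≤ η * 1 := by
              gcongr
              · exact mul_nonneg (chi_nonneg _) (chi_nonneg _)
              · exact mul_le_one₀ (chi_le_one _) (chi_nonneg _) (chi_le_one _)
          _ = η := mul_one _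
    · have e1 : ¬ (‖X‖ ≤ 2 * R ∧ ‖Y‖ ≤ 2 * R) := by
        rintro ⟨h1, h2⟩
        apply hZ'
        refine ⟨hXY, ?_⟩
        rw [Metric.mem_closedBall, dist_zero_right, Prod.norm_def]
        exact max_le h1 h2
      have e2 : chi (‖X‖ / R) * chi (‖Y‖ / R) = 0 := by
        by_cases h1 : ‖X‖ ≤ 2 * R
        · have h2 : 2 * R < ‖Y‖ := by
            by_contra hc
            exact e1 ⟨h1, not_lt.1 hc⟩
          rw [chi_zero (t := ‖Y‖ / R) (by rw [le_div_iff₀ hR0]; linarith), mul_zero]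
        · rw [chi_zero (t := ‖X‖ / R) (by rw [le_div_iff₀ hR0]; linarith), zero_mul]
      have e3 : Φ X Y = 0 := by
        by_cases h1 : ‖X‖ ≤ 2 * R
        · have h2 : 2 * R < ‖Y‖ := by
            by_contra hc
            exact e1 ⟨h1, not_lt.1 hc⟩
          exact h.supp2 X Y hXY (by linarith)
        · exact h.supp1 X Y hXY (by linarith)
      rw [e2, e3, mul_zero, sub_zero, abs_zero]
      exact hη.le

/-- **The limit for continuous weights.** -/
theorem CW_lim (hM : Smooth M) (hk : 1 ≤ k) (hn : 2 * k + 1 ≤ n) (hm : 2 * k + 1 ≤ m)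
    {Φ : (Fin n → ℝ) → (Fin m → ℝ) → ℝ} {R : ℝ} (hΦ : CW M Φ R) {q : ℕ} (hq : q ≠ 0)
    (α : Fin n → ℤ) (β : Fin m → ℤ) : ∃ c : ℝ, ∀ η : ℝ, 0 < η → ∃ K₀ : ℝ, 1 ≤ K₀ ∧
      ∀ K L : ℝ, K₀ ≤ K → K₀ ≤ L → |TT M Φ q α β R K L - c| ≤ η := by
  classical
  have hR4 := hΦ.R4
  have hR0 : 0 < R := by linarith
  obtain ⟨D, hD, hPU⟩ := PU_le hM hk hn hm
  have hD0 : 0 < D := by linarith
  obtain ⟨E, hE⟩ : ∃ E : ℝ, E = D * (2 * R) ^ (n - k) * (2 * R) ^ (m - k) := ⟨_, rfl⟩
  have hE0 : 0 < E := by rw [hE]; positivity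
  -- an interval
  have hint : ∀ η : ℝ, 0 < η → ∃ c K₀ : ℝ, 1 ≤ K₀ ∧ ∀ K L : ℝ, K₀ ≤ K → K₀ ≤ L →
      |TT M Φ q α β R K L - c| ≤ η := by
    intro η hη
    obtain ⟨A, Ψ, hWT, hap⟩ := hΦ.approx (η := η / (2 * E)) (by positivity)
    obtain ⟨c, C, hC, hlim⟩ := TT_lim hM hk hn hm hWT hq α β
    have htend : Tendsto (fun x : ℝ => C / x ^ th k) atTop (𝓝 0) :=
      Tendsto.div_atTop tendsto_const_nhds (tendsto_rpow_atTop (th_pos k))
    obtain ⟨K₁, hK₁⟩ := eventually_atTop.1 (htend.eventually (ge_mem_nhds (by positivity : (0 : ℝ) < η / 2)))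
    refine ⟨c, max 1 K₁, le_max_left _ _, ?_⟩
    intro K L hK hL
    have hK1 : 1 ≤ K := (le_max_left _ _).trans hK
    have hL1 : 1 ≤ L := (le_max_left _ _).trans hL
    have hK0 : 0 < K := by linarith
    have hL0 : 0 < L := by linarith
    have h1 := hlim K L hK1 hL1
    have h2 := hK₁ (min K L) (le_min ((le_max_right _ _).trans hK) ((le_max_right _ _).trans hL))
    have h3 : |TT M Φ q α β R K L - TT M Ψ q α β (2 * R) K L| ≤ η / 2 := by
      unfold TT
      rw [NN_radius hR0.le (by linarith : R ≤ 2 * R) hΦ.supp1 hΦ.supp2 hK0 hL0, ← sub_div, abs_div,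
        abs_of_pos (by positivity : 0 < K ^ (n - k) * L ^ (m - k)), div_le_iff₀ (by positivity)]
      unfold NN
      rw [← Finset.sum_sub_distrib]
      refine (Finset.abs_sum_le_sum_abs _ _).trans ?_
      have h4 : ∀ p ∈ PU M (2 * R * K) (2 * R * L),
          |(if Cg q p.1 α ∧ Cg q p.2 β then Φ (K⁻¹ • ic p.1) (L⁻¹ • ic p.2) else 0) -
          (if Cg q p.1 α ∧ Cg q p.2 β then Ψ (K⁻¹ • ic p.1) (L⁻¹ • ic p.2) else 0)| ≤
          η / (2 * E) := by
        intro p hp
        rw [mem_PU (by positivity) (by positivity)] at hp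
        split_ifs
        · exact hap _ _ (inc_smul (inc_ic hp.2.2.1) _ _)
        · rw [sub_zero, abs_zero]
          positivity
      refine (Finset.sum_le_sum h4).trans ?_
      rw [Finset.sum_const, nsmul_eq_mul]
      have h5 := hPU (2 * R * K) (2 * R * L) (by nlinarith) (by nlinarith)
      calc ((PU M (2 * R * K) (2 * R * L)).card : ℝ) * (η / (2 * E))
          ≤ (D * ((2 * R * K) ^ (n - k) * (2 * R * L) ^ (m - k))) * (η / (2 * E)) := by gcongr
        _ = η / 2 * (K ^ (n - k) * L ^ (m - k)) := by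
          have e1 : (2 * R * K) ^ (n - k) = (2 * R) ^ (n - k) * K ^ (n - k) := mul_pow _ _ _
          have e2 : (2 * R * L) ^ (m - k) = (2 * R) ^ (m - k) * L ^ (m - k) := mul_pow _ _ _
          have e3 : D * (2 * R) ^ (n - k) * (2 * R) ^ (m - k) / E = 1 := by
            rw [hE]
            exact div_self (by positivity)
          rw [e1, e2]
          calc _ = (D * (2 * R) ^ (n - k) * (2 * R) ^ (m - k) / E) *
                (η / 2 * (K ^ (n - k) * L ^ (m - k))) := by ring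
            _ = _ := by rw [e3, one_mul]
    have h6 := abs_sub_le (TT M Φ q α β R K L) (TT M Ψ q α β (2 * R) K L) c
    linarith
  -- the limit exists
  have hex : ∃ c : ℝ, Tendsto (fun x : ℝ => TT M Φ q α β R x x) atTop (𝓝 c) := by
    rw [← cauchy_map_iff_exists_tendsto, Metric.cauchy_iff]
    refine ⟨inferInstance, ?_⟩
    intro ε hε
    obtain ⟨c, K₀, hK₀, h⟩ := hint (ε / 3) (by positivity)
    refine ⟨Metric.closedBall c (ε / 3), ?_, ?_⟩
    · rw [Filter.mem_map]
      filter_upwards [eventually_ge_atTop K₀] with x hx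
      rw [Set.mem_preimage, Metric.mem_closedBall, Real.dist_eq]
      exact h x x hx hx
    · intro x hx y hy
      rw [Metric.mem_closedBall, Real.dist_eq] at hx hy
      rw [Real.dist_eq]
      have := abs_sub_le x c y
      rw [abs_sub_comm c y] at this
      linarith
  obtain ⟨c, hc⟩ := hex
  refine ⟨c, ?_⟩
  intro η hη
  obtain ⟨c', K₀, hK₀, h⟩ := hint (η / 2) (by positivity)
  refine ⟨K₀, hK₀, ?_⟩
  intro K L hK hL
  have h1 : |c - c'| ≤ η / 2 := by
    apply le_of_tendsto ((hc.sub_const c').abs)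
    filter_upwards [eventually_ge_atTop K₀] with x hx
    exact h x x hx hx
  have h2 := h K L hK hL
  have h3 := abs_sub_le (TT M Φ q α β R K L) c' c
  rw [abs_sub_comm c' c] at h3
  linarith

end Pool.Agent.N852.DD
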