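import Mathlib
import Pool.Agent.N852.DD.Lim
import Pool.Agent.N852.Loc

/-!
Local metrics.
-/

namespace Pool.Agent.N852.DD

open Matrix Module Filter Topology
open Pool.Agent.N852 (ic ic_add ic_sub ic_neg Cg om om_nonneg om_le_one om_one om_zero om_cont)

variable {k n m : ℕ}

/-- A local metric on the line bundle of bidegree `(n - k, m - k)` of the variety `X`. -/
structure LM {K : Type*} [NormedField K] (M : Fin k → Matrix (Fin n) (Fin m) ℤ)
    (h : (Fin n → K) → (Fin m → K) → ℝ) : Prop where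
  pos : ∀ x y, x ≠ 0 → y ≠ 0 → Inc M x y → 0 < h x y
  cont : ContinuousOn (fun p : (Fin n → K) × (Fin m → K) => h p.1 p.2)
    {p | p.1 ≠ 0 ∧ p.2 ≠ 0 ∧ Inc M p.1 p.2}
  homog : ∀ (s t : K) x y, s ≠ 0 → t ≠ 0 → x ≠ 0 → y ≠ 0 → Inc M x y →
    h (s • x) (t • y) = ‖s‖ ^ (n - k) * ‖t‖ ^ (m - k) * h x y

/-- The pairs of unit vectors. -/
def UU {K : Type*} [NormedField K] (M : Fin k → Matrix (Fin n) (Fin m) ℤ) :
    Set ((Fin n → K) × (Fin m → K)) :=
  {p | ‖p.1‖ = 1 ∧ ‖p.2‖ = 1 ∧ Inc M p.1 p.2}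

theorem inc_closed' {K : Type*} [NormedField K] (M : Fin k → Matrix (Fin n) (Fin m) ℤ) :
    IsClosed {p : (Fin n → K) × (Fin m → K) | Inc M p.1 p.2} := by
  have h1 : {p : (Fin n → K) × (Fin m → K) | Inc M p.1 p.2} =
      ⋂ i : Fin k, {p : (Fin n → K) × (Fin m → K) | p.1 ⬝ᵥ cv M p.2 i = 0} := by
    ext p
    rw [Set.mem_iInter]
    rfl
  rw [h1]
  refine isClosed_iInter fun i => ?_
  refine isClosed_eq ?_ continuous_const
  have h2 : ∀ l, Continuous fun y : Fin m → K => cv M y i l := by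
    intro l
    unfold cv
    change Continuous fun y : Fin m → K => ∑ l', _ * y l'
    exact continuous_finsetSum _ fun l' _ => continuous_const.mul (continuous_apply l')
  change Continuous fun p : (Fin n → K) × (Fin m → K) => ∑ l, p.1 l * cv M p.2 i l
  exact continuous_finsetSum _ fun l _ => ((continuous_apply l).comp continuous_fst).mul
    ((h2 l).comp continuous_snd)

theorem UU_compact {K : Type*} [NormedField K] [ProperSpace K]
    (M : Fin k → Matrix (Fin n) (Fin m) ℤ) : IsCompact (UU (K := K) M) := by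
  apply Metric.isCompact_of_isClosed_isBounded
  · unfold UU
    refine (isClosed_eq continuous_fst.norm continuous_const).inter
      ((isClosed_eq continuous_snd.norm continuous_const).inter (inc_closed' M))
  · apply (Metric.isBounded_closedBall (x := (0 : (Fin n → K) × (Fin m → K))) (r := 1)).subset
    rintro ⟨x, y⟩ ⟨hx, hy, _⟩
    rw [Metric.mem_closedBall, dist_zero_right, Prod.norm_def]
    exact max_le hx.le hy.le

theorem UU_sub {K : Type*} [NormedField K] (M : Fin k → Matrix (Fin n) (Fin m) ℤ) :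
    UU (K := K) M ⊆ {p | p.1 ≠ 0 ∧ p.2 ≠ 0 ∧ Inc M p.1 p.2} := by
  rintro ⟨x, y⟩ ⟨hx, hy, h⟩
  refine ⟨?_, ?_, h⟩
  · rintro rfl
    simp at hx
  · rintro rfl
    simp at hy

/-- Bounds on unit vectors. -/
theorem LM.bounds {K : Type*} [NormedField K] [ProperSpace K]
    {M : Fin k → Matrix (Fin n) (Fin m) ℤ} {h : (Fin n → K) → (Fin m → K) → ℝ} (hh : LM M h) :
    ∃ c C : ℝ, 0 < c ∧ 0 < C ∧ ∀ p ∈ UU (K := K) M, c ≤ h p.1 p.2 ∧ h p.1 p.2 ≤ C := by
  have h1 := hh.cont.mono (UU_sub M)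
  obtain ⟨C, hC⟩ := (UU_compact M).exists_bound_of_continuousOn h1
  have h2 : ContinuousOn (fun p : (Fin n → K) × (Fin m → K) => (h p.1 p.2)⁻¹) (UU M) :=
    h1.inv₀ fun p hp => (hh.pos _ _ (UU_sub M hp).1 (UU_sub M hp).2.1 (UU_sub M hp).2.2).ne'
  obtain ⟨D, hD⟩ := (UU_compact M).exists_bound_of_continuousOn h2
  refine ⟨(|D| + 1)⁻¹, |C| + 1, by positivity, by positivity, ?_⟩
  intro p hp
  have hpos := hh.pos _ _ (UU_sub M hp).1 (UU_sub M hp).2.1 (UU_sub M hp).2.2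
  have h3 := hC p hp
  have h4 := hD p hp
  rw [Real.norm_eq_abs, abs_of_pos hpos] at h3
  rw [Real.norm_eq_abs, abs_of_pos (inv_pos.2 hpos)] at h4
  constructor
  · rw [inv_le_comm₀ (by positivity) hpos]
    linarith [le_abs_self D]
  · linarith [le_abs_self C]

variable {M : Fin k → Matrix (Fin n) (Fin m) ℤ}

/-- Bounds for real vectors. -/
theorem LM.real_bounds {h : (Fin n → ℝ) → (Fin m → ℝ) → ℝ} (hh : LM M h) :
    ∃ c C : ℝ, 0 < c ∧ 0 < C ∧ ∀ x y, x ≠ 0 → y ≠ 0 → Inc M x y →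
      c * (‖x‖ ^ (n - k) * ‖y‖ ^ (m - k)) ≤ h x y ∧
      h x y ≤ C * (‖x‖ ^ (n - k) * ‖y‖ ^ (m - k)) := by
  obtain ⟨c, C, hc, hC, hb⟩ := hh.bounds
  refine ⟨c, C, hc, hC, ?_⟩
  intro x y hx hy hxy
  have hx0 : 0 < ‖x‖ := norm_pos_iff.2 hx
  have hy0 : 0 < ‖y‖ := norm_pos_iff.2 hy
  have hx1 : ‖x‖⁻¹ ≠ 0 := (inv_pos.2 hx0).ne'
  have hy1 : ‖y‖⁻¹ ≠ 0 := (inv_pos.2 hy0).ne'
  have h1 := hh.homog (‖x‖⁻¹) (‖y‖⁻¹) x y hx1 hy1 hx hy hxy
  rw [norm_inv, norm_inv, norm_norm, norm_norm] at h1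
  have h2 := hb (‖x‖⁻¹ • x, ‖y‖⁻¹ • y) ⟨by
    simp only
    rw [norm_smul, norm_inv, norm_norm, inv_mul_cancel₀ hx0.ne'], by
    simp only
    rw [norm_smul, norm_inv, norm_norm, inv_mul_cancel₀ hy0.ne'], inc_smul hxy _ _⟩
  simp only at h2
  rw [h1] at h2
  have h3 : ‖x‖⁻¹ ^ (n - k) * ‖y‖⁻¹ ^ (m - k) * h x y = h x y / (‖x‖ ^ (n - k) * ‖y‖ ^ (m - k)) := by
    rw [inv_pow, inv_pow]
    field_simp
  rw [h3, le_div_iff₀ (by positivity), div_le_iff₀ (by positivity)] at h2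
  exact h2

/-- The function, extended by zero. -/
noncomputable def hz (h : (Fin n → ℝ) → (Fin m → ℝ) → ℝ) (x : Fin n → ℝ) (w : Fin m → ℝ) : ℝ :=
  open Classical in if w = 0 then 0 else h x w

theorem hz_bounds {h : (Fin n → ℝ) → (Fin m → ℝ) → ℝ} (hh : LM M h) (hm : k < m) :
    ∃ c C : ℝ, 0 < c ∧ 0 < C ∧ ∀ x w, x ≠ 0 → Inc M x w →
      c * (‖x‖ ^ (n - k) * ‖w‖ ^ (m - k)) ≤ hz h x w ∧
      hz h x w ≤ C * (‖x‖ ^ (n - k) * ‖w‖ ^ (m - k)) := by
  obtain ⟨c, C, hc, hC, hb⟩ := hh.real_bounds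
  refine ⟨c, C, hc, hC, ?_⟩
  intro x w hx hxw
  unfold hz
  by_cases hw : w = 0
  · rw [if_pos hw, hw, norm_zero, zero_pow (by omega), mul_zero, mul_zero, mul_zero]
    exact ⟨le_rfl, le_rfl⟩
  · rw [if_neg hw]
    exact hb x w hx hw hxw

theorem hz_cont {h : (Fin n → ℝ) → (Fin m → ℝ) → ℝ} (hh : LM M h) (hm : k < m) :
    ContinuousOn (fun p : (Fin n → ℝ) × (Fin m → ℝ) => hz h p.1 p.2)
      {p | p.1 ≠ 0 ∧ Inc M p.1 p.2} := by
  obtain ⟨c, C, hc, hC, hb⟩ := hz_bounds hh hm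
  rintro ⟨x₀, w₀⟩ ⟨hx₀, hi₀⟩
  simp only at hx₀ hi₀
  by_cases hw : w₀ = 0
  · -- at the zero section
    have h0 : hz h x₀ w₀ = 0 := by
      unfold hz
      rw [if_pos hw]
    change Tendsto (fun p : (Fin n → ℝ) × (Fin m → ℝ) => hz h p.1 p.2) _ (𝓝 (hz h x₀ w₀))
    rw [h0]
    have h1 : Tendsto (fun p : (Fin n → ℝ) × (Fin m → ℝ) => C * (‖p.1‖ ^ (n - k) * ‖p.2‖ ^ (m - k)))
        (𝓝[{p | p.1 ≠ 0 ∧ Inc M p.1 p.2}] (x₀, w₀)) (𝓝 0) := by
      have h2 : Continuous fun p : (Fin n → ℝ) × (Fin m → ℝ) =>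
          C * (‖p.1‖ ^ (n - k) * ‖p.2‖ ^ (m - k)) :=
        continuous_const.mul ((continuous_fst.norm.pow _).mul (continuous_snd.norm.pow _))
      have h3 := (h2.tendsto (x₀, w₀)).mono_left
        (nhdsWithin_le_nhds (s := {p : (Fin n → ℝ) × (Fin m → ℝ) | p.1 ≠ 0 ∧ Inc M p.1 p.2}))
      simp only [hw, norm_zero] at h3
      rw [zero_pow (by omega), mul_zero, mul_zero] at h3
      rw [hw]
      exact h3
    apply squeeze_zero' _ _ h1
    · filter_upwards [self_mem_nhdsWithin] with p hp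
      have h2 := (hb p.1 p.2 hp.1 hp.2).1
      exact le_trans (by positivity) h2
    · filter_upwards [self_mem_nhdsWithin] with p hp
      exact (hb p.1 p.2 hp.1 hp.2).2
  · have h1 : ContinuousWithinAt (fun p : (Fin n → ℝ) × (Fin m → ℝ) => h p.1 p.2)
        {p | p.1 ≠ 0 ∧ p.2 ≠ 0 ∧ Inc M p.1 p.2} (x₀, w₀) := hh.cont (x₀, w₀) ⟨hx₀, hw, hi₀⟩
    have hopen : {p : (Fin n → ℝ) × (Fin m → ℝ) | p.2 ≠ 0} ∈ 𝓝 (x₀, w₀) :=
      (isOpen_ne_fun continuous_snd continuous_const).mem_nhds hw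
    have h2 : ContinuousWithinAt (fun p : (Fin n → ℝ) × (Fin m → ℝ) => h p.1 p.2)
        ({p | p.1 ≠ 0 ∧ Inc M p.1 p.2} ∩ {p | p.2 ≠ 0}) (x₀, w₀) := by
      apply h1.mono
      rintro p ⟨⟨h3, h4⟩, h5⟩
      exact ⟨h3, h5, h4⟩
    rw [continuousWithinAt_inter hopen] at h2
    apply h2.congr_of_eventuallyEq
    · filter_upwards [mem_nhdsWithin_of_mem_nhds hopen] with p hp
      unfold hz
      exact if_neg hp
    · unfold hz
      exact if_neg hw

/-! ### The dyadic decomposition -/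

/-- The function of the partition of unity. -/
noncomputable def ph (t : ℝ) : ℝ := chi t - chi (2 * t)

theorem chi_anti {s t : ℝ} (h : s ≤ t) : chi t ≤ chi s := by
  unfold chi
  gcongr

theorem chi_cont : Continuous chi := by
  unfold chi
  exact continuous_const.max (continuous_const.min (continuous_const.sub continuous_id))

theorem ph_nonneg {t : ℝ} (h : 0 ≤ t) : 0 ≤ ph t := by
  unfold ph
  have := chi_anti (by linarith : t ≤ 2 * t)
  linarith

theorem ph_le_one (t : ℝ) : ph t ≤ 1 := by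
  unfold ph
  have h1 := chi_nonneg (2 * t)
  have h2 := chi_le_one t
  linarith

theorem ph_large {t : ℝ} (h : 2 ≤ t) : ph t = 0 := by
  unfold ph
  rw [chi_zero h, chi_zero (by linarith), sub_zero]

theorem ph_small {t : ℝ} (h : t ≤ 1 / 2) : ph t = 0 := by
  unfold ph
  rw [chi_one (by linarith), chi_one (by linarith), sub_self]

theorem ph_cont : Continuous ph := by
  unfold ph
  exact chi_cont.sub (chi_cont.comp (continuous_const.mul continuous_id))

theorem ph_sum {t : ℝ} (ht : 1 ≤ t) {I : ℕ} (hI : t ≤ 2 ^ I) :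
    ∑ i ∈ Finset.range (I + 1), ph (t / 2 ^ i) = 1 := by
  have h1 : ∀ J : ℕ, ∑ i ∈ Finset.range (J + 1), ph (t / 2 ^ i) = chi (t / 2 ^ J) - chi (2 * t) := by
    intro J
    induction J with
    | zero =>
      rw [Finset.sum_range_one, pow_zero, div_one]
      rfl
    | succ J ih =>
      rw [Finset.sum_range_succ, ih]
      unfold ph
      have : 2 * (t / 2 ^ (J + 1)) = t / 2 ^ J := by
        rw [pow_succ]
        field_simp
      rw [this]
      ring
  rw [h1, chi_zero (t := 2 * t) (by linarith),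
    chi_one (by rw [div_le_one (by positivity)]; exact hI), sub_zero]

/-- The weight of a block. -/
noncomputable def PhW (h : (Fin n → ℝ) → (Fin m → ℝ) → ℝ) (κ ε : ℝ) (X : Fin n → ℝ)
    (Y : Fin m → ℝ) : ℝ := ph ‖X‖ * om ε (κ * hz h X Y)

theorem PhW_CW {h : (Fin n → ℝ) → (Fin m → ℝ) → ℝ} (hh : LM M h) (hm : k < m) {c : ℝ} (hc : 0 < c)
    (hcb : ∀ x w, x ≠ 0 → Inc M x w → c * (‖x‖ ^ (n - k) * ‖w‖ ^ (m - k)) ≤ hz h x w)
    {κ ε R : ℝ} (hκ : 0 < κ) (hε : 0 < ε) (hR : 4 ≤ R)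
    (hRκ : 1 + ε ≤ κ * (c * ((1 / 2) ^ (n - k) * R ^ (m - k)))) :
    CW M (PhW h κ ε) R := by
  refine ⟨hR, ?_, ?_, ?_, ?_⟩
  · rintro ⟨x₀, w₀⟩ hi₀
    rw [Set.mem_ofPred_eq] at hi₀
    simp only at hi₀
    by_cases hx : ‖x₀‖ < 1 / 2
    · have h1 : {p : (Fin n → ℝ) × (Fin m → ℝ) | ‖p.1‖ < 1 / 2} ∈ 𝓝 (x₀, w₀) :=
        (isOpen_lt continuous_fst.norm continuous_const).mem_nhds hx
      have h2 : (fun p : (Fin n → ℝ) × (Fin m → ℝ) => PhW h κ ε p.1 p.2) =ᶠ[𝓝[{p | Inc M p.1 p.2}]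
          (x₀, w₀)] fun _ => 0 := by
        filter_upwards [mem_nhdsWithin_of_mem_nhds h1] with p hp
        unfold PhW
        rw [ph_small (le_of_lt hp), zero_mul]
      apply (continuousWithinAt_const (b := (0 : ℝ))).congr_of_eventuallyEq h2
      unfold PhW
      simp only
      rw [ph_small hx.le, zero_mul]
    · have hx0 : x₀ ≠ 0 := by
        rintro rfl
        rw [norm_zero] at hx
        apply hx
        norm_num
      unfold PhW
      apply ContinuousWithinAt.mul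
      · exact (ph_cont.comp continuous_fst.norm).continuousWithinAt
      · have h1 := hz_cont hh hm (x₀, w₀) ⟨hx0, hi₀⟩
        have hopen : {p : (Fin n → ℝ) × (Fin m → ℝ) | p.1 ≠ 0} ∈ 𝓝 (x₀, w₀) :=
          (isOpen_ne_fun continuous_fst continuous_const).mem_nhds hx0
        have h2 : ContinuousWithinAt (fun p : (Fin n → ℝ) × (Fin m → ℝ) => hz h p.1 p.2)
            ({p | Inc M p.1 p.2} ∩ {p | p.1 ≠ 0}) (x₀, w₀) := by
          apply h1.mono
          rintro p ⟨h3, h4⟩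
          exact ⟨h4, h3⟩
        rw [continuousWithinAt_inter hopen] at h2
        exact (om_cont ε).continuousAt.comp_continuousWithinAt (continuousWithinAt_const.mul h2)
  · intro X Y _ hX
    unfold PhW
    rw [ph_large (by linarith), zero_mul]
  · intro X Y hXY hY
    unfold PhW
    rcases le_or_gt ‖X‖ (1 / 2) with hX | hX
    · rw [ph_small hX, zero_mul]
    · have hX0 : X ≠ 0 := by
        rintro rfl
        rw [norm_zero] at hX
        norm_num at hX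
      rw [om_zero hε, mul_zero]
      refine hRκ.trans ?_
      apply mul_le_mul_of_nonneg_left _ hκ.le
      refine le_trans ?_ (hcb X Y hX0 hXY)
      gcongr
  · intro X Y
    unfold PhW
    rw [abs_of_nonneg (mul_nonneg (ph_nonneg (norm_nonneg _)) (om_nonneg _ _))]
    exact mul_le_one₀ (ph_le_one _) (om_nonneg _ _) (om_le_one _ _)

end Pool.Agent.N852.DD
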