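import Mathlib
import Pool.Agent.N852.DD.Met

/-!
The sums over the hyperbolic region.
-/

namespace Pool.Agent.N852.DD

open Matrix Module Filter Topology
open Pool.Agent.N852 (ic ic_add ic_sub ic_neg Cg om om_nonneg om_le_one om_one om_zero om_cont)

variable {k n m : ℕ} {M : Fin k → Matrix (Fin n) (Fin m) ℤ}

/-- The basic height. -/
noncomputable def HH (k : ℕ) (p : (Fin n → ℤ) × (Fin m → ℤ)) : ℝ :=
  ‖ic p.1‖ ^ (n - k) * ‖ic p.2‖ ^ (m - k)

open Classical in
/-- The pairs of bounded height. -/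
noncomputable def FU (M : Fin k → Matrix (Fin n) (Fin m) ℤ) (T : ℝ) :
    Finset ((Fin n → ℤ) × (Fin m → ℤ)) :=
  (PU M T T).filter fun p => HH k p ≤ T

theorem jj_ne (hk : 1 ≤ k) {x : Fin n → ℤ} (h : jj M x = 0) : x ≠ 0 := by
  rintro rfl
  have := jj_zero (M := M) hk
  omega

theorem mem_FU (hk : 1 ≤ k) (hn : k < n) (hm : k < m) {T : ℝ} (hT : 0 ≤ T)
    {p : (Fin n → ℤ) × (Fin m → ℤ)} :
    p ∈ FU M T ↔ Inc M p.1 p.2 ∧ jj M p.1 = 0 ∧ jj (tr M) p.2 = 0 ∧ HH k p ≤ T := by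
  unfold FU
  rw [Finset.mem_filter, mem_PU hT hT]
  constructor
  · rintro ⟨⟨-, -, h1, h2, h3⟩, h4⟩
    exact ⟨h1, h2, h3, h4⟩
  · rintro ⟨h1, h2, h3, h4⟩
    have e1 := norm_ic_ge (jj_ne hk h2)
    have e2 := norm_ic_ge (jj_ne hk h3)
    have e3 : ‖ic p.1‖ ≤ ‖ic p.1‖ ^ (n - k) := le_self_pow₀ e1 (by omega)
    have e4 : ‖ic p.2‖ ≤ ‖ic p.2‖ ^ (m - k) := le_self_pow₀ e2 (by omega)
    unfold HH at h4
    refine ⟨⟨?_, ?_, h1, h2, h3⟩, h4⟩
    · nlinarith
    · nlinarith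

theorem ic_ne {x : Fin n → ℤ} (hx : x ≠ 0) : ic x ≠ 0 := by
  intro h
  have := norm_ic_ge hx
  rw [h, norm_zero] at this
  linarith

/-- The second scale of a block. -/
noncomputable def Lb (a b : ℕ) (T : ℝ) (i : ℕ) : ℝ := (T / (2 ^ i) ^ a) ^ (1 / (b : ℝ))

theorem Lb_pow {a b : ℕ} (hb : b ≠ 0) {T : ℝ} (hT : 0 ≤ T) (i : ℕ) :
    (Lb a b T i) ^ b = T / (2 ^ i) ^ a := by
  unfold Lb
  rw [← Real.rpow_natCast, ← Real.rpow_mul (by positivity), one_div,
    inv_mul_cancel₀ (by exact_mod_cast hb), Real.rpow_one]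

theorem Lb_pos {a b : ℕ} {T : ℝ} (hT : 0 < T) (i : ℕ) : 0 < Lb a b T i := by
  unfold Lb
  positivity

theorem Lb_prod {a b : ℕ} (hb : b ≠ 0) {T : ℝ} (hT : 0 ≤ T) (i : ℕ) :
    (2 ^ i) ^ a * (Lb a b T i) ^ b = T := by
  rw [Lb_pow hb hT]
  field_simp

open Classical in
/-- The weighted number of pairs. -/
noncomputable def WW (M : Fin k → Matrix (Fin n) (Fin m) ℤ) (h : (Fin n → ℝ) → (Fin m → ℝ) → ℝ)
    (κ ε : ℝ) (q : ℕ) (α : Fin n → ℤ) (β : Fin m → ℤ) (R T : ℝ) : ℝ :=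
  ∑ p ∈ FU M (R * T), if Cg q p.1 α ∧ Cg q p.2 β then om ε (κ * (h (ic p.1) (ic p.2) / T)) else 0

theorem PhW_eq {h : (Fin n → ℝ) → (Fin m → ℝ) → ℝ} (hh : LM M h) (hk : 1 ≤ k) (hm : k < m)
    {κ ε : ℝ} {p : (Fin n → ℤ) × (Fin m → ℤ)} (hi : Inc M p.1 p.2) (h1 : jj M p.1 = 0)
    (h2 : jj (tr M) p.2 = 0) {T : ℝ} (hT : 0 < T) (i : ℕ) :
    PhW h κ ε ((2 ^ i : ℝ)⁻¹ • ic p.1) ((Lb (n - k) (m - k) T i)⁻¹ • ic p.2) =
      ph (‖ic p.1‖ / 2 ^ i) * om ε (κ * (h (ic p.1) (ic p.2) / T)) := by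
  have hx := ic_ne (jj_ne hk h1)
  have hy := ic_ne (jj_ne hk h2)
  have hL := Lb_pos (a := n - k) (b := m - k) hT i
  have h2i : (0 : ℝ) < 2 ^ i := by positivity
  unfold PhW hz
  rw [if_neg (smul_ne_zero (inv_pos.2 hL).ne' hy),
    hh.homog _ _ _ _ (inv_pos.2 h2i).ne' (inv_pos.2 hL).ne' hx hy (inc_ic hi), norm_smul,
    Real.norm_of_nonneg (inv_pos.2 h2i).le, Real.norm_of_nonneg (inv_pos.2 hL).le]
  congr 2
  · rw [div_eq_inv_mul]
  · congr 1
    have h3 := Lb_prod (a := n - k) (b := m - k) (by omega) hT.le i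
    rw [inv_pow, inv_pow, ← mul_inv, h3, div_eq_inv_mul]

theorem blk_eq {h : (Fin n → ℝ) → (Fin m → ℝ) → ℝ} (hh : LM M h) (hk : 1 ≤ k) (hn : k < n)
    (hm : k < m) {c : ℝ}
    (hcb : ∀ x w, x ≠ 0 → Inc M x w → c * (‖x‖ ^ (n - k) * ‖w‖ ^ (m - k)) ≤ hz h x w)
    {κ ε R R' : ℝ} (hκ : 0 < κ) (hε : 0 < ε) (hc : 0 < c) (hR : 0 ≤ R) (hRc : 1 + ε ≤ κ * (c * R))
    (hCW : CW M (PhW h κ ε) R') {q : ℕ} (α : Fin n → ℤ) (β : Fin m → ℤ) {T : ℝ} (hT : 0 < T)
    (i : ℕ) : (open Classical in ∑ p ∈ FU M (R * T), if Cg q p.1 α ∧ Cg q p.2 β then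
      ph (‖ic p.1‖ / 2 ^ i) * om ε (κ * (h (ic p.1) (ic p.2) / T)) else 0) =
      NN M (PhW h κ ε) q α β R' (2 ^ i) (Lb (n - k) (m - k) T i) := by
  classical
  have hR' : 0 ≤ R' := by linarith [hCW.R4]
  have hL := Lb_pos (a := n - k) (b := m - k) hT i
  have h2i : (0 : ℝ) < 2 ^ i := by positivity
  have hRT : 0 ≤ R * T := by positivity
  unfold NN
  apply Finset.sum_congr_of_eq_on_inter
  · intro p hp hp'
    rw [mem_FU hk hn hm hRT] at hp
    rw [mem_PU (by positivity) (by positivity)] at hp'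
    split_ifs
    · rw [← PhW_eq hh hk hm hp.1 hp.2.1 hp.2.2.1 hT i]
      have hi := inc_smul (inc_ic hp.1) (2 ^ i : ℝ)⁻¹ (Lb (n - k) (m - k) T i)⁻¹
      by_cases h3 : ‖ic p.1‖ ≤ R' * 2 ^ i
      · by_cases h4 : ‖ic p.2‖ ≤ R' * Lb (n - k) (m - k) T i
        · exact absurd ⟨h3, h4, hp.1, hp.2.1, hp.2.2.1⟩ hp'
        · apply hCW.supp2 _ _ hi
          rw [norm_smul, norm_inv, Real.norm_of_nonneg hL.le, ← div_eq_inv_mul, lt_div_iff₀ hL]
          exact not_le.1 h4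
      · apply hCW.supp1 _ _ hi
        rw [norm_smul, norm_inv, Real.norm_of_nonneg h2i.le, ← div_eq_inv_mul, lt_div_iff₀ h2i]
        exact not_le.1 h3
    · rfl
  · intro p hp hp'
    rw [mem_PU (by positivity) (by positivity)] at hp
    rw [mem_FU hk hn hm hRT] at hp'
    obtain ⟨-, -, hi, h1, h2⟩ := hp
    split_ifs
    · rw [PhW_eq hh hk hm hi h1 h2 hT i]
      have h3 : R * T < HH k p := by
        by_contra hcon
        exact hp' ⟨hi, h1, h2, not_lt.1 hcon⟩
      have h4 := hcb (ic p.1) (ic p.2) (ic_ne (jj_ne hk h1)) (inc_ic hi)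
      unfold hz at h4
      rw [if_neg (ic_ne (jj_ne hk h2))] at h4
      rw [om_zero hε, mul_zero]
      refine hRc.trans ?_
      apply mul_le_mul_of_nonneg_left _ hκ.le
      rw [le_div_iff₀ hT]
      unfold HH at h3
      calc c * R * T = c * (R * T) := by ring
        _ ≤ c * (‖ic p.1‖ ^ (n - k) * ‖ic p.2‖ ^ (m - k)) := by gcongr
        _ ≤ _ := h4
    · rfl
  · intro p hp _
    rw [mem_FU hk hn hm hRT] at hp
    split_ifs
    · rw [PhW_eq hh hk hm hp.1 hp.2.1 hp.2.2.1 hT i]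
    · rfl

/-- The last block. -/
noncomputable def JT (a b : ℕ) (R T : ℝ) : ℕ := ⌊Real.logb 2 (R ^ b * T) / a⌋₊

theorem JT_lt {a b : ℕ} (ha : 0 < a) (hb : 0 < b) {R T : ℝ} (hR : 0 < R) (hT : 0 < T) {i : ℕ}
    (hi : JT a b R T < i) : R * Lb a b T i < 1 := by
  have ha0 : (0 : ℝ) < a := by exact_mod_cast ha
  have h1 : Real.logb 2 (R ^ b * T) / a < i := by
    unfold JT at hi
    exact Nat.lt_of_floor_lt hi
  rw [div_lt_iff₀ ha0] at h1
  have h2 : R ^ b * T < 2 ^ ((i : ℝ) * a) := by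
    rwa [← Real.logb_lt_iff_lt_rpow (by norm_num) (by positivity)]
  have h3 : (2 : ℝ) ^ ((i : ℝ) * a) = (2 ^ i) ^ a := by
    rw [Real.rpow_mul (by norm_num), Real.rpow_natCast, Real.rpow_natCast]
  rw [h3] at h2
  have h4 : (R * Lb a b T i) ^ b < 1 ^ b := by
    rw [mul_pow, Lb_pow hb.ne' hT.le, one_pow, ← mul_div_assoc, div_lt_one (by positivity)]
    exact h2
  exact lt_of_pow_lt_pow_left₀ b (by norm_num) h4

theorem JT_ge {a b : ℕ} (ha : 0 < a) {R T : ℝ} (hR : 0 < R) (hT : 1 ≤ R ^ b * T) {i : ℕ}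
    (hT0 : 0 < T) (hi : i ≤ JT a b R T) : (2 ^ i) ^ a ≤ R ^ b * T := by
  have ha0 : (0 : ℝ) < a := by exact_mod_cast ha
  have h0 : 0 ≤ Real.logb 2 (R ^ b * T) / a :=
    div_nonneg (Real.logb_nonneg (by norm_num) hT) ha0.le
  have h1 : (i : ℝ) ≤ Real.logb 2 (R ^ b * T) / a := by
    unfold JT at hi
    exact (Nat.le_floor_iff h0).1 hi
  rw [le_div_iff₀ ha0] at h1
  have h2 : 2 ^ ((i : ℝ) * a) ≤ R ^ b * T := by
    rwa [← Real.le_logb_iff_rpow_le (by norm_num) (by positivity)]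
  have h3 : (2 : ℝ) ^ ((i : ℝ) * a) = (2 ^ i) ^ a := by
    rw [Real.rpow_mul (by norm_num), Real.rpow_natCast, Real.rpow_natCast]
  rwa [h3] at h2

theorem JT_asymp {a b : ℕ} (ha : 0 < a) {R : ℝ} (hR : 0 < R) :
    Tendsto (fun T : ℝ => (JT a b R T : ℝ) / Real.log T) atTop (𝓝 (1 / (a * Real.log 2))) := by
  have ha0 : (0 : ℝ) < a := by exact_mod_cast ha
  have hl2 : 0 < Real.log 2 := Real.log_pos (by norm_num)
  set x : ℝ → ℝ := fun T => Real.logb 2 (R ^ b * T) / a with hx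
  have hx1 : Tendsto (fun T : ℝ => x T / Real.log T) atTop (𝓝 (1 / (a * Real.log 2))) := by
    have h1 : Tendsto (fun T : ℝ => Real.log (R ^ b) / Real.log T) atTop (𝓝 0) :=
      Tendsto.div_atTop tendsto_const_nhds Real.tendsto_log_atTop
    have h2 := (h1.add_const 1).div_const (a * Real.log 2)
    rw [zero_add] at h2
    apply h2.congr'
    filter_upwards [eventually_gt_atTop 1] with T hT
    have hlog : 0 < Real.log T := Real.log_pos hT
    simp only [hx]
    unfold Real.logb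
    rw [Real.log_mul (by positivity) (by positivity)]
    field_simp
  have hlog := Real.tendsto_log_atTop
  have hx2 : Tendsto x atTop atTop := by
    have h1 : Tendsto (fun T : ℝ => R ^ b * T) atTop atTop :=
      Tendsto.const_mul_atTop (by positivity) tendsto_id
    have h2 : Tendsto (fun T : ℝ => Real.log (R ^ b * T) / Real.log 2 / a) atTop atTop :=
      ((Real.tendsto_log_atTop.comp h1).atTop_div_const hl2).atTop_div_const ha0
    exact h2
  have h3 := (tendsto_nat_floor_div_atTop (R := ℝ)).comp hx2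
  have h4 := h3.mul hx1
  rw [one_mul] at h4
  apply h4.congr'
  filter_upwards [hx2.eventually (eventually_gt_atTop 0)] with T hT
  simp only [Function.comp_apply]
  have : x T ≠ 0 := hT.ne'
  unfold JT
  rw [div_mul_div_comm, mul_comm (x T), mul_div_mul_right _ _ this]

/-- A lemma on averages. -/
theorem cesaro {u : ℝ → ℕ → ℝ} {J : ℝ → ℕ} {c D l : ℝ} (hD : ∀ᶠ T in atTop, ∀ i ≤ J T, |u T i| ≤ D)
    (hu : ∀ η : ℝ, 0 < η → ∃ i₀ : ℕ, ∀ᶠ T in atTop, ∀ i, i₀ ≤ i → i + i₀ ≤ J T → |u T i - c| ≤ η)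
    (hJ : Tendsto (fun T => (J T : ℝ) / Real.log T) atTop (𝓝 l)) :
    Tendsto (fun T => (∑ i ∈ Finset.range (J T + 1), u T i) / Real.log T) atTop (𝓝 (c * l)) := by
  have hlog := Real.tendsto_log_atTop
  have h1 : Tendsto (fun T => (∑ i ∈ Finset.range (J T + 1), (u T i - c)) / Real.log T) atTop
      (𝓝 0) := by
    rw [Metric.tendsto_nhds]
    intro ε hε
    have hl0 : 0 < |l| + 2 := by positivity
    obtain ⟨i₀, hi₀⟩ := hu (ε / (2 * (|l| + 2))) (by positivity)
    have hJ' := hJ.eventually (ge_mem_nhds (by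
      have := le_abs_self l
      linarith : l < |l| + 1))
    have h2 : Tendsto (fun T : ℝ => 2 * (i₀ : ℝ) * (D + |c|) / Real.log T) atTop (𝓝 0) :=
      Tendsto.div_atTop tendsto_const_nhds hlog
    have h3 := h2.eventually (gt_mem_nhds (by positivity : (0 : ℝ) < ε / 2))
    filter_upwards [hD, hi₀, hJ', h3, hlog.eventually (eventually_ge_atTop 1)] with T hDT hT hJT h4 h5
    have hlog0 : 0 < Real.log T := by linarith
    rw [dist_zero_right, Real.norm_eq_abs, abs_div, abs_of_pos hlog0, div_lt_iff₀ hlog0]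
    refine lt_of_le_of_lt (Finset.abs_sum_le_sum_abs _ _) ?_
    have hD0 : 0 ≤ D := (abs_nonneg _).trans (hDT 0 (Nat.zero_le _))
    have h6 : ∀ i ∈ Finset.range (J T + 1), |u T i - c| ≤ ε / (2 * (|l| + 2)) +
        ((if i < i₀ then (D + |c|) else 0) + (if J T < i + i₀ then (D + |c|) else 0)) := by
      intro i hi
      rw [Finset.mem_range] at hi
      have h7 : |u T i - c| ≤ D + |c| := by
        have := abs_sub (u T i) c
        have := hDT i (by omega)
        linarith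
      have h8 : 0 ≤ D + |c| := by positivity
      have h9 : 0 < ε / (2 * (|l| + 2)) := by positivity
      by_cases h10 : i < i₀
      · rw [if_pos h10]
        split_ifs <;> linarith
      · by_cases h11 : J T < i + i₀
        · rw [if_neg h10, if_pos h11]
          linarith
        · rw [if_neg h10, if_neg h11]
          have := hT i (by omega) (by omega)
          linarith
    refine lt_of_le_of_lt (Finset.sum_le_sum h6) ?_
    rw [Finset.sum_add_distrib, Finset.sum_add_distrib, Finset.sum_const, Finset.card_range,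
      nsmul_eq_mul, ← Finset.sum_filter, ← Finset.sum_filter, Finset.sum_const, Finset.sum_const,
      nsmul_eq_mul, nsmul_eq_mul]
    have h7 : (((Finset.range (J T + 1)).filter fun i => i < i₀).card : ℝ) ≤ i₀ := by
      have : ((Finset.range (J T + 1)).filter fun i => i < i₀) ⊆ Finset.range i₀ := by
        intro i hi
        rw [Finset.mem_filter] at hi
        exact Finset.mem_range.2 hi.2
      have := Finset.card_le_card this
      rw [Finset.card_range] at this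
      exact_mod_cast this
    have h8 : (((Finset.range (J T + 1)).filter fun i => J T < i + i₀).card : ℝ) ≤ i₀ := by
      have : ((Finset.range (J T + 1)).filter fun i => J T < i + i₀) ⊆
          Finset.Ico (J T + 1 - i₀) (J T + 1) := by
        intro i hi
        rw [Finset.mem_filter, Finset.mem_range] at hi
        rw [Finset.mem_Ico]
        omega
      have := Finset.card_le_card this
      rw [Nat.card_Ico] at this
      have h9 : J T + 1 - (J T + 1 - i₀) ≤ i₀ := by omega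
      exact_mod_cast this.trans h9
    have h9 : 0 ≤ D + |c| := by positivity
    have h10 : 2 * (i₀ : ℝ) * (D + |c|) < ε / 2 * Real.log T := by
      rwa [div_lt_iff₀ hlog0] at h4
    have h11 : (J T : ℝ) ≤ (|l| + 1) * Real.log T := by
      rwa [div_le_iff₀ hlog0] at hJT
    have h12 : ((J T + 1 : ℕ) : ℝ) * (ε / (2 * (|l| + 2))) ≤ ε / 2 * Real.log T := by
      push_cast
      have h13 : (J T : ℝ) + 1 ≤ (|l| + 2) * Real.log T := by nlinarith
      calc ((J T : ℝ) + 1) * (ε / (2 * (|l| + 2))) ≤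
            ((|l| + 2) * Real.log T) * (ε / (2 * (|l| + 2))) := by gcongr
        _ = _ := by field_simp
    have h13 : (((Finset.range (J T + 1)).filter fun i => i < i₀).card : ℝ) * (D + |c|) ≤
      i₀ * (D + |c|) := by gcongr
    have h14 : (((Finset.range (J T + 1)).filter fun i => J T < i + i₀).card : ℝ) * (D + |c|) ≤
      i₀ * (D + |c|) := by gcongr
    linarith
  have h2 : Tendsto (fun T => ((J T : ℝ) + 1) * c / Real.log T) atTop (𝓝 (c * l)) := by
    have h3 : Tendsto (fun T : ℝ => (1 : ℝ) / Real.log T) atTop (𝓝 0) :=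
      Tendsto.div_atTop tendsto_const_nhds hlog
    have h4 := (hJ.add h3).const_mul c
    rw [add_zero] at h4
    refine h4.congr fun T => ?_
    ring
  have h3 := h1.add h2
  rw [zero_add] at h3
  refine h3.congr fun T => ?_
  rw [Finset.sum_sub_distrib, Finset.sum_const, Finset.card_range, nsmul_eq_mul]
  push_cast
  ring

end Pool.Agent.N852.DD
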