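import Mathlib
import Pool.Agent.N852.DD.Hyp

/-!
The sums over the hyperbolic region, continued.
-/

namespace Pool.Agent.N852.DD

open Matrix Module Filter Topology
open Pool.Agent.N852 (ic ic_add ic_sub ic_neg Cg om om_nonneg om_le_one om_one om_zero om_cont)

variable {k n m : ℕ} {M : Fin k → Matrix (Fin n) (Fin m) ℤ}

/-- The decomposition into blocks. -/
theorem WW_blocks {h : (Fin n → ℝ) → (Fin m → ℝ) → ℝ} (hh : LM M h) (hk : 1 ≤ k) (hn : k < n)
    (hm : k < m) {c : ℝ}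
    (hcb : ∀ x w, x ≠ 0 → Inc M x w → c * (‖x‖ ^ (n - k) * ‖w‖ ^ (m - k)) ≤ hz h x w)
    {κ ε R R' : ℝ} (hκ : 0 < κ) (hε : 0 < ε) (hc : 0 < c) (hR : 0 ≤ R) (hRc : 1 + ε ≤ κ * (c * R))
    (hCW : CW M (PhW h κ ε) R') {q : ℕ} (α : Fin n → ℤ) (β : Fin m → ℤ) {T : ℝ} (hT : 0 < T) :
    WW M h κ ε q α β R T = ∑ i ∈ Finset.range (JT (n - k) (m - k) R' T + 1),
      NN M (PhW h κ ε) q α β R' (2 ^ i) (Lb (n - k) (m - k) T i) := by
  classical
  have hR' : 0 < R' := by linarith [hCW.R4]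
  obtain ⟨I₀, hI₀⟩ := pow_unbounded_of_one_lt (R * T) (by norm_num : (1 : ℝ) < 2)
  obtain ⟨I, hI⟩ : ∃ I, I = max I₀ (JT (n - k) (m - k) R' T) := ⟨_, rfl⟩
  have hI1 : I₀ ≤ I := by rw [hI]; exact le_max_left _ _
  have hI2 : JT (n - k) (m - k) R' T ≤ I := by rw [hI]; exact le_max_right _ _
  have h2I : R * T ≤ 2 ^ I := hI₀.le.trans (pow_le_pow_right₀ (by norm_num) hI1)
  have hRT : 0 ≤ R * T := by positivity
  have h1 : WW M h κ ε q α β R T = ∑ i ∈ Finset.range (I + 1),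
      NN M (PhW h κ ε) q α β R' (2 ^ i) (Lb (n - k) (m - k) T i) := by
    have h2 : ∀ i, NN M (PhW h κ ε) q α β R' (2 ^ i) (Lb (n - k) (m - k) T i) =
        ∑ p ∈ FU M (R * T), if Cg q p.1 α ∧ Cg q p.2 β then
          ph (‖ic p.1‖ / 2 ^ i) * om ε (κ * (h (ic p.1) (ic p.2) / T)) else 0 := by
      intro i
      rw [← blk_eq hh hk hn hm hcb hκ hε hc hR hRc hCW α β hT i]
    rw [Finset.sum_congr rfl fun i _ => h2 i, Finset.sum_comm]
    unfold WW
    refine Finset.sum_congr rfl fun p hp => ?_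
    by_cases hcl : Cg q p.1 α ∧ Cg q p.2 β
    · simp only [if_pos hcl]
      rw [← Finset.sum_mul]
      rw [mem_FU hk hn hm hRT] at hp
      obtain ⟨h3, h4, h5, h6⟩ := hp
      have e1 := norm_ic_ge (jj_ne hk h4)
      have e2 := norm_ic_ge (jj_ne hk h5)
      have e3 : ‖ic p.1‖ ≤ ‖ic p.1‖ ^ (n - k) := le_self_pow₀ e1 (by omega)
      have e4 : ‖ic p.2‖ ≤ ‖ic p.2‖ ^ (m - k) := le_self_pow₀ e2 (by omega)
      unfold HH at h6
      rw [ph_sum e1 (I := I) (by nlinarith), one_mul]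
    · simp only [if_neg hcl, Finset.sum_const_zero]
  rw [h1]
  symm
  apply Finset.sum_subset
  · intro i hi
    rw [Finset.mem_range] at hi ⊢
    omega
  · intro i _ hi
    rw [Finset.mem_range, not_lt] at hi
    have h2 := JT_lt (a := n - k) (b := m - k) (by omega) (by omega) hR' hT (i := i) (by omega)
    unfold NN
    apply Finset.sum_eq_zero
    intro p hp
    have hL := Lb_pos (a := n - k) (b := m - k) hT i
    rw [mem_PU (by positivity) (by positivity)] at hp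
    have := norm_ic_ge (jj_ne hk hp.2.2.2.2)
    linarith [hp.2.1]

/-- **The asymptotic formula for the weighted number of pairs.** -/
theorem WW_asymp (hM : Smooth M) (hk : 1 ≤ k) (hn : 2 * k + 1 ≤ n) (hm : 2 * k + 1 ≤ m)
    {h : (Fin n → ℝ) → (Fin m → ℝ) → ℝ} (hh : LM M h) {c₀ : ℝ} (hc₀ : 0 < c₀)
    (hcb : ∀ x w, x ≠ 0 → Inc M x w → c₀ * (‖x‖ ^ (n - k) * ‖w‖ ^ (m - k)) ≤ hz h x w)
    {κ ε R : ℝ} (hκ : 0 < κ) (hε : 0 < ε) (hR : 0 ≤ R) (hRc : 1 + ε ≤ κ * (c₀ * R))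
    {q : ℕ} (hq : q ≠ 0) (α : Fin n → ℤ) (β : Fin m → ℤ) :
    ∃ c : ℝ, Tendsto (fun T : ℝ => WW M h κ ε q α β R T / (T * Real.log T)) atTop (𝓝 c) := by
  classical
  -- the radius
  obtain ⟨R', hR'⟩ : ∃ R' : ℝ, R' = max 4 ((1 + ε) / (κ * (c₀ * (1 / 2) ^ (n - k)))) := ⟨_, rfl⟩
  have hR'4 : 4 ≤ R' := by rw [hR']; exact le_max_left _ _
  have hR'0 : 0 < R' := by linarith
  have hR'1 : 1 ≤ R' := by linarith
  have hR'c : 1 + ε ≤ κ * (c₀ * ((1 / 2) ^ (n - k) * R' ^ (m - k))) := by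
    have h1 : (1 + ε) / (κ * (c₀ * (1 / 2) ^ (n - k))) ≤ R' := by rw [hR']; exact le_max_right _ _
    have h2 : R' ≤ R' ^ (m - k) := le_self_pow₀ hR'1 (by omega)
    rw [div_le_iff₀ (by positivity)] at h1
    calc 1 + ε ≤ R' * (κ * (c₀ * (1 / 2) ^ (n - k))) := h1
      _ ≤ R' ^ (m - k) * (κ * (c₀ * (1 / 2) ^ (n - k))) := by gcongr
      _ = _ := by ring
  have hCW := PhW_CW hh (by omega) hc₀ hcb hκ hε hR'4 hR'c
  obtain ⟨c, hc⟩ := CW_lim hM hk hn hm hCW hq α β
  obtain ⟨D, hD, hPU⟩ := PU_le hM hk hn hm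
  have hD0 : 0 < D := by linarith
  refine ⟨c * (1 / (((n - k : ℕ) : ℝ) * Real.log 2)), ?_⟩
  set u : ℝ → ℕ → ℝ := fun T i =>
    NN M (PhW h κ ε) q α β R' (2 ^ i) (Lb (n - k) (m - k) T i) / T with hu
  have hkey := cesaro (u := u) (J := JT (n - k) (m - k) R') (c := c)
    (D := D * R' ^ (n - k) * R' ^ (m - k)) (l := 1 / (((n - k : ℕ) : ℝ) * Real.log 2)) ?_ ?_
    (JT_asymp (by omega) hR'0)
  · apply hkey.congr'
    filter_upwards [eventually_gt_atTop 1] with T hT
    have hT0 : 0 < T := by linarith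
    rw [WW_blocks hh hk (by omega) (by omega) hcb hκ hε hc₀ hR hRc hCW α β hT0]
    simp only [hu]
    rw [← Finset.sum_div, div_div]
  · -- boundedness
    filter_upwards [eventually_ge_atTop 1] with T hT
    intro i hi
    have hT0 : 0 < T := by linarith
    have hL := Lb_pos (a := n - k) (b := m - k) hT0 i
    have hRT : 1 ≤ R' ^ (m - k) * T := by
      have : 1 ≤ R' ^ (m - k) := one_le_pow₀ hR'1
      nlinarith
    have h1 := JT_ge (a := n - k) (b := m - k) (by omega) hR'0 hRT hT0 hi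
    have h2 : 1 ≤ R' * Lb (n - k) (m - k) T i := by
      have h3 : 1 ^ (m - k) ≤ (R' * Lb (n - k) (m - k) T i) ^ (m - k) := by
        rw [mul_pow, Lb_pow (by omega) hT0.le, one_pow, ← mul_div_assoc, le_div_iff₀ (by positivity),
          one_mul]
        exact h1
      exact le_of_pow_le_pow_left₀ (by omega) (by positivity) h3
    have h2i : (1 : ℝ) ≤ 2 ^ i := one_le_pow₀ (by norm_num)
    have h3 := hPU (R' * 2 ^ i) (R' * Lb (n - k) (m - k) T i) (by nlinarith) h2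
    simp only [hu]
    rw [abs_div, abs_of_pos hT0, div_le_iff₀ hT0]
    have h4 : |NN M (PhW h κ ε) q α β R' (2 ^ i) (Lb (n - k) (m - k) T i)| ≤
        (PU M (R' * 2 ^ i) (R' * Lb (n - k) (m - k) T i)).card := by
      unfold NN
      refine (Finset.abs_sum_le_sum_abs _ _).trans ?_
      rw [← nsmul_one, ← Finset.sum_const]
      refine Finset.sum_le_sum fun p _ => ?_
      split_ifs
      · exact hCW.le_one _ _
      · rw [abs_zero]
        norm_num
    refine h4.trans (h3.trans (le_of_eq ?_))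
    have h5 := Lb_prod (a := n - k) (b := m - k) (by omega) hT0.le i
    rw [mul_pow, mul_pow]
    calc D * (R' ^ (n - k) * (2 ^ i) ^ (n - k) * (R' ^ (m - k) * Lb (n - k) (m - k) T i ^ (m - k))) =
        D * R' ^ (n - k) * R' ^ (m - k) *
          ((2 ^ i) ^ (n - k) * Lb (n - k) (m - k) T i ^ (m - k)) := by ring
      _ = _ := by rw [h5]
  · -- convergence
    intro η hη
    obtain ⟨K₀, hK₀, hlim⟩ := hc η hη
    obtain ⟨i₀, hi₀⟩ := pow_unbounded_of_one_lt (max K₀ ((R' * K₀) ^ (m - k)))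
      (by norm_num : (1 : ℝ) < 2)
    refine ⟨i₀, ?_⟩
    filter_upwards [eventually_ge_atTop 1] with T hT
    intro i hi hiJ
    have hT0 : 0 < T := by linarith
    have hL := Lb_pos (a := n - k) (b := m - k) hT0 i
    have hRT : 1 ≤ R' ^ (m - k) * T := by
      have : 1 ≤ R' ^ (m - k) := one_le_pow₀ hR'1
      nlinarith
    have h1 := JT_ge (a := n - k) (b := m - k) (by omega) hR'0 hRT hT0 hiJ
    have h2 : K₀ ≤ 2 ^ i := by
      calc K₀ ≤ 2 ^ i₀ := (le_max_left _ _).trans hi₀.le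
        _ ≤ 2 ^ i := pow_le_pow_right₀ (by norm_num) hi
    have h3 : K₀ ≤ Lb (n - k) (m - k) T i := by
      have h4 : (R' * K₀) ^ (m - k) ≤ 2 ^ i₀ := (le_max_right _ _).trans hi₀.le
      have h5 : (2 : ℝ) ^ i₀ ≤ (2 ^ i₀) ^ (n - k) := le_self_pow₀ (one_le_pow₀ (by norm_num)) (by omega)
      have h6 : (R' * K₀) ^ (m - k) * (2 ^ i) ^ (n - k) ≤ R' ^ (m - k) * T := by
        calc (R' * K₀) ^ (m - k) * (2 ^ i) ^ (n - k) ≤ (2 ^ i₀) ^ (n - k) * (2 ^ i) ^ (n - k) := by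
              gcongr
              exact h4.trans h5
          _ = (2 ^ (i + i₀)) ^ (n - k) := by
              rw [← mul_pow, ← pow_add]
              congr 2
              omega
          _ ≤ _ := h1
      have h7 : K₀ ^ (m - k) ≤ (Lb (n - k) (m - k) T i) ^ (m - k) := by
        rw [Lb_pow (by omega) hT0.le, le_div_iff₀ (by positivity)]
        rw [mul_pow, mul_assoc] at h6
        exact le_of_mul_le_mul_left h6 (by positivity)
      exact le_of_pow_le_pow_left₀ (by omega) hL.le h7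
    have h4 := hlim (2 ^ i) (Lb (n - k) (m - k) T i) h2 h3
    unfold TT at h4
    rw [Lb_prod (by omega) hT0.le] at h4
    exact h4

/-- **The upper bound for the hyperbolic region.** -/
theorem FU_le (hM : Smooth M) (hk : 1 ≤ k) (hn : 2 * k + 1 ≤ n) (hm : 2 * k + 1 ≤ m) :
    ∃ C : ℝ, 1 ≤ C ∧ ∀ T : ℝ, 1 ≤ T → ((FU M T).card : ℝ) ≤ C * T * (1 + Real.log T) := by
  classical
  obtain ⟨D, hD, hPU⟩ := PU_le hM hk hn hm
  have hD0 : 0 < D := by linarith
  refine ⟨D * 2 ^ (n - k) * 2, ?_, ?_⟩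
  · have : (1 : ℝ) ≤ 2 ^ (n - k) := one_le_pow₀ (by norm_num)
    nlinarith
  intro T hT
  have hT0 : 0 < T := by linarith
  have hlog : 0 ≤ Real.log T := Real.log_nonneg hT
  set J := JT (n - k) (m - k) 1 T with hJ
  have hcov : FU M T ⊆ (Finset.range (J + 1)).biUnion fun i =>
      PU M (2 ^ (i + 1)) (Lb (n - k) (m - k) T i) := by
    intro p hp
    rw [mem_FU hk (by omega) (by omega) hT0.le] at hp
    obtain ⟨h1, h2, h3, h4⟩ := hp
    have e1 := norm_ic_ge (jj_ne hk h2)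
    have e2 := norm_ic_ge (jj_ne hk h3)
    obtain ⟨i, hi1, hi2⟩ := exists_nat_pow_near e1 (by norm_num : (1 : ℝ) < 2)
    have hL := Lb_pos (a := n - k) (b := m - k) hT0 i
    unfold HH at h4
    have h5 : (2 ^ i) ^ (n - k) * ‖ic p.2‖ ^ (m - k) ≤ T := by
      refine le_trans ?_ h4
      gcongr
    have h6 : ‖ic p.2‖ ≤ Lb (n - k) (m - k) T i := by
      apply le_of_pow_le_pow_left₀ (n := m - k) (by omega) hL.le
      rw [Lb_pow (by omega) hT0.le, le_div_iff₀ (by positivity), mul_comm]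
      exact h5
    rw [Finset.mem_biUnion]
    refine ⟨i, ?_, ?_⟩
    · rw [Finset.mem_range]
      by_contra hcon
      rw [not_lt] at hcon
      have h7 := JT_lt (a := n - k) (b := m - k) (by omega) (by omega) one_pos hT0 (i := i)
        (by omega)
      linarith
    · rw [mem_PU (by positivity) hL.le]
      exact ⟨hi2.le, h6, h1, h2, h3⟩
  have h1 : ((FU M T).card : ℝ) ≤ ∑ i ∈ Finset.range (J + 1),
      ((PU M (2 ^ (i + 1)) (Lb (n - k) (m - k) T i)).card : ℝ) := by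
    have h2 := (Finset.card_le_card hcov).trans Finset.card_biUnion_le
    exact_mod_cast h2
  have h2 : ∀ i ∈ Finset.range (J + 1),
      ((PU M (2 ^ (i + 1)) (Lb (n - k) (m - k) T i)).card : ℝ) ≤ D * 2 ^ (n - k) * T := by
    intro i hi
    rw [Finset.mem_range] at hi
    have h3 := JT_ge (a := n - k) (b := m - k) (by omega) one_pos (by
      rw [one_pow, one_mul]
      exact hT) hT0 (i := i) (by omega)
    rw [one_pow, one_mul] at h3
    have hL := Lb_pos (a := n - k) (b := m - k) hT0 i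
    have h4 : 1 ≤ Lb (n - k) (m - k) T i := by
      apply le_of_pow_le_pow_left₀ (n := m - k) (by omega) hL.le
      rw [one_pow, Lb_pow (by omega) hT0.le, le_div_iff₀ (by positivity), one_mul]
      exact h3
    have h5 := hPU (2 ^ (i + 1)) (Lb (n - k) (m - k) T i) (one_le_pow₀ (by norm_num)) h4
    refine h5.trans (le_of_eq ?_)
    have h6 := Lb_prod (a := n - k) (b := m - k) (by omega) hT0.le i
    calc D * ((2 ^ (i + 1)) ^ (n - k) * Lb (n - k) (m - k) T i ^ (m - k)) =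
        D * 2 ^ (n - k) * ((2 ^ i) ^ (n - k) * Lb (n - k) (m - k) T i ^ (m - k)) := by
          rw [pow_succ, mul_pow]
          ring
      _ = _ := by rw [h6]
  have h3 : ((J : ℕ) : ℝ) + 1 ≤ 2 * (1 + Real.log T) := by
    have h4 : (J : ℝ) ≤ Real.logb 2 (1 ^ (m - k) * T) / ((n - k : ℕ) : ℝ) := by
      rw [hJ]
      unfold JT
      apply Nat.floor_le
      rw [one_pow, one_mul]
      exact div_nonneg (Real.logb_nonneg (by norm_num) hT) (Nat.cast_nonneg _)
    rw [one_pow, one_mul] at h4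
    have h5 : (2 : ℝ) ≤ ((n - k : ℕ) : ℝ) := by
      have : 2 ≤ n - k := by omega
      exact_mod_cast this
    have h6 : Real.logb 2 T / ((n - k : ℕ) : ℝ) ≤ Real.logb 2 T / 2 := by
      apply div_le_div_of_nonneg_left (Real.logb_nonneg (by norm_num) hT) (by norm_num) h5
    have h7 : Real.logb 2 T ≤ 2 * Real.log T := by
      unfold Real.logb
      rw [div_le_iff₀ (Real.log_pos (by norm_num))]
      have := Real.log_two_gt_d9
      nlinarith
    linarith
  calc ((FU M T).card : ℝ) ≤ ∑ i ∈ Finset.range (J + 1),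
      ((PU M (2 ^ (i + 1)) (Lb (n - k) (m - k) T i)).card : ℝ) := h1
    _ ≤ ∑ i ∈ Finset.range (J + 1), D * 2 ^ (n - k) * T := Finset.sum_le_sum h2
    _ = ((J : ℝ) + 1) * (D * 2 ^ (n - k) * T) := by
        rw [Finset.sum_const, Finset.card_range, nsmul_eq_mul]
        push_cast
        rfl
    _ ≤ (2 * (1 + Real.log T)) * (D * 2 ^ (n - k) * T) := by gcongr
    _ = _ := by ring

end Pool.Agent.N852.DD
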