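import Mathlib
import Pool.Agent.N852.DD.Hyp2

/-!
Non-primitive vectors.
-/

namespace Pool.Agent.N852.DD

open Matrix Module Filter Topology
open Pool.Agent.N852 (ic ic_add ic_sub ic_neg Cg Prm sum_tail_sq)

variable {k n m : ℕ} {M : Fin k → Matrix (Fin n) (Fin m) ℤ}

theorem HH_ge (hk : 1 ≤ k) {p : (Fin n → ℤ) × (Fin m → ℤ)} (h1 : jj M p.1 = 0)
    (h2 : jj (tr M) p.2 = 0) : 1 ≤ HH k p := by
  have e1 := norm_ic_ge (jj_ne hk h1)
  have e2 := norm_ic_ge (jj_ne hk h2)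
  have e3 := one_le_pow₀ e1 (n := n - k)
  have e4 := one_le_pow₀ e2 (n := m - k)
  unfold HH
  nlinarith

theorem FU_le' (hM : Smooth M) (hk : 1 ≤ k) (hn : 2 * k + 1 ≤ n) (hm : 2 * k + 1 ≤ m) :
    ∃ C : ℝ, 1 ≤ C ∧ ∀ T T' : ℝ, 1 ≤ T → 0 ≤ T' → T' ≤ T →
      ((FU M T').card : ℝ) ≤ C * T' * (1 + Real.log T) := by
  obtain ⟨C, hC, h⟩ := FU_le hM hk hn hm
  refine ⟨C, hC, ?_⟩
  intro T T' hT hT' hTT
  have hlog : 0 ≤ Real.log T := Real.log_nonneg hT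
  rcases lt_or_ge T' 1 with h1 | h1
  · have : FU M T' = ∅ := by
      rw [Finset.eq_empty_iff_forall_notMem]
      intro p hp
      rw [mem_FU hk (by omega) (by omega) hT'] at hp
      have := HH_ge hk hp.2.1 hp.2.2.1
      linarith [hp.2.2.2]
    rw [this, Finset.card_empty, Nat.cast_zero]
    positivity
  · refine (h T' h1).trans ?_
    have : Real.log T' ≤ Real.log T := Real.log_le_log (by linarith) hTT
    gcongr

theorem inc_of_smul {x : Fin n → ℤ} {y : Fin m → ℤ} {d : ℤ} (hd : d ≠ 0) (h : Inc M (d • x) y) :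
    Inc M x y := by
  intro i
  have h1 := h i
  rw [smul_dotProduct, smul_eq_mul, mul_eq_zero] at h1
  exact h1.resolve_left hd

/-- **Pairs whose first vector is divisible by a large number.** -/
theorem np1 (hM : Smooth M) (hk : 1 ≤ k) (hn : 2 * k + 1 ≤ n) (hm : 2 * k + 1 ≤ m) :
    ∃ C : ℝ, 1 ≤ C ∧ ∀ (T : ℝ) (P : ℕ) (S : Finset ((Fin n → ℤ) × (Fin m → ℤ))), 1 ≤ T → 1 ≤ P →
    (∀ p ∈ S, Inc M p.1 p.2 ∧ jj M p.1 = 0 ∧ jj (tr M) p.2 = 0 ∧ HH k p ≤ T ∧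
      ∃ (d : ℕ) (x : Fin n → ℤ), P < d ∧ p.1 = (d : ℤ) • x) →
    (S.card : ℝ) ≤ C * T * (1 + Real.log T) / P := by
  classical
  obtain ⟨C, hC, hFU⟩ := FU_le' hM hk hn hm
  refine ⟨C, hC, ?_⟩
  intro T P S hT hP hS
  have hT0 : 0 < T := by linarith
  have hlog : 0 ≤ Real.log T := Real.log_nonneg hT
  have hP0 : (0 : ℝ) < P := by exact_mod_cast hP
  have hex : ∀ p : (Fin n → ℤ) × (Fin m → ℤ), ∃ (d : ℕ) (x : Fin n → ℤ), p ∈ S →
      P < d ∧ p.1 = (d : ℤ) • x := by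
    intro p
    by_cases hp : p ∈ S
    · obtain ⟨_, _, _, _, d, x, h⟩ := hS p hp
      exact ⟨d, x, fun _ => h⟩
    · exact ⟨0, 0, fun h => absurd h hp⟩
  choose d x hdx using hex
  have hjx : ∀ p ∈ S, jj M (x p) = 0 ∧ Inc M (x p) p.2 := by
    intro p hp
    obtain ⟨h1, h2, h3, h4, _⟩ := hS p hp
    obtain ⟨h5, h6⟩ := hdx p hp
    have hd : ((d p : ℕ) : ℤ) ≠ 0 := by exact_mod_cast (by omega : d p ≠ 0)
    rw [h6] at h1 h2
    rw [jj_smul hd] at h2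
    exact ⟨h2, inc_of_smul hd h1⟩
  have hHx : ∀ p ∈ S, HH k p = (d p : ℝ) ^ (n - k) * HH k (x p, p.2) := by
    intro p hp
    obtain ⟨h5, h6⟩ := hdx p hp
    unfold HH
    simp only
    conv_lhs => rw [h6]
    rw [ic_smul, norm_smul, Int.cast_natCast, Real.norm_of_nonneg (Nat.cast_nonneg _), mul_pow]
    ring
  have hmaps : ∀ p ∈ S, d p ∈ Finset.Icc (P + 1) ⌊T⌋₊ := by
    intro p hp
    obtain ⟨h1, h2, h3, h4, _⟩ := hS p hp
    obtain ⟨h5, h6⟩ := hdx p hp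
    rw [Finset.mem_Icc]
    refine ⟨h5, Nat.le_floor ?_⟩
    have h7 := hHx p hp
    have h8 : 1 ≤ HH k (x p, p.2) := HH_ge (M := M) hk (hjx p hp).1 h3
    have h9 : (1 : ℝ) ≤ d p := by exact_mod_cast (by omega : 1 ≤ d p)
    have h10 : (d p : ℝ) ≤ (d p : ℝ) ^ (n - k) := le_self_pow₀ h9 (by omega)
    have h11 : (d p : ℝ) ^ (n - k) ≤ HH k p := by
      rw [h7]
      exact le_mul_of_one_le_right (by positivity) h8
    linarith
  rw [Finset.card_eq_sum_card_fiberwise hmaps]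
  push_cast
  have hone : ∀ e ∈ Finset.Icc (P + 1) ⌊T⌋₊,
      ((S.filter fun p => d p = e).card : ℝ) ≤ C * T * (1 + Real.log T) * (1 / (e : ℝ)) ^ 2 := by
    intro e he
    rw [Finset.mem_Icc] at he
    have he0 : (0 : ℝ) < e := by exact_mod_cast (by omega : 0 < e)
    have he1 : (1 : ℝ) ≤ e := by exact_mod_cast (by omega : 1 ≤ e)
    have h1 : (S.filter fun p => d p = e).card ≤ (FU M (T / (e : ℝ) ^ (n - k))).card := by
      apply Finset.card_le_card_of_injOn (fun p => (x p, p.2))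
      · intro p hp
        rw [Finset.mem_coe, Finset.mem_filter] at hp
        rw [Finset.mem_coe, mem_FU hk (by omega) (by omega) (by positivity)]
        have h2 := hS p hp.1
        refine ⟨(hjx p hp.1).2, (hjx p hp.1).1, h2.2.2.1, ?_⟩
        rw [le_div_iff₀ (by positivity), mul_comm]
        have h3 := hHx p hp.1
        rw [hp.2] at h3
        rw [← h3]
        exact h2.2.2.2.1
      · intro p hp p' hp' h
        rw [Finset.mem_coe, Finset.mem_filter] at hp hp'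
        simp only [Prod.mk.injEq] at h
        apply Prod.ext _ h.2
        rw [(hdx p hp.1).2, (hdx p' hp'.1).2, hp.2, hp'.2, h.1]
    have h3 : T / (e : ℝ) ^ (n - k) ≤ T * (1 / (e : ℝ)) ^ 2 := by
      rw [div_eq_mul_one_div, _root_.one_div_pow]
      gcongr
      omega
    have h4 : T / (e : ℝ) ^ (n - k) ≤ T := div_le_self hT0.le (one_le_pow₀ he1)
    have h5 := hFU T (T / (e : ℝ) ^ (n - k)) hT (by positivity) h4
    calc ((S.filter fun p => d p = e).card : ℝ) ≤ ((FU M (T / (e : ℝ) ^ (n - k))).card : ℝ) := by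
          exact_mod_cast h1
      _ ≤ C * (T / (e : ℝ) ^ (n - k)) * (1 + Real.log T) := h5
      _ ≤ C * (T * (1 / (e : ℝ)) ^ 2) * (1 + Real.log T) := by gcongr
      _ = _ := by ring
  calc ∑ e ∈ Finset.Icc (P + 1) ⌊T⌋₊, ((S.filter fun p => d p = e).card : ℝ)
      ≤ ∑ e ∈ Finset.Icc (P + 1) ⌊T⌋₊, C * T * (1 + Real.log T) * (1 / (e : ℝ)) ^ 2 :=
        Finset.sum_le_sum hone
    _ = C * T * (1 + Real.log T) * ∑ e ∈ Finset.Icc (P + 1) ⌊T⌋₊, (1 / (e : ℝ)) ^ 2 := by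
        rw [Finset.mul_sum]
    _ ≤ C * T * (1 + Real.log T) * (1 / P) := by
        gcongr
        exact sum_tail_sq P _ hP
    _ = _ := by ring

theorem HH_swap (p : (Fin n → ℤ) × (Fin m → ℤ)) : HH k p.swap = HH k p := by
  unfold HH
  rw [Prod.fst_swap, Prod.snd_swap, mul_comm]

/-- **Pairs whose second vector is divisible by a large number.** -/
theorem np2 (hM : Smooth M) (hk : 1 ≤ k) (hn : 2 * k + 1 ≤ n) (hm : 2 * k + 1 ≤ m) :
    ∃ C : ℝ, 1 ≤ C ∧ ∀ (T : ℝ) (P : ℕ) (S : Finset ((Fin n → ℤ) × (Fin m → ℤ))), 1 ≤ T → 1 ≤ P →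
    (∀ p ∈ S, Inc M p.1 p.2 ∧ jj M p.1 = 0 ∧ jj (tr M) p.2 = 0 ∧ HH k p ≤ T ∧
      ∃ (d : ℕ) (y : Fin m → ℤ), P < d ∧ p.2 = (d : ℤ) • y) →
    (S.card : ℝ) ≤ C * T * (1 + Real.log T) / P := by
  classical
  obtain ⟨C, hC, h⟩ := np1 (smooth_tr hM) hk hm hn
  refine ⟨C, hC, ?_⟩
  intro T P S hT hP hS
  have h1 := h T P (S.image Prod.swap) hT hP (by
    intro p hp
    obtain ⟨p', hp', rfl⟩ := Finset.mem_image.1 hp
    obtain ⟨h1, h2, h3, h4, d, y, h5, h6⟩ := hS p' hp'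
    refine ⟨inc_tr.2 h1, h3, ?_, ?_, d, y, h5, h6⟩
    · rw [tr_tr]
      exact h2
    · rw [HH_swap]
      exact h4)
  rw [Finset.card_image_of_injective _ Prod.swap_injective] at h1
  exact h1

end Pool.Agent.N852.DD
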