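import Mathlib
import Pool.Agent.N852.DD.NP

/-!
The lower bound.
-/

namespace Pool.Agent.N852.DD

open Matrix Module Filter Topology
open Pool.Agent.N852 (ic ic_add ic_sub ic_neg Cg Prm exists_prim)

variable {k n m : ℕ} {M : Fin k → Matrix (Fin n) (Fin m) ℤ}

/-- The size of the coefficients. -/
theorem val_le (M : Fin k → Matrix (Fin n) (Fin m) ℤ) : ∃ C : ℝ, 1 ≤ C ∧
    ∀ (x : Fin n → ℤ) (y : Fin m → ℤ) (i : Fin k),
      |((rv M x i ⬝ᵥ y : ℤ) : ℝ)| ≤ C * (‖ic x‖ * ‖ic y‖) := by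
  refine ⟨1 + ∑ i, ∑ l, ∑ l', |((M i l l' : ℤ) : ℝ)|, ?_, ?_⟩
  · have : (0 : ℝ) ≤ ∑ i, ∑ l, ∑ l', |((M i l l' : ℤ) : ℝ)| := by positivity
    linarith
  intro x y i
  have h1 : ((rv M x i ⬝ᵥ y : ℤ) : ℝ) = ∑ l', ∑ l, (x l : ℝ) * (M i l l' : ℝ) * (y l' : ℝ) := by
    unfold rv dotProduct vecMul dotProduct
    push_cast
    refine Finset.sum_congr rfl fun l' _ => ?_
    rw [Finset.sum_mul]
    rfl
  rw [h1, Finset.sum_comm]
  have hx : ∀ l, |(x l : ℝ)| ≤ ‖ic x‖ := fun l => norm_le_pi_norm (ic x) l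
  have hy : ∀ l, |(y l : ℝ)| ≤ ‖ic y‖ := fun l => norm_le_pi_norm (ic y) l
  have h2 : |∑ l, ∑ l', (x l : ℝ) * (M i l l' : ℝ) * (y l' : ℝ)| ≤
      ∑ l, ∑ l', |((M i l l' : ℤ) : ℝ)| * (‖ic x‖ * ‖ic y‖) := by
    refine (Finset.abs_sum_le_sum_abs _ _).trans (Finset.sum_le_sum fun l _ => ?_)
    refine (Finset.abs_sum_le_sum_abs _ _).trans (Finset.sum_le_sum fun l' _ => ?_)
    rw [abs_mul, abs_mul]
    calc |(x l : ℝ)| * |(M i l l' : ℝ)| * |(y l' : ℝ)| ≤ ‖ic x‖ * |(M i l l' : ℝ)| * ‖ic y‖ := by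
          gcongr
          · exact hx l
          · exact hy l'
      _ = _ := by ring
  refine h2.trans ?_
  have h3 : ∑ l, ∑ l', |((M i l l' : ℤ) : ℝ)| * (‖ic x‖ * ‖ic y‖) =
      (∑ l, ∑ l', |((M i l l' : ℤ) : ℝ)|) * (‖ic x‖ * ‖ic y‖) := by
    rw [Finset.sum_mul]
    refine Finset.sum_congr rfl fun l _ => ?_
    rw [Finset.sum_mul]
  rw [h3]
  apply mul_le_mul_of_nonneg_right _ (by positivity)
  have h4 : ∑ l, ∑ l', |((M i l l' : ℤ) : ℝ)| ≤ ∑ i, ∑ l, ∑ l', |((M i l l' : ℤ) : ℝ)| :=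
    Finset.single_le_sum (f := fun i => ∑ l, ∑ l', |((M i l l' : ℤ) : ℝ)|)
      (fun i _ => by positivity) (Finset.mem_univ i)
  linarith

theorem card_pos_box (N : ℕ) {K : ℝ} (hK : 0 ≤ K) :
    K ^ N ≤ ((Fintype.piFinset fun _ : Fin N => Finset.Icc (0 : ℤ) ⌊K⌋).card : ℝ) := by
  rw [Fintype.card_piFinset]
  simp only [Finset.prod_const, Finset.card_univ, Fintype.card_fin, Int.card_Icc]
  push_cast
  have h1 : K ≤ (((⌊K⌋ + 1 - 0).toNat : ℕ) : ℝ) := by
    have h2 : (0 : ℤ) ≤ ⌊K⌋ := Int.floor_nonneg.2 hK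
    have h3 : (((⌊K⌋ + 1 - 0).toNat : ℕ) : ℤ) = ⌊K⌋ + 1 := by
      rw [Int.toNat_of_nonneg (by omega)]
      ring
    have h4 : (((⌊K⌋ + 1 - 0).toNat : ℕ) : ℝ) = (⌊K⌋ : ℝ) + 1 := by
      have : (((⌊K⌋ + 1 - 0).toNat : ℤ) : ℝ) = ((⌊K⌋ + 1 : ℤ) : ℝ) := by exact_mod_cast h3
      push_cast at this
      exact_mod_cast this
    rw [h4]
    exact (Int.lt_floor_add_one K).le
  gcongr

theorem pos_box_sub (N : ℕ) {K : ℝ} (hK : 0 ≤ K) {y : Fin N → ℤ}
    (hy : y ∈ Fintype.piFinset fun _ : Fin N => Finset.Icc (0 : ℤ) ⌊K⌋) : ‖ic y‖ ≤ K := by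
  rw [norm_ic_le hK]
  intro i
  have h1 := Fintype.mem_piFinset.1 hy i
  rw [Finset.mem_Icc] at h1
  have h2 : (0 : ℝ) ≤ y i := by exact_mod_cast h1.1
  rw [abs_of_nonneg h2]
  calc (y i : ℝ) ≤ (⌊K⌋ : ℝ) := by exact_mod_cast h1.2
    _ ≤ K := Int.floor_le K

open Classical in
/-- **Pigeonhole.** -/
theorem pigeon (M : Fin k → Matrix (Fin n) (Fin m) ℤ) : ∃ C : ℝ, 1 ≤ C ∧ ∀ K : ℝ, 1 ≤ K →
    K ^ (n + m) ≤ (C * K ^ 2) ^ k *
      (((Bl n K ×ˢ Bl m K).filter fun p => Inc M p.1 p.2).card : ℝ) := by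
  obtain ⟨C, hC, hval⟩ := val_le M
  refine ⟨3 * C, by linarith, ?_⟩
  intro K hK
  have hK0 : 0 < K := by linarith
  have hCK : 1 ≤ C * K ^ 2 := by
    have : 1 ≤ K ^ 2 := one_le_pow₀ hK
    nlinarith
  have hx : ∀ x ∈ Bl n K, K ^ m ≤ (3 * C * K ^ 2) ^ k *
      (((Bl m K).filter fun y => Inc M x y).card : ℝ) := by
    intro x hx
    rw [mem_Bl hK0.le] at hx
    set Y₀ := Fintype.piFinset fun _ : Fin m => Finset.Icc (0 : ℤ) ⌊K⌋ with hY₀
    set f : (Fin m → ℤ) → (Fin k → ℤ) := fun y i => rv M x i ⬝ᵥ y with hf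
    have hmaps : ∀ y ∈ Y₀, f y ∈ Bl k (C * K ^ 2) := by
      intro y hy
      rw [mem_Bl (by linarith), norm_ic_le (by linarith)]
      intro i
      refine (hval x y i).trans ?_
      have h2 := pos_box_sub m hK0.le hy
      have h3 : ‖ic x‖ * ‖ic y‖ ≤ K * K := mul_le_mul hx h2 (norm_nonneg _) hK0.le
      calc C * (‖ic x‖ * ‖ic y‖) ≤ C * (K * K) := by gcongr
        _ = C * K ^ 2 := by ring
    have hfib : ∀ v ∈ Bl k (C * K ^ 2), ((Y₀.filter fun y => f y = v).card : ℝ) ≤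
        (((Bl m K).filter fun y => Inc M x y).card : ℝ) := by
      intro v _
      rcases Finset.eq_empty_or_nonempty (Y₀.filter fun y => f y = v) with h1 | ⟨y₀, hy₀⟩
      · rw [h1, Finset.card_empty, Nat.cast_zero]
        positivity
      · rw [Finset.mem_filter] at hy₀
        have h2 : (Y₀.filter fun y => f y = v).card ≤ ((Bl m K).filter fun y => Inc M x y).card := by
          apply Finset.card_le_card_of_injOn (fun y => y - y₀)
          · intro y hy
            rw [Finset.mem_coe, Finset.mem_filter] at hy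
            rw [Finset.mem_coe, Finset.mem_filter, mem_Bl hK0.le]
            constructor
            · rw [norm_ic_le hK0.le]
              intro i
              have e1 := Fintype.mem_piFinset.1 hy.1 i
              have e2 := Fintype.mem_piFinset.1 hy₀.1 i
              rw [Finset.mem_Icc] at e1 e2
              have e3 : |y i - y₀ i| ≤ ⌊K⌋ := by
                rw [abs_le]
                constructor <;> omega
              have e4 : ((|y i - y₀ i| : ℤ) : ℝ) ≤ (⌊K⌋ : ℝ) := by exact_mod_cast e3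
              rw [Int.cast_abs] at e4
              exact e4.trans (Int.floor_le K)
            · rw [inc_iff_rv]
              intro i
              have e1 := congrFun (hy.2.trans hy₀.2.symm) i
              simp only [hf] at e1
              rw [dotProduct_sub, e1, sub_self]
          · intro y _ y' _ h
            exact sub_left_injective h
        exact_mod_cast h2
    calc K ^ m ≤ (Y₀.card : ℝ) := card_pos_box m hK0.le
      _ = ∑ v ∈ Bl k (C * K ^ 2), ((Y₀.filter fun y => f y = v).card : ℝ) := by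
          rw [Finset.card_eq_sum_card_fiberwise hmaps]
          push_cast
          rfl
      _ ≤ ∑ v ∈ Bl k (C * K ^ 2), (((Bl m K).filter fun y => Inc M x y).card : ℝ) :=
          Finset.sum_le_sum hfib
      _ = ((Bl k (C * K ^ 2)).card : ℝ) * (((Bl m K).filter fun y => Inc M x y).card : ℝ) := by
          rw [Finset.sum_const, nsmul_eq_mul]
      _ ≤ (3 * C * K ^ 2) ^ k * (((Bl m K).filter fun y => Inc M x y).card : ℝ) := by
          gcongr
          have := card_Bl (n := k) hCK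
          calc ((Bl k (C * K ^ 2)).card : ℝ) ≤ (3 * (C * K ^ 2)) ^ k := this
            _ = _ := by ring
  have hbox : K ^ n ≤ ((Bl n K).card : ℝ) := by
    refine (card_pos_box n hK0.le).trans ?_
    have : (Fintype.piFinset fun _ : Fin n => Finset.Icc (0 : ℤ) ⌊K⌋) ⊆ Bl n K := by
      intro y hy
      rw [mem_Bl hK0.le]
      exact pos_box_sub n hK0.le hy
    exact_mod_cast Finset.card_le_card this
  have hcard : (((Bl n K ×ˢ Bl m K).filter fun p => Inc M p.1 p.2).card : ℝ) =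
      ∑ x ∈ Bl n K, (((Bl m K).filter fun y => Inc M x y).card : ℝ) := by
    have h1 : (Bl n K ×ˢ Bl m K).filter (fun p => Inc M p.1 p.2) =
        (Bl n K).biUnion fun x => ((Bl m K).filter fun y => Inc M x y).image (Prod.mk x) := by
      ext p
      rw [Finset.mem_filter, Finset.mem_product, Finset.mem_biUnion]
      constructor
      · rintro ⟨⟨h2, h3⟩, h4⟩
        exact ⟨p.1, h2, Finset.mem_image.2 ⟨p.2, Finset.mem_filter.2 ⟨h3, h4⟩, rfl⟩⟩
      · rintro ⟨x, h2, h3⟩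
        obtain ⟨y, h4, rfl⟩ := Finset.mem_image.1 h3
        rw [Finset.mem_filter] at h4
        exact ⟨⟨h2, h4.1⟩, h4.2⟩
    rw [h1, Finset.card_biUnion]
    · push_cast
      refine Finset.sum_congr rfl fun x _ => ?_
      rw [Finset.card_image_of_injective _ (Prod.mk_right_injective x)]
    · intro x _ x' _ hxx
      rw [Function.onFun, Finset.disjoint_left]
      intro p hp hp'
      obtain ⟨y, -, rfl⟩ := Finset.mem_image.1 hp
      obtain ⟨y', -, h⟩ := Finset.mem_image.1 hp'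
      exact hxx (congrArg Prod.fst h).symm
  rw [hcard, pow_add]
  calc K ^ n * K ^ m ≤ ((Bl n K).card : ℝ) * K ^ m := by gcongr
    _ = ∑ x ∈ Bl n K, K ^ m := by rw [Finset.sum_const, nsmul_eq_mul]
    _ ≤ ∑ x ∈ Bl n K, (3 * C * K ^ 2) ^ k *
        (((Bl m K).filter fun y => Inc M x y).card : ℝ) := Finset.sum_le_sum hx
    _ = _ := by rw [← Finset.mul_sum]

/-- The lower bound for cubes. -/
theorem low_cube (hM : Smooth M) (hn : 2 * k + 1 ≤ n) (hm : 2 * k + 1 ≤ m) :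
    ∃ c K₀ : ℝ, 0 < c ∧ 1 ≤ K₀ ∧ ∀ K : ℝ, K₀ ≤ K →
      c * (K ^ (n - k) * K ^ (m - k)) ≤ ((PU M K K).card : ℝ) := by
  classical
  obtain ⟨C, hC, hpig⟩ := pigeon M
  obtain ⟨D₁, hD₁, hdeg1⟩ := deg1 hM hn hm
  obtain ⟨D₂, hD₂, hdeg2⟩ := deg1 (smooth_tr hM) hm hn
  have hC0 : 0 < C := by linarith
  refine ⟨1 / (2 * C ^ k), max 1 (2 * C ^ k * (D₁ + D₂)), by positivity, le_max_left _ _, ?_⟩
  intro K hK
  have hK1 : 1 ≤ K := (le_max_left _ _).trans hK
  have hK2 : 2 * C ^ k * (D₁ + D₂) ≤ K := (le_max_right _ _).trans hK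
  have hK0 : 0 < K := by linarith
  set G : ℝ := K ^ (n - k) * K ^ (m - k) with hG
  have hG0 : 0 < G := by positivity
  set S := (Bl n K ×ˢ Bl m K).filter fun p => Inc M p.1 p.2 with hS
  have hmem : ∀ p, p ∈ S ↔ ‖ic p.1‖ ≤ K ∧ ‖ic p.2‖ ≤ K ∧ Inc M p.1 p.2 := by
    intro p
    rw [hS, Finset.mem_filter, Finset.mem_product, mem_Bl hK0.le, mem_Bl hK0.le]
    tauto
  have h1 : G / C ^ k ≤ S.card := by
    have h2 := hpig K hK1
    have h3 : K ^ (n + m) = G * (K ^ 2) ^ k := by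
      rw [hG, ← pow_mul, ← pow_add, ← pow_add]
      congr 1
      omega
    rw [h3, mul_pow] at h2
    rw [div_le_iff₀ (by positivity)]
    have h4 : 0 < (K ^ 2) ^ k := by positivity
    have h5 : G * (K ^ 2) ^ k ≤ (S.card : ℝ) * C ^ k * (K ^ 2) ^ k := by
      calc G * (K ^ 2) ^ k ≤ C ^ k * (K ^ 2) ^ k * (S.card : ℝ) := h2
        _ = _ := by ring
    exact le_of_mul_le_mul_right h5 h4
  set A := S.filter fun p => ¬ jj M p.1 = 0 with hA
  set B := S.filter fun p => ¬ jj (tr M) p.2 = 0 with hB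
  have h2 : (A.card : ℝ) * K ≤ D₁ * G := by
    have h3 := hdeg1 K K A hK1 hK1 (by
      intro p hp
      rw [hA, Finset.mem_filter, hmem] at hp
      exact ⟨hp.1.1, hp.1.2.1, by omega, hp.1.2.2⟩)
    rw [div_self hK0.ne', max_self, one_pow, mul_one, mul_assoc D₁] at h3
    exact h3
  have h3 : (B.card : ℝ) * K ≤ D₂ * G := by
    have h4 := hdeg2 K K (B.image Prod.swap) hK1 hK1 (by
      intro p hp
      obtain ⟨p', hp', rfl⟩ := Finset.mem_image.1 hp
      rw [hB, Finset.mem_filter, hmem] at hp'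
      exact ⟨hp'.1.2.1, hp'.1.1, by rw [Prod.fst_swap]; omega, inc_tr.2 hp'.1.2.2⟩)
    rw [div_self hK0.ne', max_self, one_pow, mul_one,
      Finset.card_image_of_injective _ Prod.swap_injective, mul_assoc D₂,
      mul_comm (K ^ (m - k))] at h4
    exact h4
  have h4 : (S.card : ℝ) ≤ (PU M K K).card + A.card + B.card := by
    have h5 : S ⊆ (PU M K K ∪ A) ∪ B := by
      intro p hp
      have hp' := (hmem p).1 hp
      by_cases e1 : jj M p.1 = 0
      · by_cases e2 : jj (tr M) p.2 = 0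
        · exact Finset.mem_union_left _ (Finset.mem_union_left _ ((mem_PU hK0.le hK0.le).2
            ⟨hp'.1, hp'.2.1, hp'.2.2, e1, e2⟩))
        · exact Finset.mem_union_right _ (Finset.mem_filter.2 ⟨hp, e2⟩)
      · exact Finset.mem_union_left _ (Finset.mem_union_right _ (Finset.mem_filter.2 ⟨hp, e1⟩))
    have h6 := (Finset.card_le_card h5).trans ((Finset.card_union_le _ _).trans
      (Nat.add_le_add_right (Finset.card_union_le _ _) _))
    exact_mod_cast h6
  have h5 : ((A.card : ℝ) + B.card) * K ≤ (D₁ + D₂) * G := by linarith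
  have h6 : (A.card : ℝ) + B.card ≤ G / (2 * C ^ k) := by
    rw [le_div_iff₀ (by positivity)]
    have h7 : ((A.card : ℝ) + B.card) * (2 * C ^ k) * K ≤ G * K := by
      calc ((A.card : ℝ) + B.card) * (2 * C ^ k) * K = (((A.card : ℝ) + B.card) * K) * (2 * C ^ k) := by
            ring
        _ ≤ ((D₁ + D₂) * G) * (2 * C ^ k) := by gcongr
        _ = G * (2 * C ^ k * (D₁ + D₂)) := by ring
        _ ≤ G * K := by gcongr
    exact le_of_mul_le_mul_right h7 hK0
  have h7 : G / C ^ k = 2 * (G / (2 * C ^ k)) := by field_simp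
  have h8 : 1 / (2 * C ^ k) * G = G / (2 * C ^ k) := by ring
  rw [h8]
  linarith

theorem chi_WT (M : Fin k → Matrix (Fin n) (Fin m) ℤ) :
    WT M (fun X Y => chi ‖X‖ * chi ‖Y‖) 1 4 := by
  refine ⟨by norm_num, by norm_num, ?_, ?_, ?_, ?_, ?_⟩
  · intro X X' Y _ _
    rw [← sub_mul, abs_mul, abs_of_nonneg (chi_nonneg ‖Y‖), one_mul]
    calc |chi ‖X‖ - chi ‖X'‖| * chi ‖Y‖ ≤ |chi ‖X‖ - chi ‖X'‖| * 1 := by
          gcongr
          exact chi_le_one _
      _ ≤ ‖X - X'‖ := by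
          rw [mul_one]
          exact (chi_lip _ _).trans (norm_lip X X')
  · intro X Y Y' _ _
    rw [← mul_sub, abs_mul, abs_of_nonneg (chi_nonneg ‖X‖), one_mul]
    calc chi ‖X‖ * |chi ‖Y‖ - chi ‖Y'‖| ≤ 1 * |chi ‖Y‖ - chi ‖Y'‖| := by
          gcongr
          exact chi_le_one _
      _ ≤ ‖Y - Y'‖ := by
          rw [one_mul]
          exact (chi_lip _ _).trans (norm_lip Y Y')
  · intro X Y _ h
    rw [chi_zero (by linarith), zero_mul]
  · intro X Y _ h
    rw [chi_zero (t := ‖Y‖) (by linarith), mul_zero]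
  · intro X Y
    rw [abs_of_nonneg (mul_nonneg (chi_nonneg _) (chi_nonneg _))]
    exact mul_le_one₀ (chi_le_one _) (chi_nonneg _) (chi_le_one _)

/-- **The lower bound for boxes.** -/
theorem low_box (hM : Smooth M) (hk : 1 ≤ k) (hn : 2 * k + 1 ≤ n) (hm : 2 * k + 1 ≤ m) :
    ∃ c K₀ : ℝ, 0 < c ∧ 1 ≤ K₀ ∧ ∀ K L : ℝ, K₀ ≤ K → K₀ ≤ L →
      c * (K ^ (n - k) * L ^ (m - k)) ≤ ((PU M K L).card : ℝ) := by
  classical
  obtain ⟨c, C, hC, hlim⟩ := TT_lim hM hk hn hm (chi_WT M) one_ne_zero 0 0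
  obtain ⟨c₁, K₁, hc₁, hK₁, hlow⟩ := low_cube hM hn hm
  have hcg : ∀ {N : ℕ} (x : Fin N → ℤ), Cg 1 x 0 := fun x => ⟨x, by simp⟩
  have htend : Tendsto (fun x : ℝ => C / x ^ th k) atTop (𝓝 0) :=
    Tendsto.div_atTop tendsto_const_nhds (tendsto_rpow_atTop (th_pos k))
  -- the limit is positive
  have hcc : c₁ ≤ c := by
    have h1 : Tendsto (fun K : ℝ => c + C / K ^ th k) atTop (𝓝 (c + 0)) := htend.const_add c
    rw [add_zero] at h1
    apply ge_of_tendsto h1
    filter_upwards [eventually_ge_atTop K₁] with K hK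
    have hK1 : 1 ≤ K := hK₁.trans hK
    have hK0 : 0 < K := by linarith
    have h2 := (abs_le.1 (hlim K K hK1 hK1)).2
    rw [min_self] at h2
    have h3 : c₁ ≤ TT M (fun X Y => chi ‖X‖ * chi ‖Y‖) 1 0 0 4 K K := by
      unfold TT
      rw [le_div_iff₀ (by positivity)]
      refine (hlow K hK).trans ?_
      unfold NN
      have hsub : PU M K K ⊆ PU M (4 * K) (4 * K) := by
        intro p hp
        rw [mem_PU hK0.le hK0.le] at hp
        rw [mem_PU (by positivity) (by positivity)]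
        exact ⟨by linarith [hp.1], by linarith [hp.2.1], hp.2.2⟩
      rw [← nsmul_one, ← Finset.sum_const]
      refine le_trans (Finset.sum_le_sum fun p hp => ?_)
        (Finset.sum_le_sum_of_subset_of_nonneg hsub ?_)
      · rw [mem_PU hK0.le hK0.le] at hp
        rw [if_pos ⟨hcg _, hcg _⟩]
        change (1 : ℝ) ≤ chi ‖K⁻¹ • ic p.1‖ * chi ‖K⁻¹ • ic p.2‖
        rw [norm_smul, norm_smul, norm_inv, Real.norm_of_nonneg hK0.le, chi_one, chi_one, mul_one]
        · rw [inv_mul_le_iff₀ hK0, mul_one]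
          exact hp.2.1
        · rw [inv_mul_le_iff₀ hK0, mul_one]
          exact hp.1
      · intro p _ _
        split_ifs
        · exact mul_nonneg (chi_nonneg _) (chi_nonneg _)
        · exact le_rfl
    linarith
  obtain ⟨K₂, hK₂⟩ := eventually_atTop.1 (htend.eventually (ge_mem_nhds (by positivity :
    (0 : ℝ) < c₁ / 2)))
  refine ⟨c₁ / 2 * ((1 / 4) ^ (n - k) * (1 / 4) ^ (m - k)), max 4 (4 * K₂), by positivity,
    le_trans (by norm_num) (le_max_left _ _), ?_⟩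
  intro K L hK hL
  have e1 : 4 ≤ K := (le_max_left _ _).trans hK
  have e2 : 4 ≤ L := (le_max_left _ _).trans hL
  have e3 : 4 * K₂ ≤ K := (le_max_right _ _).trans hK
  have e4 : 4 * K₂ ≤ L := (le_max_right _ _).trans hL
  have h1 := (abs_le.1 (hlim (K / 4) (L / 4) (by linarith) (by linarith))).1
  have h2 := hK₂ (min (K / 4) (L / 4)) (le_min (by linarith) (by linarith))
  have h3 : c₁ / 2 ≤ TT M (fun X Y => chi ‖X‖ * chi ‖Y‖) 1 0 0 4 (K / 4) (L / 4) := by linarith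
  unfold TT at h3
  rw [le_div_iff₀ (by positivity)] at h3
  have h4 : NN M (fun X Y => chi ‖X‖ * chi ‖Y‖) 1 0 0 4 (K / 4) (L / 4) ≤ (PU M K L).card := by
    unfold NN
    have e5 : 4 * (K / 4) = K := by ring
    have e6 : 4 * (L / 4) = L := by ring
    rw [e5, e6, ← nsmul_one, ← Finset.sum_const]
    refine Finset.sum_le_sum fun p _ => ?_
    split_ifs
    · exact mul_le_one₀ (chi_le_one _) (chi_nonneg _) (chi_le_one _)
    · norm_num
  calc c₁ / 2 * ((1 / 4) ^ (n - k) * (1 / 4) ^ (m - k)) * (K ^ (n - k) * L ^ (m - k))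
      = c₁ / 2 * ((K / 4) ^ (n - k) * (L / 4) ^ (m - k)) := by
        rw [div_pow, div_pow, div_pow, div_pow]
        ring
    _ ≤ _ := h3
    _ ≤ _ := h4

end Pool.Agent.N852.DD
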