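import Mathlib
import Pool.Agent.N852.DD.Low

/-!
The lower bound for the hyperbolic region.
-/

namespace Pool.Agent.N852.DD

open Matrix Module Filter Topology
open Pool.Agent.N852 (ic ic_add ic_sub ic_neg Cg Prm exists_prim)

variable {k n m : ℕ} {M : Fin k → Matrix (Fin n) (Fin m) ℤ}

theorem PU_mono {K K' L L' : ℝ} (hK : 0 ≤ K) (hL : 0 ≤ L) (h1 : K ≤ K') (h2 : L ≤ L') :
    PU M K L ⊆ PU M K' L' := by
  intro p hp
  rw [mem_PU hK hL] at hp
  rw [mem_PU (hK.trans h1) (hL.trans h2)]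
  exact ⟨hp.1.trans h1, hp.2.1.trans h2, hp.2.2⟩

/-- **The lower bound for the hyperbolic region.** -/
theorem low_FU (hM : Smooth M) (hk : 1 ≤ k) (hn : 2 * k + 1 ≤ n) (hm : 2 * k + 1 ≤ m) :
    ∃ c T₀ : ℝ, 0 < c ∧ ∀ T : ℝ, T₀ ≤ T → c * (T * Real.log T) ≤ ((FU M T).card : ℝ) := by
  classical
  obtain ⟨c, K₀, hc, hK₀, hlow⟩ := low_box hM hk hn hm
  obtain ⟨D, hD, hPU⟩ := PU_le hM hk hn hm
  have hD0 : 0 < D := by linarith
  have hK0 : 0 < K₀ := by linarith
  -- the ratio
  obtain ⟨g, hg⟩ := pow_unbounded_of_one_lt (2 * D / c) (by norm_num : (1 : ℝ) < 2)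
  obtain ⟨i₁, hi₁⟩ := pow_unbounded_of_one_lt K₀ (by norm_num : (1 : ℝ) < 2)
  obtain ⟨s, hs⟩ : ∃ s : ℕ, s = g + i₁ + 1 := ⟨_, rfl⟩
  have hs0 : 0 < s := by omega
  have hgs : 2 * D / c ≤ 2 ^ s := hg.le.trans (pow_le_pow_right₀ (by norm_num) (by omega))
  have his : K₀ ≤ 2 ^ s := hi₁.le.trans (pow_le_pow_right₀ (by norm_num) (by omega))
  set a := n - k with ha
  set b := m - k with hb
  have ha0 : 0 < a := by omega
  have hb0 : 0 < b := by omega
  have haR : (0 : ℝ) < a := by exact_mod_cast ha0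
  have hl2 : 0 < Real.log 2 := Real.log_pos (by norm_num)
  have hsR : (0 : ℝ) < s := by exact_mod_cast hs0
  -- the number of blocks
  have hJ := JT_asymp (a := a) (b := b) ha0 (R := 1 / K₀) (by positivity)
  set l : ℝ := 1 / (a * Real.log 2) with hl
  have hl0 : 0 < l := by positivity
  have hJ1 := hJ.eventually (le_mem_nhds (by linarith : l / 2 < l))
  have hlog := Real.tendsto_log_atTop.eventually (eventually_ge_atTop (8 * s / l))
  obtain ⟨T₁, hT₁⟩ := eventually_atTop.1 (hJ1.and (hlog.and (eventually_ge_atTop (max 2 (K₀ ^ b)))))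
  refine ⟨c / 2 * (l / (4 * s)), T₁, by positivity, ?_⟩
  intro T hT
  obtain ⟨h1, h2, h3⟩ := hT₁ T hT
  have hT2 : 2 ≤ T := (le_max_left _ _).trans h3
  have hTK : K₀ ^ b ≤ T := (le_max_right _ _).trans h3
  have hT0 : 0 < T := by linarith
  have hlogT : 0 < Real.log T := Real.log_pos (by linarith)
  set J := JT a b (1 / K₀) T with hJdef
  have hRT : 1 ≤ (1 / K₀) ^ b * T := by
    rw [div_pow, one_pow, one_div, inv_mul_eq_div, le_div_iff₀ (by positivity), one_mul]
    exact hTK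
  -- the shells
  set Sh : ℕ → Finset ((Fin n → ℤ) × (Fin m → ℤ)) := fun i =>
    PU M (2 ^ (s * (i + 1))) (Lb a b T (s * (i + 1))) \ PU M (2 ^ (s * i)) (Lb a b T (s * (i + 1)))
    with hSh
  have hsize : ∀ i, s * (i + 1) ≤ J → c / 2 * T ≤ ((Sh i).card : ℝ) := by
    intro i hi
    have hL := Lb_pos (a := a) (b := b) hT0 (s * (i + 1))
    have e1 := JT_ge ha0 (by positivity : 0 < 1 / K₀) hRT hT0 hi
    have e2 : K₀ ≤ Lb a b T (s * (i + 1)) := by
      apply le_of_pow_le_pow_left₀ hb0.ne' hL.le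
      rw [Lb_pow hb0.ne' hT0.le, le_div_iff₀ (by positivity)]
      rw [div_pow, one_pow, one_div, inv_mul_eq_div, le_div_iff₀ (by positivity)] at e1
      linarith
    have e3 : K₀ ≤ 2 ^ (s * (i + 1)) := by
      calc K₀ ≤ 2 ^ s := his
        _ ≤ 2 ^ (s * (i + 1)) := pow_le_pow_right₀ (by norm_num) (Nat.le_mul_of_pos_right _ (by omega))
    have e4 := hlow _ _ e3 e2
    have e5 := hPU (2 ^ (s * i)) (Lb a b T (s * (i + 1))) (one_le_pow₀ (by norm_num))
      (hK₀.trans e2)
    have e6 := Lb_prod (a := a) (b := b) hb0.ne' hT0.le (s * (i + 1))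
    rw [e6] at e4
    have e7 : (2 : ℝ) ^ (s * (i + 1)) = 2 ^ s * 2 ^ (s * i) := by
      rw [← pow_add]
      congr 1
      ring
    have e8 : D * ((2 ^ (s * i)) ^ a * Lb a b T (s * (i + 1)) ^ b) ≤ c / 2 * T := by
      have e9 : (2 ^ s) ^ a * ((2 ^ (s * i)) ^ a * Lb a b T (s * (i + 1)) ^ b) = T := by
        rw [← mul_assoc, ← mul_pow, ← e7, e6]
      have e10 : 2 * D / c ≤ (2 ^ s) ^ a := hgs.trans (le_self_pow₀ (one_le_pow₀ (by norm_num)) ha0.ne')
      rw [div_le_iff₀ hc] at e10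
      set Q := (2 ^ (s * i)) ^ a * Lb a b T (s * (i + 1)) ^ b with hQ
      have hQ0 : 0 < Q := by positivity
      calc D * Q = (2 * D) * Q / 2 := by ring
        _ ≤ ((2 ^ s) ^ a * c) * Q / 2 := by gcongr
        _ = c / 2 * ((2 ^ s) ^ a * Q) := by ring
        _ = c / 2 * T := by rw [e9]
    have hsub : PU M (2 ^ (s * i)) (Lb a b T (s * (i + 1))) ⊆
        PU M (2 ^ (s * (i + 1))) (Lb a b T (s * (i + 1))) := by
      apply PU_mono (by positivity) hL.le _ le_rfl
      apply pow_le_pow_right₀ (by norm_num)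
      exact Nat.mul_le_mul_left _ (by omega)
    simp only [hSh]
    rw [Finset.card_sdiff_of_subset hsub, Nat.cast_sub (Finset.card_le_card hsub)]
    linarith
  have hdis : ∀ i ∈ Finset.range (J / s), ∀ j ∈ Finset.range (J / s), i ≠ j →
      Disjoint (Sh i) (Sh j) := by
    have hlt : ∀ i j, i < j → Disjoint (Sh i) (Sh j) := by
      intro i j hij
      rw [Finset.disjoint_left]
      intro p hp hp'
      simp only [hSh, Finset.mem_sdiff] at hp hp'
      have hLi := Lb_pos (a := a) (b := b) hT0 (s * (i + 1))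
      have hLj := Lb_pos (a := a) (b := b) hT0 (s * (j + 1))
      rw [mem_PU (by positivity) hLi.le] at hp
      rw [mem_PU (by positivity) hLj.le, mem_PU (by positivity) hLj.le] at hp'
      apply hp'.2
      refine ⟨hp.1.1.trans ?_, hp'.1.2⟩
      apply pow_le_pow_right₀ (by norm_num)
      exact Nat.mul_le_mul_left _ (by omega)
    intro i _ j _ hij
    rcases lt_or_gt_of_ne hij with h | h
    · exact hlt i j h
    · exact (hlt j i h).symm
  have hsub : (Finset.range (J / s)).biUnion Sh ⊆ FU M T := by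
    intro p hp
    rw [Finset.mem_biUnion] at hp
    obtain ⟨i, _, hp⟩ := hp
    simp only [hSh, Finset.mem_sdiff] at hp
    have hLi := Lb_pos (a := a) (b := b) hT0 (s * (i + 1))
    rw [mem_PU (by positivity) hLi.le] at hp
    rw [mem_FU hk (by omega) (by omega) hT0.le]
    refine ⟨hp.1.2.2.1, hp.1.2.2.2.1, hp.1.2.2.2.2, ?_⟩
    have e6 := Lb_prod (a := a) (b := b) hb0.ne' hT0.le (s * (i + 1))
    unfold HH
    calc ‖ic p.1‖ ^ (n - k) * ‖ic p.2‖ ^ (m - k) ≤
        (2 ^ (s * (i + 1))) ^ (n - k) * (Lb a b T (s * (i + 1))) ^ (m - k) := by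
          gcongr
          · exact hp.1.1
          · exact hp.1.2.1
      _ = T := e6
  have h4 : ((J / s : ℕ) : ℝ) * (c / 2 * T) ≤ ((FU M T).card : ℝ) := by
    calc ((J / s : ℕ) : ℝ) * (c / 2 * T) = ∑ i ∈ Finset.range (J / s), c / 2 * T := by
          rw [Finset.sum_const, Finset.card_range, nsmul_eq_mul]
      _ ≤ ∑ i ∈ Finset.range (J / s), ((Sh i).card : ℝ) := by
          refine Finset.sum_le_sum fun i hi => hsize i ?_
          rw [Finset.mem_range] at hi
          calc s * (i + 1) ≤ s * (J / s) := Nat.mul_le_mul_left _ hi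
            _ ≤ J := Nat.mul_div_le J s
      _ = (((Finset.range (J / s)).biUnion Sh).card : ℝ) := by
          rw [Finset.card_biUnion hdis]
          push_cast
          rfl
      _ ≤ _ := by exact_mod_cast Finset.card_le_card hsub
  have h5 : l / (4 * s) * Real.log T ≤ ((J / s : ℕ) : ℝ) := by
    have h6 : (J : ℝ) < s * (((J / s : ℕ) : ℝ) + 1) := by
      have := Nat.lt_mul_div_succ J hs0
      exact_mod_cast this
    have h7 : l / 2 * Real.log T ≤ J := by
      rwa [le_div_iff₀ hlogT] at h1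
    have h8 : 8 * s ≤ l * Real.log T := by
      rw [div_le_iff₀ hl0] at h2
      linarith
    rw [div_mul_eq_mul_div, div_le_iff₀ (by positivity)]
    nlinarith
  calc c / 2 * (l / (4 * s)) * (T * Real.log T) = (l / (4 * s) * Real.log T) * (c / 2 * T) := by ring
    _ ≤ ((J / s : ℕ) : ℝ) * (c / 2 * T) := by gcongr
    _ ≤ _ := h4

open Classical in
/-- The primitive pairs. -/
noncomputable def FP (M : Fin k → Matrix (Fin n) (Fin m) ℤ) (T : ℝ) :
    Finset ((Fin n → ℤ) × (Fin m → ℤ)) :=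
  (FU M T).filter fun p => Prm p.1 ∧ Prm p.2

/-- **The lower bound for primitive pairs.** -/
theorem low_FP (hM : Smooth M) (hk : 1 ≤ k) (hn : 2 * k + 1 ≤ n) (hm : 2 * k + 1 ≤ m) :
    ∃ c T₀ : ℝ, 0 < c ∧ ∀ T : ℝ, T₀ ≤ T → c * (T * Real.log T) ≤ ((FP M T).card : ℝ) := by
  classical
  obtain ⟨c, T₀, hc, hlow⟩ := low_FU hM hk hn hm
  obtain ⟨C₁, hC₁, hnp1⟩ := np1 hM hk hn hm
  obtain ⟨C₂, hC₂, hnp2⟩ := np2 hM hk hn hm
  obtain ⟨P, hP⟩ := exists_nat_gt (4 * (C₁ + C₂) / c)
  have hP0 : (0 : ℝ) < P := lt_of_le_of_lt (by positivity) hP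
  have hP1 : 1 ≤ P := by
    by_contra h
    have : P = 0 := by omega
    rw [this] at hP0
    simp at hP0
  refine ⟨c / (2 * (P : ℝ) ^ 2), max T₀ 3, by positivity, ?_⟩
  intro T hT
  have hT1 : T₀ ≤ T := (le_max_left _ _).trans hT
  have hT3 : 3 ≤ T := (le_max_right _ _).trans hT
  have hT0 : 0 < T := by linarith
  have hlogT : 1 ≤ Real.log T := by
    rw [Real.le_log_iff_exp_le hT0]
    have := Real.exp_one_lt_d9
    linarith
  set B₁ := (FU M T).filter fun p => ∃ (d : ℕ) (x : Fin n → ℤ), P < d ∧ p.1 = (d : ℤ) • x with hB₁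
  set B₂ := (FU M T).filter fun p => ∃ (d : ℕ) (y : Fin m → ℤ), P < d ∧ p.2 = (d : ℤ) • y with hB₂
  have h1 := hnp1 T P B₁ (by linarith) hP1 (by
    intro p hp
    rw [hB₁, Finset.mem_filter, mem_FU hk (by omega) (by omega) hT0.le] at hp
    exact ⟨hp.1.1, hp.1.2.1, hp.1.2.2.1, hp.1.2.2.2, hp.2⟩)
  have h2 := hnp2 T P B₂ (by linarith) hP1 (by
    intro p hp
    rw [hB₂, Finset.mem_filter, mem_FU hk (by omega) (by omega) hT0.le] at hp
    exact ⟨hp.1.1, hp.1.2.1, hp.1.2.2.1, hp.1.2.2.2, hp.2⟩)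
  set W := (Finset.range P ×ˢ Finset.range P) ×ˢ FP M T with hW
  set f : (ℕ × ℕ) × ((Fin n → ℤ) × (Fin m → ℤ)) → (Fin n → ℤ) × (Fin m → ℤ) :=
    fun w => (((w.1.1 + 1 : ℕ) : ℤ) • w.2.1, ((w.1.2 + 1 : ℕ) : ℤ) • w.2.2) with hf
  have hcov : FU M T ⊆ (W.image f ∪ B₁) ∪ B₂ := by
    intro p hp
    have hp' := (mem_FU hk (by omega) (by omega) hT0.le).1 hp
    obtain ⟨h3, h4, h5, h6⟩ := hp'
    obtain ⟨d, x, hd, hx, hdx⟩ := exists_prim (jj_ne hk h4)
    obtain ⟨e, y, he, hy, hey⟩ := exists_prim (jj_ne hk h5)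
    by_cases hdP : P < d
    · apply Finset.mem_union_left
      apply Finset.mem_union_right
      rw [hB₁, Finset.mem_filter]
      exact ⟨hp, d, x, hdP, hdx⟩
    by_cases heP : P < e
    · apply Finset.mem_union_right
      rw [hB₂, Finset.mem_filter]
      exact ⟨hp, e, y, heP, hey⟩
    apply Finset.mem_union_left
    apply Finset.mem_union_left
    rw [Finset.mem_image]
    have hd0 : (d : ℤ) ≠ 0 := by exact_mod_cast (by omega : d ≠ 0)
    have he0 : (e : ℤ) ≠ 0 := by exact_mod_cast (by omega : e ≠ 0)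
    refine ⟨((d - 1, e - 1), (x, y)), ?_, ?_⟩
    · rw [hW, Finset.mem_product, Finset.mem_product, Finset.mem_range, Finset.mem_range]
      refine ⟨⟨by simp only; omega, by simp only; omega⟩, ?_⟩
      unfold FP
      rw [Finset.mem_filter, mem_FU hk (by omega) (by omega) hT0.le]
      have e1 : jj M x = 0 := by
        rw [hdx, jj_smul hd0] at h4
        exact h4
      have e2 : jj (tr M) y = 0 := by
        rw [hey, jj_smul he0] at h5
        exact h5
      refine ⟨⟨?_, e1, e2, ?_⟩, hx, hy⟩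
      · rw [hdx] at h3
        have h7 := inc_of_smul hd0 h3
        rw [hey] at h7
        exact inc_tr.1 (inc_of_smul he0 (inc_tr.2 h7))
      · refine le_trans ?_ h6
        unfold HH
        rw [hdx, hey, ic_smul, ic_smul, norm_smul, norm_smul, Int.cast_natCast, Int.cast_natCast,
          Real.norm_of_nonneg (Nat.cast_nonneg _), Real.norm_of_nonneg (Nat.cast_nonneg _)]
        have e3 : (1 : ℝ) ≤ d := by exact_mod_cast hd
        have e4 : (1 : ℝ) ≤ e := by exact_mod_cast he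
        simp only
        gcongr
        · exact le_mul_of_one_le_left (norm_nonneg _) e3
        · exact le_mul_of_one_le_left (norm_nonneg _) e4
    · simp only [hf]
      have e1 : d - 1 + 1 = d := by omega
      have e2 : e - 1 + 1 = e := by omega
      rw [e1, e2, ← hdx, ← hey]
  have h3 : ((FU M T).card : ℝ) ≤ (P : ℝ) ^ 2 * (FP M T).card + B₁.card + B₂.card := by
    have h4 := (Finset.card_le_card hcov).trans ((Finset.card_union_le _ _).trans
      (Nat.add_le_add_right ((Finset.card_union_le _ _).trans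
        (Nat.add_le_add_right Finset.card_image_le _)) _))
    rw [hW, Finset.card_product, Finset.card_product, Finset.card_range] at h4
    have h5 : ((FU M T).card : ℝ) ≤ ((P * P * (FP M T).card + B₁.card + B₂.card : ℕ) : ℝ) := by
      exact_mod_cast h4
    push_cast at h5
    rw [sq]
    exact h5
  have h4 := hlow T hT1
  have h5 : (B₁.card : ℝ) + B₂.card ≤ c / 2 * (T * Real.log T) := by
    have h6 : (C₁ + C₂) * T * (1 + Real.log T) / P ≤ c / 2 * (T * Real.log T) := by
      rw [div_le_iff₀ hP0]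
      rw [div_lt_iff₀ hc] at hP
      have h7 : 1 + Real.log T ≤ 2 * Real.log T := by linarith
      calc (C₁ + C₂) * T * (1 + Real.log T) ≤ (C₁ + C₂) * T * (2 * Real.log T) := by gcongr
        _ = (4 * (C₁ + C₂)) / 2 * (T * Real.log T) := by ring
        _ ≤ (P * c) / 2 * (T * Real.log T) := by gcongr
        _ = _ := by ring
    have h7 : (C₁ + C₂) * T * (1 + Real.log T) / P =
        C₁ * T * (1 + Real.log T) / P + C₂ * T * (1 + Real.log T) / P := by ring
    linarith
  have h6 : c / 2 * (T * Real.log T) ≤ (P : ℝ) ^ 2 * (FP M T).card := by linarith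
  have h7 : c / (2 * (P : ℝ) ^ 2) * (T * Real.log T) = (c / 2 * (T * Real.log T)) / (P : ℝ) ^ 2 := by
    field_simp
  rw [h7, div_le_iff₀ (by positivity)]
  linarith

end Pool.Agent.N852.DD
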