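import Mathlib
import Pool.Agent.N852.DD.Low2
import Pool.Agent.N852.RepN

/-!
The asymptotic formula for all primitive pairs outside of the degenerate loci.
-/

namespace Pool.Agent.N852.DD

open Matrix Module Filter Topology
open Pool.Agent.N852 (ic ic_add ic_sub ic_neg Cg Prm exists_prim om om_nonneg om_le_one om_one
  om_zero md BQ md_mem cg_md eq_md AL AL_congr AL_prm AL_large conv_crit Cg.symm Cg.trans Cg.dvd)

variable {k n m : ℕ} {M : Fin k → Matrix (Fin n) (Fin m) ℤ}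

/-- A function of pairs of primitive vectors which can be approximated by functions of residue
classes. -/
structure CA (M : Fin k → Matrix (Fin n) (Fin m) ℤ) (φ : (Fin n → ℤ) → (Fin m → ℤ) → ℝ) :
    Prop where
  low : ∃ c : ℝ, 0 < c ∧ ∀ x y, Prm x → Prm y → Inc M x y → c ≤ φ x y
  apx : ∀ ε : ℝ, 0 < ε → ∃ q : ℕ, q ≠ 0 ∧ ∀ x y x' y', Prm x → Prm y → Inc M x y →
    Prm x' → Prm y' → Inc M x' y' → Cg q x x' → Cg q y y' → φ x y ≤ (1 + ε) * φ x' y'

open Classical in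
/-- The value on a class. -/
noncomputable def kap (M : Fin k → Matrix (Fin n) (Fin m) ℤ)
    (φ : (Fin n → ℤ) → (Fin m → ℤ) → ℝ) (q : ℕ) (c ε : ℝ) (a : Fin n → ℤ) (b : Fin m → ℤ) : ℝ :=
  if h : ∃ p : (Fin n → ℤ) × (Fin m → ℤ), Prm p.1 ∧ Prm p.2 ∧ Inc M p.1 p.2 ∧ Cg q p.1 a ∧
    Cg q p.2 b then φ h.choose.1 h.choose.2 / (1 + ε) else c

theorem kap_low {φ : (Fin n → ℤ) → (Fin m → ℤ) → ℝ} {q : ℕ} {c ε : ℝ} {a : Fin n → ℤ}
    {b : Fin m → ℤ} (hε : 0 < ε) (hε1 : ε ≤ 1) (hc0 : 0 < c)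
    (hc : ∀ x y, Prm x → Prm y → Inc M x y → c ≤ φ x y) : c / 2 ≤ kap M φ q c ε a b := by
  unfold kap
  split_ifs with h
  · have h1 := h.choose_spec
    have h2 := hc _ _ h1.1 h1.2.1 h1.2.2.1
    rw [div_le_div_iff₀ (by norm_num) (by linarith)]
    nlinarith
  · linarith

theorem kap_spec {φ : (Fin n → ℤ) → (Fin m → ℤ) → ℝ} {q : ℕ} {c ε : ℝ}
    (hε : 0 < ε)
    (hq : ∀ x y x' y', Prm x → Prm y → Inc M x y →
      Prm x' → Prm y' → Inc M x' y' → Cg q x x' → Cg q y y' → φ x y ≤ (1 + ε) * φ x' y')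
    {x a : Fin n → ℤ} {y b : Fin m → ℤ} (hx : Prm x) (hy : Prm y) (hxy : Inc M x y) (ha : Cg q x a)
    (hb : Cg q y b) :
    kap M φ q c ε a b ≤ φ x y ∧ φ x y ≤ (1 + ε) ^ 2 * kap M φ q c ε a b := by
  have hex : ∃ p : (Fin n → ℤ) × (Fin m → ℤ), Prm p.1 ∧ Prm p.2 ∧ Inc M p.1 p.2 ∧ Cg q p.1 a ∧
    Cg q p.2 b := ⟨(x, y), hx, hy, hxy, ha, hb⟩
  have h1 := hex.choose_spec
  unfold kap
  rw [dif_pos hex]
  obtain ⟨h2, h3, h4, h5, h6⟩ := h1
  have h7 := hq _ _ _ _ h2 h3 h4 hx hy hxy (h5.trans ha.symm) (h6.trans hb.symm)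
  have h8 := hq _ _ _ _ hx hy hxy h2 h3 h4 (ha.trans h5.symm) (hb.trans h6.symm)
  constructor
  · rw [div_le_iff₀ (by linarith)]
    linarith
  · have : (1 + ε) ^ 2 * (φ hex.choose.1 hex.choose.2 / (1 + ε)) =
        (1 + ε) * φ hex.choose.1 hex.choose.2 := by
      field_simp
    rw [this]
    exact h8

/-- The pairs counted. -/
def AS (M : Fin k → Matrix (Fin n) (Fin m) ℤ) (φ : (Fin n → ℤ) → (Fin m → ℤ) → ℝ)
    (h : (Fin n → ℝ) → (Fin m → ℝ) → ℝ) (T : ℝ) : Set ((Fin n → ℤ) × (Fin m → ℤ)) :=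
  {p | Prm p.1 ∧ Prm p.2 ∧ Inc M p.1 p.2 ∧ jj M p.1 = 0 ∧ jj (tr M) p.2 = 0 ∧
    φ p.1 p.2 * h (ic p.1) (ic p.2) ≤ T}

open Classical in
/-- The total weighted count. -/
noncomputable def TS (M : Fin k → Matrix (Fin n) (Fin m) ℤ) (h : (Fin n → ℝ) → (Fin m → ℝ) → ℝ)
    (κ : (Fin n → ℤ) → (Fin m → ℤ) → ℝ) (ε : ℝ) (q P : ℕ) (R T : ℝ) : ℝ :=
  ∑ a ∈ (BQ n q).filter (AL P), ∑ b ∈ (BQ m q).filter (AL P), WW M h (κ a b) ε q a b R T

open Classical in
theorem TS_eq {h : (Fin n → ℝ) → (Fin m → ℝ) → ℝ} {κ : (Fin n → ℤ) → (Fin m → ℤ) → ℝ} {ε R : ℝ}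
    {q P : ℕ} (hq : q ≠ 0) (hP : ∀ p : ℕ, p.Prime → p ≤ P → p ∣ q) {T : ℝ} :
    TS M h κ ε q P R T = ∑ p ∈ FU M (R * T), if AL P p.1 ∧ AL P p.2 then
      om ε (κ (md q p.1) (md q p.2) * (h (ic p.1) (ic p.2) / T)) else 0 := by
  unfold TS WW
  have h2 : ∑ a ∈ (BQ n q).filter (AL P), ∑ b ∈ (BQ m q).filter (AL P), ∑ p ∈ FU M (R * T),
      (if Cg q p.1 a ∧ Cg q p.2 b then om ε (κ a b * (h (ic p.1) (ic p.2) / T)) else 0) =
      ∑ p ∈ FU M (R * T), ∑ a ∈ (BQ n q).filter (AL P), ∑ b ∈ (BQ m q).filter (AL P),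
      (if Cg q p.1 a ∧ Cg q p.2 b then om ε (κ a b * (h (ic p.1) (ic p.2) / T)) else 0) := by
    rw [Finset.sum_congr rfl fun a _ => Finset.sum_comm]
    exact Finset.sum_comm
  rw [h2]
  refine Finset.sum_congr rfl fun p _ => ?_
  have hmd1 := md_mem hq p.1
  have hmd2 := md_mem hq p.2
  by_cases hA1 : AL P p.1
  · rw [Finset.sum_eq_single (md q p.1)]
    · by_cases hA : AL P p.2
      · rw [if_pos ⟨hA1, hA⟩, Finset.sum_eq_single (md q p.2)]
        · rw [if_pos ⟨cg_md q p.1, cg_md q p.2⟩]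
        · intro b hb hne
          rw [if_neg]
          rintro ⟨_, h3⟩
          exact hne (eq_md (Finset.mem_filter.1 hb).1 h3)
        · intro h3
          exact absurd (Finset.mem_filter.2 ⟨hmd2, AL_congr hP (cg_md q p.2) hA⟩) h3
      · rw [if_neg fun h => hA h.2]
        apply Finset.sum_eq_zero
        intro b hb
        rw [Finset.mem_filter] at hb
        rw [if_neg]
        rintro ⟨_, h3⟩
        exact hA (AL_congr hP h3.symm hb.2)
    · intro a ha hne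
      apply Finset.sum_eq_zero
      intro b _
      rw [if_neg]
      rintro ⟨h3, _⟩
      exact hne (eq_md (Finset.mem_filter.1 ha).1 h3)
    · intro h3
      exact absurd (Finset.mem_filter.2 ⟨hmd1, AL_congr hP (cg_md q p.1) hA1⟩) h3
  · rw [if_neg fun h => hA1 h.1]
    apply Finset.sum_eq_zero
    intro a ha
    apply Finset.sum_eq_zero
    intro b _
    rw [Finset.mem_filter] at ha
    rw [if_neg]
    rintro ⟨h3, _⟩
    exact hA1 (AL_congr hP h3.symm ha.2)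

theorem hz_eq {h : (Fin n → ℝ) → (Fin m → ℝ) → ℝ} {x : Fin n → ℝ} {y : Fin m → ℝ} (hy : y ≠ 0) :
    hz h x y = h x y := by
  unfold hz
  rw [if_neg hy]

theorem AS_sub (hk : 1 ≤ k) (hn : k < n) (hm : k < m) {φ : (Fin n → ℤ) → (Fin m → ℤ) → ℝ}
    {h : (Fin n → ℝ) → (Fin m → ℝ) → ℝ} {c₁ c₀ R : ℝ} (hc1 : 0 < c₁) (hc0 : 0 < c₀)
    (hc : ∀ x y, Prm x → Prm y → Inc M x y → c₁ ≤ φ x y)
    (hcb : ∀ x w, x ≠ 0 → Inc M x w → c₀ * (‖x‖ ^ (n - k) * ‖w‖ ^ (m - k)) ≤ hz h x w)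
    (hR : 1 ≤ c₁ * c₀ * R) {T : ℝ} (hT : 0 < T) :
    ∀ p ∈ AS M φ h T, p ∈ FU M (R * T) := by
  have hR0 : 0 < R := by
    by_contra hcon
    rw [not_lt] at hcon
    have : c₁ * c₀ * R ≤ 0 := mul_nonpos_of_nonneg_of_nonpos (by positivity) hcon
    linarith
  rintro p ⟨h1, h2, h3, h4, h5, h6⟩
  rw [mem_FU hk hn hm (by positivity)]
  refine ⟨h3, h4, h5, ?_⟩
  have h7 := hc p.1 p.2 h1 h2 h3
  have h8 := hcb (ic p.1) (ic p.2) (ic_ne h1.ne) (inc_ic h3)
  rw [hz_eq (ic_ne h2.ne)] at h8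
  have h9 : 0 ≤ HH k p := by unfold HH; positivity
  have h10 : c₁ * (c₀ * HH k p) ≤ T := by
    calc c₁ * (c₀ * HH k p) ≤ φ p.1 p.2 * (c₀ * HH k p) := by gcongr
      _ ≤ φ p.1 p.2 * h (ic p.1) (ic p.2) := by
        apply mul_le_mul_of_nonneg_left h8
        linarith
      _ ≤ T := h6
  have h11 : c₁ * c₀ * HH k p ≤ c₁ * c₀ * (R * T) := by
    calc c₁ * c₀ * HH k p ≤ 1 * T := by linarith
      _ ≤ (c₁ * c₀ * R) * T := by gcongr
      _ = _ := by ring
  exact le_of_mul_le_mul_left h11 (by positivity)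

/-- **All pairs.** -/
theorem total (hM : Smooth M) (hk : 1 ≤ k) (hn : 2 * k + 1 ≤ n) (hm : 2 * k + 1 ≤ m)
    {φ : (Fin n → ℤ) → (Fin m → ℤ) → ℝ} (hφ : CA M φ)
    {h : (Fin n → ℝ) → (Fin m → ℝ) → ℝ} (hh : LM M h) :
    ∃ c : ℝ, Tendsto (fun T : ℝ => ((AS M φ h T).ncard : ℝ) / (T ^ 1 * Real.log T)) atTop
      (𝓝 c) := by
  classical
  obtain ⟨c₁, hc1, hc⟩ := hφ.low
  obtain ⟨c₀, CF, hc0, hCF, hb⟩ := hz_bounds hh (by omega)
  have hcb : ∀ x w, x ≠ 0 → Inc M x w → c₀ * (‖x‖ ^ (n - k) * ‖w‖ ^ (m - k)) ≤ hz h x w :=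
    fun x w hx hxw => (hb x w hx hxw).1
  obtain ⟨C₁, hC₁, hnp1⟩ := np1 hM hk hn hm
  obtain ⟨C₂, hC₂, hnp2⟩ := np2 hM hk hn hm
  obtain ⟨R, hR⟩ : ∃ R : ℝ, R = max 1 (4 / (c₁ * c₀)) := ⟨_, rfl⟩
  have hR1 : 1 ≤ R := by rw [hR]; exact le_max_left _ _
  have hR0 : 0 < R := by linarith
  have hR4 : 4 ≤ c₁ * c₀ * R := by
    have h1 : 4 / (c₁ * c₀) ≤ R := by rw [hR]; exact le_max_right _ _
    rw [div_le_iff₀ (by positivity)] at h1
    linarith
  have hAS : ∀ T : ℝ, 0 < T → ∀ p ∈ AS M φ h T, p ∈ FU M (R * T) := fun T hT =>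
    AS_sub hk (by omega) (by omega) hc1 hc0 hc hcb (by linarith) hT
  have hfin : ∀ T : ℝ, 0 < T → (AS M φ h T).Finite := fun T hT =>
    (FU M (R * T)).finite_toSet.subset (hAS T hT)
  apply conv_crit 1 (fun T => ((AS M φ h T).ncard : ℝ)) (fun T => Nat.cast_nonneg _)
  intro ε hε
  obtain ⟨ε₁, hε₁⟩ : ∃ ε₁ : ℝ, ε₁ = min 1 (ε / 7) := ⟨_, rfl⟩
  have he0 : 0 < ε₁ := by rw [hε₁]; positivity
  have he1 : ε₁ ≤ 1 := by rw [hε₁]; exact min_le_left _ _
  have he2 : 7 * ε₁ ≤ ε := by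
    have : ε₁ ≤ ε / 7 := by rw [hε₁]; exact min_le_right _ _
    linarith
  obtain ⟨q₀, hq0, hapx⟩ := hφ.apx ε₁ he0
  obtain ⟨P, hPdef⟩ := exists_nat_gt (max 2 (2 * (C₁ + C₂) * R / ε))
  have hP2' : (2 : ℝ) < P := lt_of_le_of_lt (le_max_left _ _) hPdef
  have hPε' : 2 * (C₁ + C₂) * R / ε < P := lt_of_le_of_lt (le_max_right _ _) hPdef
  have hP2 : 2 ≤ P := by exact_mod_cast hP2'.le
  have hP0 : (0 : ℝ) < P := by linarith
  obtain ⟨q, hqdef⟩ : ∃ q : ℕ, q = q₀ * P.factorial := ⟨_, rfl⟩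
  have hq : q ≠ 0 := by rw [hqdef]; exact mul_ne_zero hq0 (Nat.factorial_ne_zero P)
  have hPq : ∀ p : ℕ, p.Prime → p ≤ P → p ∣ q := by
    intro p hp hpP
    rw [hqdef]
    exact Dvd.dvd.mul_left (hp.dvd_factorial.2 hpP) q₀
  have hqq : ∀ x y x' y', Prm x → Prm y → Inc M x y →
      Prm x' → Prm y' → Inc M x' y' → Cg q x x' → Cg q y y' → φ x y ≤ (1 + ε₁) * φ x' y' := by
    intro x y x' y' h1 h2 h3 h4 h5 h6 h7 h8
    exact hapx x y x' y' h1 h2 h3 h4 h5 h6 (h7.dvd (by rw [hqdef]; exact Dvd.intro _ rfl))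
      (h8.dvd (by rw [hqdef]; exact Dvd.intro _ rfl))
  have hκ : ∀ a b, c₁ / 2 ≤ kap M φ q c₁ ε₁ a b := fun a b => kap_low he0 he1 hc1 hc
  have hκ0 : ∀ a b, 0 < kap M φ q c₁ ε₁ a b := fun a b => by
    have := hκ a b
    linarith
  have hκR : ∀ a b, 1 + ε₁ ≤ kap M φ q c₁ ε₁ a b * (c₀ * R) := by
    intro a b
    have h1 : c₁ / 2 * (c₀ * R) ≤ kap M φ q c₁ ε₁ a b * (c₀ * R) := by
      have := hκ a b
      gcongr
    nlinarith
  have hlim := fun a b => WW_asymp hM hk hn hm hh hc0 hcb (hκ0 a b) he0 hR0.le (hκR a b) hq a b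
  choose c hcl using hlim
  refine ⟨(1 + ε₁) ^ 3, TS M h (kap M φ q c₁ ε₁) ε₁ q P R,
    ∑ a ∈ (BQ n q).filter (AL P), ∑ b ∈ (BQ m q).filter (AL P), c a b, ?_, ?_, ?_, ?_⟩
  · exact one_le_pow₀ (by linarith)
  · nlinarith [mul_nonneg he0.le he0.le, mul_nonneg (mul_nonneg he0.le he0.le) he0.le]
  · have h1 : (fun T : ℝ => TS M h (kap M φ q c₁ ε₁) ε₁ q P R T / (T ^ 1 * Real.log T)) =
        fun T : ℝ => ∑ a ∈ (BQ n q).filter (AL P), ∑ b ∈ (BQ m q).filter (AL P),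
          WW M h (kap M φ q c₁ ε₁ a b) ε₁ q a b R T / (T * Real.log T) := by
      funext T
      unfold TS
      rw [pow_one]
      simp only [Finset.sum_div]
    rw [h1]
    exact tendsto_finsetSum _ fun a _ => tendsto_finsetSum _ fun b _ => hcl a b
  · have hlogR : ∀ᶠ T : ℝ in atTop, 1 + Real.log R ≤ Real.log T :=
      Real.tendsto_log_atTop.eventually (eventually_ge_atTop _)
    filter_upwards [eventually_ge_atTop 4, hlogR] with T hT hlR
    have hT0 : 0 < T := by linarith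
    have hlog : 0 < Real.log T := Real.log_pos (by linarith)
    rw [TS_eq hq hPq]
    constructor
    · -- the lower inequality
      have h1 : AS M φ h T = ((FU M (R * T)).filter fun p => p ∈ AS M φ h T : Finset _) := by
        ext p
        rw [Finset.mem_coe, Finset.mem_filter]
        exact ⟨fun h => ⟨hAS T hT0 p h, h⟩, fun h => h.2⟩
      have h2 : ((AS M φ h T).ncard : ℝ) = ∑ p ∈ FU M (R * T), if p ∈ AS M φ h T then 1 else 0 := by
        rw [Finset.sum_boole, ← Set.ncard_coe_finset, ← h1]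
      rw [h2]
      refine Finset.sum_le_sum fun p hp => ?_
      by_cases hpF : p ∈ AS M φ h T
      · rw [if_pos hpF]
        obtain ⟨h3, h4, h5, h6, h7, h8⟩ := hpF
        rw [if_pos ⟨AL_prm h3, AL_prm h4⟩, om_one he0]
        have h9 := (kap_spec he0 hqq h3 h4 h5 (cg_md q p.1) (cg_md q p.2) (c := c₁)).1
        have h10 : 0 < h (ic p.1) (ic p.2) := hh.pos _ _ (ic_ne h3.ne) (ic_ne h4.ne) (inc_ic h5)
        rw [← mul_div_assoc, div_le_one hT0]
        refine le_trans ?_ h8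
        gcongr
      · rw [if_neg hpF]
        split_ifs
        · exact om_nonneg _ _
        · exact le_rfl
    · -- the upper inequality
      set l : ℝ := (1 + ε₁) ^ 3 with hl
      set NP1 : (Fin n → ℤ) × (Fin m → ℤ) → Prop := fun p =>
        ∃ (d : ℕ) (x : Fin n → ℤ), P < d ∧ p.1 = (d : ℤ) • x with hNP1
      set NP2 : (Fin n → ℤ) × (Fin m → ℤ) → Prop := fun p =>
        ∃ (d : ℕ) (y : Fin m → ℤ), P < d ∧ p.2 = (d : ℤ) • y with hNP2
      have hpt : ∀ p ∈ FU M (R * T), (if AL P p.1 ∧ AL P p.2 then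
          om ε₁ (kap M φ q c₁ ε₁ (md q p.1) (md q p.2) * (h (ic p.1) (ic p.2) / T)) else 0) ≤
          (if p ∈ AS M φ h (l * T) then 1 else 0) + ((if NP1 p then (1 : ℝ) else 0) +
            (if NP2 p then (1 : ℝ) else 0)) := by
        intro p hp
        rw [mem_FU hk (by omega) (by omega) (by positivity)] at hp
        obtain ⟨h1, h2, h3, h4⟩ := hp
        have hx := jj_ne hk h2
        have hy := jj_ne hk h3
        have hnn1 : (0 : ℝ) ≤ if p ∈ AS M φ h (l * T) then 1 else 0 := by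
          split_ifs <;> norm_num
        have hnn2 : (0 : ℝ) ≤ if NP1 p then (1 : ℝ) else 0 := by
          split_ifs <;> norm_num
        have hnn3 : (0 : ℝ) ≤ if NP2 p then (1 : ℝ) else 0 := by
          split_ifs <;> norm_num
        by_cases hA : AL P p.1 ∧ AL P p.2
        swap
        · rw [if_neg hA]
          linarith
        rw [if_pos hA]
        set ω := om ε₁ (kap M φ q c₁ ε₁ (md q p.1) (md q p.2) * (h (ic p.1) (ic p.2) / T)) with hω
        have hω1 : ω ≤ 1 := om_le_one _ _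
        by_cases hp1 : Prm p.1
        swap
        · obtain ⟨d, z, hd, -, hdz⟩ := AL_large hx hA.1 hp1
          have : NP1 p := ⟨d, z, hd, hdz⟩
          rw [if_pos this]
          linarith
        by_cases hp2 : Prm p.2
        swap
        · obtain ⟨d, z, hd, -, hdz⟩ := AL_large hy hA.2 hp2
          have : NP2 p := ⟨d, z, hd, hdz⟩
          rw [if_pos this]
          linarith
        by_cases h0 : ω = 0
        · rw [h0]
          linarith
        have hpF : p ∈ AS M φ h (l * T) := by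
          refine ⟨hp1, hp2, h1, h2, h3, ?_⟩
          have h5 : kap M φ q c₁ ε₁ (md q p.1) (md q p.2) * (h (ic p.1) (ic p.2) / T) < 1 + ε₁ := by
            by_contra hcon
            rw [not_lt] at hcon
            exact h0 (om_zero he0 hcon)
          have h8 := (kap_spec he0 hqq hp1 hp2 h1 (cg_md q p.1) (cg_md q p.2) (c := c₁)).2
          have h9 : 0 < h (ic p.1) (ic p.2) :=
            hh.pos _ _ (ic_ne hx) (ic_ne hy) (inc_ic h1)
          rw [← mul_div_assoc, div_lt_iff₀ hT0] at h5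
          calc φ p.1 p.2 * h (ic p.1) (ic p.2)
              ≤ ((1 + ε₁) ^ 2 * kap M φ q c₁ ε₁ (md q p.1) (md q p.2)) * h (ic p.1) (ic p.2) := by
                gcongr
            _ = (1 + ε₁) ^ 2 * (kap M φ q c₁ ε₁ (md q p.1) (md q p.2) * h (ic p.1) (ic p.2)) := by
                ring
            _ ≤ (1 + ε₁) ^ 2 * ((1 + ε₁) * T) := by gcongr
            _ = l * T := by rw [hl]; ring
        rw [if_pos hpF]
        linarith
      refine (Finset.sum_le_sum hpt).trans ?_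
      rw [Finset.sum_add_distrib, Finset.sum_add_distrib, Finset.sum_boole, Finset.sum_boole,
        Finset.sum_boole]
      have hl0 : 0 < l := by rw [hl]; positivity
      have h1 : (((FU M (R * T)).filter fun p => p ∈ AS M φ h (l * T)).card : ℝ) ≤
          ((AS M φ h (l * T)).ncard : ℝ) := by
        rw [← Set.ncard_coe_finset]
        exact_mod_cast Set.ncard_le_ncard (fun p hp => (Finset.mem_filter.1 (Finset.mem_coe.1 hp)).2)
          (hfin _ (by positivity))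
      have hRT : 1 ≤ R * T := by nlinarith
      have h2 := hnp1 (R * T) P ((FU M (R * T)).filter NP1) hRT (by omega) (by
        intro p hp
        rw [Finset.mem_filter, mem_FU hk (by omega) (by omega) (by positivity)] at hp
        exact ⟨hp.1.1, hp.1.2.1, hp.1.2.2.1, hp.1.2.2.2, hp.2⟩)
      have h3 := hnp2 (R * T) P ((FU M (R * T)).filter NP2) hRT (by omega) (by
        intro p hp
        rw [Finset.mem_filter, mem_FU hk (by omega) (by omega) (by positivity)] at hp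
        exact ⟨hp.1.1, hp.1.2.1, hp.1.2.2.1, hp.1.2.2.2, hp.2⟩)
      have h4 : (C₁ + C₂) * (R * T) * (1 + Real.log (R * T)) / P ≤ ε * (T ^ 1 * Real.log T) := by
        rw [div_le_iff₀ hP0, pow_one]
        rw [div_lt_iff₀ hε] at hPε'
        have h5 : 1 + Real.log (R * T) ≤ 2 * Real.log T := by
          rw [Real.log_mul hR0.ne' hT0.ne']
          linarith
        calc (C₁ + C₂) * (R * T) * (1 + Real.log (R * T)) ≤
              (C₁ + C₂) * (R * T) * (2 * Real.log T) := by gcongr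
          _ = (2 * (C₁ + C₂) * R) * (T * Real.log T) := by ring
          _ ≤ (P * ε) * (T * Real.log T) := by gcongr
          _ = _ := by ring
      have h5 : (C₁ + C₂) * (R * T) * (1 + Real.log (R * T)) / P =
          C₁ * (R * T) * (1 + Real.log (R * T)) / P + C₂ * (R * T) * (1 + Real.log (R * T)) / P := by
        ring
      linarith

end Pool.Agent.N852.DD
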