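import Mathlib
import Pool.Agent.N852.DD.Fin

/-!
The asymptotic formula with a positive constant.
-/

namespace Pool.Agent.N852.DD

open Matrix Module Filter Topology
open Pool.Agent.N852 (ic ic_add ic_sub ic_neg Cg Prm prm_iff prm_neg Rep.prm rep_or)
open Pool.Agent.H548.WM (Rep)

variable {k n m : ℕ} {M : Fin k → Matrix (Fin n) (Fin m) ℤ}

/-- **Four signs.** -/
theorem four_signs {A : Set ((Fin n → ℤ) × (Fin m → ℤ))} (hA : A.Finite)
    (hprm : ∀ p ∈ A, Prm p.1 ∧ Prm p.2) (h1 : ∀ p, p ∈ A ↔ (-p.1, p.2) ∈ A)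
    (h2 : ∀ p, p ∈ A ↔ (p.1, -p.2) ∈ A) :
    A.ncard = 4 * {p | p ∈ A ∧ Rep p.1 ∧ Rep p.2}.ncard := by
  classical
  set F := hA.toFinset with hF
  have hmem : ∀ p, p ∈ F ↔ p ∈ A := fun p => by rw [hF, Set.Finite.mem_toFinset]
  have hAc : A.ncard = F.card := Set.ncard_eq_toFinset_card _ hA
  have hR : {p | p ∈ A ∧ Rep p.1 ∧ Rep p.2}.ncard =
      (F.filter fun p => Rep p.1 ∧ Rep p.2).card := by
    rw [← Set.ncard_coe_finset]
    congr 1
    ext p
    rw [Finset.mem_coe, Finset.mem_filter, hmem]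
    rfl
  have e1 : (F.filter fun p => Rep (-p.1) ∧ Rep p.2).card =
      (F.filter fun p => Rep p.1 ∧ Rep p.2).card := by
    apply Finset.card_bij (fun p _ => (-p.1, p.2))
    · intro p hp
      rw [Finset.mem_filter, hmem] at hp ⊢
      exact ⟨(h1 p).1 hp.1, hp.2⟩
    · intro p _ p' _ h
      simp only [Prod.mk.injEq, neg_inj] at h
      exact Prod.ext h.1 h.2
    · intro p hp
      rw [Finset.mem_filter, hmem] at hp
      refine ⟨(-p.1, p.2), ?_, by simp⟩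
      rw [Finset.mem_filter, hmem]
      exact ⟨(h1 p).1 hp.1, by simpa using hp.2⟩
  have e2 : (F.filter fun p => Rep p.1 ∧ Rep (-p.2)).card =
      (F.filter fun p => Rep p.1 ∧ Rep p.2).card := by
    apply Finset.card_bij (fun p _ => (p.1, -p.2))
    · intro p hp
      rw [Finset.mem_filter, hmem] at hp ⊢
      exact ⟨(h2 p).1 hp.1, hp.2⟩
    · intro p _ p' _ h
      simp only [Prod.mk.injEq, neg_inj] at h
      exact Prod.ext h.1 h.2
    · intro p hp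
      rw [Finset.mem_filter, hmem] at hp
      refine ⟨(p.1, -p.2), ?_, by simp⟩
      rw [Finset.mem_filter, hmem]
      exact ⟨(h2 p).1 hp.1, by simpa using hp.2⟩
  have e3 : (F.filter fun p => Rep (-p.1) ∧ Rep (-p.2)).card =
      (F.filter fun p => Rep (-p.1) ∧ Rep p.2).card := by
    apply Finset.card_bij (fun p _ => (p.1, -p.2))
    · intro p hp
      rw [Finset.mem_filter, hmem] at hp ⊢
      exact ⟨(h2 p).1 hp.1, hp.2⟩
    · intro p _ p' _ h
      simp only [Prod.mk.injEq, neg_inj] at h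
      exact Prod.ext h.1 h.2
    · intro p hp
      rw [Finset.mem_filter, hmem] at hp
      refine ⟨(p.1, -p.2), ?_, by simp⟩
      rw [Finset.mem_filter, hmem]
      exact ⟨(h2 p).1 hp.1, by simpa using hp.2⟩
  have e4 : F.card = (F.filter fun p => Rep p.1 ∧ Rep p.2).card +
      (F.filter fun p => Rep (-p.1) ∧ Rep p.2).card +
      (F.filter fun p => Rep p.1 ∧ Rep (-p.2)).card +
      (F.filter fun p => Rep (-p.1) ∧ Rep (-p.2)).card := by
    rw [Finset.card_filter, Finset.card_filter, Finset.card_filter, Finset.card_filter,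
      ← Finset.sum_add_distrib, ← Finset.sum_add_distrib, ← Finset.sum_add_distrib,
      Finset.card_eq_sum_ones]
    refine Finset.sum_congr rfl fun p hp => ?_
    obtain ⟨h3, h4⟩ := hprm p ((hmem p).1 hp)
    rcases rep_or h3 with ⟨a1, a2⟩ | ⟨a1, a2⟩ <;> rcases rep_or h4 with ⟨b1, b2⟩ | ⟨b1, b2⟩ <;>
      simp [a1, a2, b1, b2]
  rw [hAc, hR, e4, e3, e1, e2]
  ring

/-- The points counted. -/
def RS (M : Fin k → Matrix (Fin n) (Fin m) ℤ) (φ : (Fin n → ℤ) → (Fin m → ℤ) → ℝ)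
    (h : (Fin n → ℝ) → (Fin m → ℝ) → ℝ) (B : ℝ) : Set ((Fin n → ℤ) × (Fin m → ℤ)) :=
  {p | Rep p.1 ∧ Rep p.2 ∧ Inc M p.1 p.2 ∧ jj M p.1 = 0 ∧ jj (tr M) p.2 = 0 ∧
    φ p.1 p.2 * h (ic p.1) (ic p.2) ≤ B}

theorem inc_neg_left {R : Type*} [CommRing R] {x : Fin n → R} {y : Fin m → R} :
    Inc M (-x) y ↔ Inc M x y := by
  unfold Inc
  simp only [neg_dotProduct, neg_eq_zero]

theorem inc_neg_right {R : Type*} [CommRing R] {x : Fin n → R} {y : Fin m → R} :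
    Inc M x (-y) ↔ Inc M x y := by
  rw [← inc_tr, inc_neg_left, inc_tr]

theorem jj_neg (x : Fin n → ℤ) : jj M (-x) = jj M x := by
  have := jj_smul (M := M) (t := -1) (by norm_num) x
  rwa [neg_one_smul] at this

theorem LM.neg_left {h : (Fin n → ℝ) → (Fin m → ℝ) → ℝ} (hh : LM M h) {x : Fin n → ℝ}
    {y : Fin m → ℝ} (hx : x ≠ 0) (hy : y ≠ 0) (hxy : Inc M x y) : h (-x) y = h x y := by
  have h1 := hh.homog (-1) 1 x y (by norm_num) one_ne_zero hx hy hxy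
  simpa using h1

theorem LM.neg_right {h : (Fin n → ℝ) → (Fin m → ℝ) → ℝ} (hh : LM M h) {x : Fin n → ℝ}
    {y : Fin m → ℝ} (hx : x ≠ 0) (hy : y ≠ 0) (hxy : Inc M x y) : h x (-y) = h x y := by
  have h1 := hh.homog 1 (-1) x y one_ne_zero (by norm_num) hx hy hxy
  simpa using h1

theorem AS_signs {φ : (Fin n → ℤ) → (Fin m → ℤ) → ℝ}
    {h : (Fin n → ℝ) → (Fin m → ℝ) → ℝ} (hh : LM M h)
    (hs1 : ∀ x y, Prm x → Prm y → Inc M x y → φ (-x) y = φ x y)
    (hs2 : ∀ x y, Prm x → Prm y → Inc M x y → φ x (-y) = φ x y) (T : ℝ) :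
    (∀ p, p ∈ AS M φ h T ↔ (-p.1, p.2) ∈ AS M φ h T) ∧
    (∀ p, p ∈ AS M φ h T ↔ (p.1, -p.2) ∈ AS M φ h T) := by
  have k1 : ∀ p : (Fin n → ℤ) × (Fin m → ℤ), p ∈ AS M φ h T → (-p.1, p.2) ∈ AS M φ h T := by
    rintro ⟨x, y⟩ ⟨h1, h2, h3, h5, h6, h4⟩
    refine ⟨prm_neg.2 h1, h2, inc_neg_left.2 h3, ?_, h6, ?_⟩
    · simp only at h5 ⊢
      rw [jj_neg]
      exact h5
    · simp only at h1 h2 h3 h4 ⊢
      rw [hs1 x y h1 h2 h3, ic_neg, hh.neg_left (ic_ne h1.ne) (ic_ne h2.ne) (inc_ic h3)]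
      exact h4
  have k2 : ∀ p : (Fin n → ℤ) × (Fin m → ℤ), p ∈ AS M φ h T → (p.1, -p.2) ∈ AS M φ h T := by
    rintro ⟨x, y⟩ ⟨h1, h2, h3, h5, h6, h4⟩
    refine ⟨h1, prm_neg.2 h2, inc_neg_right.2 h3, h5, ?_, ?_⟩
    · simp only at h6 ⊢
      rw [jj_neg]
      exact h6
    · simp only at h1 h2 h3 h4 ⊢
      rw [hs2 x y h1 h2 h3, ic_neg, hh.neg_right (ic_ne h1.ne) (ic_ne h2.ne) (inc_ic h3)]
      exact h4
  refine ⟨fun p => ⟨k1 p, fun h => ?_⟩, fun p => ⟨k2 p, fun h => ?_⟩⟩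
  · have := k1 _ h
    simpa using this
  · have := k2 _ h
    simpa using this

/-- **The asymptotic formula.** -/
theorem main_abs (hM : Smooth M) (hk : 1 ≤ k) (hn : 2 * k + 1 ≤ n) (hm : 2 * k + 1 ≤ m)
    {φ : (Fin n → ℤ) → (Fin m → ℤ) → ℝ} (hφ : CA M φ)
    {h : (Fin n → ℝ) → (Fin m → ℝ) → ℝ} (hh : LM M h)
    (hup : ∃ C : ℝ, 0 < C ∧ ∀ x y, Prm x → Prm y → Inc M x y → φ x y ≤ C)
    (hs1 : ∀ x y, Prm x → Prm y → Inc M x y → φ (-x) y = φ x y)
    (hs2 : ∀ x y, Prm x → Prm y → Inc M x y → φ x (-y) = φ x y) :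
    ∃ c : ℝ, 0 < c ∧ Tendsto (fun B : ℝ => ((RS M φ h B).ncard : ℝ) / (B * Real.log B)) atTop
      (𝓝 c) := by
  classical
  obtain ⟨c, hclim⟩ := total hM hk hn hm hφ hh
  obtain ⟨c₁, hc1, hc⟩ := hφ.low
  obtain ⟨c₀, CF, hc0, hCF, hb⟩ := hz_bounds hh (by omega)
  have hcb : ∀ x w, x ≠ 0 → Inc M x w → c₀ * (‖x‖ ^ (n - k) * ‖w‖ ^ (m - k)) ≤ hz h x w :=
    fun x w hx hxw => (hb x w hx hxw).1
  have hfin : ∀ T : ℝ, 0 < T → (AS M φ h T).Finite := fun T hT =>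
    (FU M (1 / (c₁ * c₀) * T)).finite_toSet.subset
      (AS_sub hk (by omega) (by omega) hc1 hc0 hc hcb (by field_simp; exact le_rfl) hT)
  have hRA : ∀ B : ℝ, 0 < B → (RS M φ h B).ncard * 4 = (AS M φ h B).ncard := by
    intro B hB
    have hsg := AS_signs hh hs1 hs2 B
    have h1 := four_signs (hfin B hB) (fun p hp => ⟨hp.1, hp.2.1⟩) hsg.1 hsg.2
    have h2 : {p | p ∈ AS M φ h B ∧ Rep p.1 ∧ Rep p.2} = RS M φ h B := by
      ext p
      constructor
      · rintro ⟨⟨h3, h4, h5, h6, h7, h8⟩, h9, h10⟩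
        exact ⟨h9, h10, h5, h6, h7, h8⟩
      · rintro ⟨h9, h10, h5, h6, h7, h8⟩
        exact ⟨⟨Rep.prm h9, Rep.prm h10, h5, h6, h7, h8⟩, h9, h10⟩
    rw [h2] at h1
    rw [h1]
    ring
  have hlim : Tendsto (fun B : ℝ => ((RS M φ h B).ncard : ℝ) / (B * Real.log B)) atTop
      (𝓝 (c / 4)) := by
    have h2 := hclim.div_const (4 : ℝ)
    apply h2.congr'
    filter_upwards [eventually_gt_atTop 1] with B hB
    have hB0 : 0 < B := by linarith
    have hlogB : 0 < Real.log B := Real.log_pos hB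
    rw [← hRA B hB0]
    push_cast
    field_simp
  refine ⟨c / 4, ?_, hlim⟩
  -- positivity
  obtain ⟨c₂, T₀, hc2, hlow⟩ := low_FP hM hk hn hm
  obtain ⟨Cφ, hCφ, hφup⟩ := hup
  set C : ℝ := Cφ * CF with hC
  have hC0 : 0 < C := by positivity
  have hsub : ∀ B : ℝ, 0 < B → ((FP M (B / C) : Finset _) : Set ((Fin n → ℤ) × (Fin m → ℤ))) ⊆
      AS M φ h B := by
    intro B hB p hp
    unfold FP at hp
    rw [Finset.mem_coe, Finset.mem_filter, mem_FU hk (by omega) (by omega) (by positivity)] at hp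
    obtain ⟨⟨h1, h2, h3, h4⟩, h5, h6⟩ := hp
    refine ⟨h5, h6, h1, h2, h3, ?_⟩
    have h7 := hφup p.1 p.2 h5 h6 h1
    have h8 := (hb (ic p.1) (ic p.2) (ic_ne h5.ne) (inc_ic h1)).2
    rw [hz_eq (ic_ne h6.ne)] at h8
    have h9 := hh.pos (ic p.1) (ic p.2) (ic_ne h5.ne) (ic_ne h6.ne) (inc_ic h1)
    rw [le_div_iff₀ hC0] at h4
    unfold HH at h4
    calc φ p.1 p.2 * h (ic p.1) (ic p.2) ≤ Cφ * h (ic p.1) (ic p.2) := by gcongr
      _ ≤ Cφ * (CF * (‖ic p.1‖ ^ (n - k) * ‖ic p.2‖ ^ (m - k))) := by gcongr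
      _ = ‖ic p.1‖ ^ (n - k) * ‖ic p.2‖ ^ (m - k) * C := by rw [hC]; ring
      _ ≤ B := h4
  have hge : c₂ / (2 * C) ≤ c := by
    apply ge_of_tendsto hclim
    filter_upwards [eventually_ge_atTop (max (max (C * T₀) (C ^ 2)) 2)] with B hB
    have hB1 : C * T₀ ≤ B := (le_max_left _ _).trans ((le_max_left _ _).trans hB)
    have hB2 : C ^ 2 ≤ B := (le_max_right _ _).trans ((le_max_left _ _).trans hB)
    have hB3 : 2 ≤ B := (le_max_right _ _).trans hB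
    have hB0 : 0 < B := by linarith
    have hlogB : 0 < Real.log B := Real.log_pos (by linarith)
    have h1 := hlow (B / C) (by rw [le_div_iff₀ hC0]; linarith)
    have h2 : ((FP M (B / C)).card : ℝ) ≤ ((AS M φ h B).ncard : ℝ) := by
      rw [← Set.ncard_coe_finset]
      exact_mod_cast Set.ncard_le_ncard (hsub B hB0) (hfin B hB0)
    have h3 : Real.log B / 2 ≤ Real.log (B / C) := by
      rw [Real.log_div hB0.ne' hC0.ne']
      have h4 := Real.log_le_log (by positivity) hB2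
      rw [Real.log_pow] at h4
      push_cast at h4
      linarith
    rw [pow_one, div_le_div_iff₀ (by positivity) (by positivity)]
    have h5 : c₂ * ((B / C) * (Real.log B / 2)) ≤ ((AS M φ h B).ncard : ℝ) := by
      refine le_trans ?_ (h1.trans h2)
      gcongr
    calc c₂ * (B * Real.log B) = c₂ * ((B / C) * (Real.log B / 2)) * (2 * C) := by
          field_simp
      _ ≤ ((AS M φ h B).ncard : ℝ) * (2 * C) := by gcongr
  have : 0 < c := lt_of_lt_of_le (by positivity) hge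
  positivity

end Pool.Agent.N852.DD
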