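import Mathlib
import Pool.Agent.N852.DD.MainR
import Pool.Agent.N852.Pt

/-!
Local metrics at finite places are approximated by functions of residue classes.
-/

namespace Pool.Agent.N852.DD

open Matrix Module Filter Topology
open Pool.Agent.N852 (ic Cg Prm pc pc_norm pc_sub qc nr nr_spec nr_rep nr_inj nr_surj mulHeight_nr)
open Pool.Agent.H548.WM (Rep)

variable {k n m : ℕ} {M : Fin k → Matrix (Fin n) (Fin m) ℤ}

theorem CA_one (M : Fin k → Matrix (Fin n) (Fin m) ℤ) : CA M fun _ _ => 1 := by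
  refine ⟨⟨1, one_pos, fun _ _ _ _ _ => le_rfl⟩, fun ε hε => ⟨1, one_ne_zero, ?_⟩⟩
  intro x y x' y' _ _ _ _ _ _ _ _
  linarith

theorem CA_mul {φ ψ : (Fin n → ℤ) → (Fin m → ℤ) → ℝ} (hφ : CA M φ) (hψ : CA M ψ) :
    CA M fun x y => φ x y * ψ x y := by
  obtain ⟨m₁, hm1, h1⟩ := hφ.low
  obtain ⟨m₂, hm2, h2⟩ := hψ.low
  refine ⟨⟨m₁ * m₂, by positivity, fun x y hx hy hxy => ?_⟩, fun ε hε => ?_⟩
  · have h3 := h1 x y hx hy hxy
    have h4 := h2 x y hx hy hxy
    exact mul_le_mul h3 h4 hm2.le (by linarith)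
  · obtain ⟨ε₁, hε₁⟩ : ∃ ε₁ : ℝ, ε₁ = min 1 (ε / 3) := ⟨_, rfl⟩
    have he0 : 0 < ε₁ := by rw [hε₁]; positivity
    have he1 : ε₁ ≤ 1 := by rw [hε₁]; exact min_le_left _ _
    have he2 : 3 * ε₁ ≤ ε := by
      have : ε₁ ≤ ε / 3 := by rw [hε₁]; exact min_le_right _ _
      linarith
    obtain ⟨q₁, hq1, h3⟩ := hφ.apx ε₁ he0
    obtain ⟨q₂, hq2, h4⟩ := hψ.apx ε₁ he0
    refine ⟨q₁ * q₂, mul_ne_zero hq1 hq2, ?_⟩
    intro x y x' y' hx hy hxy hx' hy' hxy' hxx hyy
    have h5 := h3 x y x' y' hx hy hxy hx' hy' hxy' (hxx.dvd (Dvd.intro _ rfl))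
      (hyy.dvd (Dvd.intro _ rfl))
    have h6 := h4 x y x' y' hx hy hxy hx' hy' hxy' (hxx.dvd (Dvd.intro_left _ rfl))
      (hyy.dvd (Dvd.intro_left _ rfl))
    have h7 := h1 x y hx hy hxy
    have h8 := h2 x y hx hy hxy
    have h9 := h1 x' y' hx' hy' hxy'
    have h10 := h2 x' y' hx' hy' hxy'
    have h11 : 0 < φ x' y' * ψ x' y' := mul_pos (by linarith) (by linarith)
    calc φ x y * ψ x y ≤ ((1 + ε₁) * φ x' y') * ((1 + ε₁) * ψ x' y') :=
          mul_le_mul h5 h6 (by linarith) (by nlinarith)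
      _ = (1 + ε₁) ^ 2 * (φ x' y' * ψ x' y') := by ring
      _ ≤ (1 + ε) * (φ x' y' * ψ x' y') := by
        apply mul_le_mul_of_nonneg_right _ h11.le
        nlinarith

theorem CA_prod {ι : Type*} (S : Finset ι) (φ : ι → (Fin n → ℤ) → (Fin m → ℤ) → ℝ)
    (h : ∀ i ∈ S, CA M (φ i)) : CA M fun x y => ∏ i ∈ S, φ i x y := by
  classical
  induction S using Finset.induction_on with
  | empty => simpa using CA_one M
  | insert i S hi ih =>
    have h1 := CA_mul (h i (Finset.mem_insert_self i S))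
      (ih fun j hj => h j (Finset.mem_insert_of_mem hj))
    have h2 : (fun x y => ∏ j ∈ insert i S, φ j x y) =
        fun x y => φ i x y * ∏ j ∈ S, φ j x y := by
      funext x y
      rw [Finset.prod_insert hi]
    rw [h2]
    exact h1

variable {p : ℕ} [hp : Fact p.Prime]

theorem cv_map {K : Type*} [Field K] (y : Fin m → ℤ) (i : Fin k) :
    cv M (fun l => (y l : K)) i = fun l => ((cv M y i l : ℤ) : K) := by
  funext l
  unfold cv mulVec dotProduct
  push_cast
  refine Finset.sum_congr rfl fun l' _ => ?_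
  simp

theorem inc_map {K : Type*} [Field K] {x : Fin n → ℤ} {y : Fin m → ℤ} (h : Inc M x y) :
    Inc M (fun l => (x l : K)) (fun l => (y l : K)) := by
  intro i
  rw [cv_map]
  have h2 := congrArg (Int.cast : ℤ → K) (h i)
  unfold dotProduct at h2 ⊢
  push_cast at h2
  exact h2

theorem inc_map_iff {K : Type*} [Field K] [CharZero K] {x : Fin n → ℤ} {y : Fin m → ℤ} :
    Inc M (fun l => (x l : K)) (fun l => (y l : K)) ↔ Inc M x y := by
  refine ⟨fun h i => ?_, inc_map⟩
  have h1 := h i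
  rw [cv_map] at h1
  have h2 : ((x ⬝ᵥ cv M y i : ℤ) : K) = 0 := by
    unfold dotProduct at h1 ⊢
    push_cast
    exact h1
  exact_mod_cast h2

theorem pc_inc {x : Fin n → ℤ} {y : Fin m → ℤ} (h : Inc M x y) : Inc M (pc p x) (pc p y) :=
  inc_map h

theorem pc_mem {x : Fin n → ℤ} {y : Fin m → ℤ} (hx : Prm x) (hy : Prm y) (h : Inc M x y) :
    (pc p x, pc p y) ∈ UU (K := ℚ_[p]) M := ⟨pc_norm hx, pc_norm hy, pc_inc h⟩

/-- **Local metrics at finite places.** -/
theorem CA_padic {h : (Fin n → ℚ_[p]) → (Fin m → ℚ_[p]) → ℝ} (hh : LM M h) :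
    CA M fun x y => h (pc p x) (pc p y) := by
  obtain ⟨c, C, hc, hC, hb⟩ := hh.bounds
  refine ⟨⟨c, hc, fun x y hx hy hxy => (hb _ (pc_mem hx hy hxy)).1⟩, fun ε hε => ?_⟩
  have h1 := hh.cont.mono (UU_sub M)
  have hposU : ∀ q ∈ UU (K := ℚ_[p]) M, 0 < h q.1 q.2 := fun q hq =>
    lt_of_lt_of_le hc (hb q hq).1
  have h2 : ContinuousOn (fun q : (Fin n → ℚ_[p]) × (Fin m → ℚ_[p]) => Real.log (h q.1 q.2))
      (UU M) := h1.log fun q hq => (hposU q hq).ne'
  have h3 := (UU_compact (K := ℚ_[p]) M).uniformContinuousOn_of_continuous h2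
  rw [Metric.uniformContinuousOn_iff] at h3
  obtain ⟨δ, hδ, h4⟩ := h3 (Real.log (1 + ε)) (Real.log_pos (by linarith))
  have hp1 : (1 : ℝ) < p := by exact_mod_cast hp.out.one_lt
  obtain ⟨e, he⟩ := exists_pow_lt_of_lt_one hδ (inv_lt_one_of_one_lt₀ hp1)
  have he' : (p : ℝ) ^ (-e : ℤ) < δ := by
    rw [_root_.zpow_neg, zpow_natCast, ← inv_pow]
    exact he
  refine ⟨p ^ e, pow_ne_zero _ hp.out.ne_zero, ?_⟩
  intro x y x' y' hx hy hxy hx' hy' hxy' hxx hyy
  have hU := pc_mem (p := p) hx hy hxy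
  have hU' := pc_mem (p := p) hx' hy' hxy'
  have h5 := h4 _ hU _ hU' (by
    rw [Prod.dist_eq, dist_eq_norm, dist_eq_norm]
    exact max_lt (lt_of_le_of_lt (pc_sub hxx) he') (lt_of_le_of_lt (pc_sub hyy) he'))
  rw [Real.dist_eq] at h5
  have h6 := (abs_lt.1 h5).2
  simp only at h6
  have h7 := hposU _ hU
  have h8 := hposU _ hU'
  simp only at h7 h8
  have h9 : Real.log (h (pc p x) (pc p y)) < Real.log ((1 + ε) * h (pc p x') (pc p y')) := by
    rw [Real.log_mul (by linarith) h8.ne']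
    linarith
  exact ((Real.log_lt_log_iff h7 (by positivity)).1 h9).le

/-! ### The degenerate loci over the rational numbers -/

theorem li_smul {ι V K : Type*} [Fintype ι] [Field K] [AddCommGroup V] [Module K V] {v : ι → V}
    {a : K} (ha : a ≠ 0) : LinearIndependent K (fun i => a • v i) ↔ LinearIndependent K v := by
  rw [Fintype.linearIndependent_iff, Fintype.linearIndependent_iff]
  have h : ∀ g : ι → K, ∑ i, g i • a • v i = a • ∑ i, g i • v i := by
    intro g
    rw [Finset.smul_sum]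
    exact Finset.sum_congr rfl fun i _ => smul_comm _ _ _
  simp only [h, smul_eq_zero, ha, false_or]

theorem jj_iff (x : Fin n → ℤ) : jj M x = 0 ↔ LinearIndependent ℚ (rv M (qc x)) := by
  have h1 : jj M x = 0 ↔ LinearIndependent ℝ (rv M (ic x)) := by
    unfold jj
    rw [Submodule.finrank_eq_zero, Submodule.eq_bot_iff, Fintype.linearIndependent_iff]
    constructor
    · intro h g hg i
      have h2 := h (WithLp.toLp 2 g) (by
        rw [mem_rel]
        exact hg)
      have h3 := congrArg (fun s : EuclideanSpace ℝ (Fin k) => s i) h2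
      simpa using h3
    · intro h s hs
      rw [mem_rel] at hs
      ext i
      exact h (fun i => s i) hs i
  have h2 : LinearIndependent ℝ (rv M (ic x)) ↔ LinearIndependent ℤ (rv M x) := by
    rw [← linearIndependent_algebraMap_comp_iff (R := ℤ) (S := ℝ)]
    have : rv M (ic x) = fun i => algebraMap ℤ ℝ ∘ rv M x i := by
      funext i
      rw [rv_ic]
      rfl
    rw [this]
  have h3 : LinearIndependent ℚ (rv M (qc x)) ↔ LinearIndependent ℤ (rv M x) := by
    rw [← linearIndependent_algebraMap_comp_iff (R := ℤ) (S := ℚ)]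
    have : rv M (qc x) = fun i => algebraMap ℤ ℚ ∘ rv M x i := by
      funext i
      have := cv_map (M := tr M) (K := ℚ) x i
      rw [cv_tr, cv_tr] at this
      exact this
    rw [this]
  rw [h1, h2, h3]

theorem jj_iff_smul {a : ℚ} (ha : a ≠ 0) (x : Fin n → ℤ) :
    jj M x = 0 ↔ LinearIndependent ℚ (rv M (a • qc x)) := by
  rw [jj_iff]
  have : rv M (a • qc x) = fun i => a • rv M (qc x) i := by
    funext i
    rw [rv_smul]
  rw [this, li_smul ha]

theorem jj_iff_smul' {a : ℚ} (ha : a ≠ 0) (y : Fin m → ℤ) :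
    jj (tr M) y = 0 ↔ LinearIndependent ℚ (cv M (a • qc y)) := by
  rw [jj_iff_smul (M := tr M) ha, rv_tr]

end Pool.Agent.N852.DD
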